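import Pool.Agent.R840.EC.Cover

set_option autoImplicit false

namespace Pool.Agent.R840.EC

open Finset MvPolynomial Module

section generic

variable {R S : Type*} [CommRing R] [CommRing S] {n d D : ℕ}

/-- the Chow form over any ring -/
noncomputable def chowR (p : Fin D → Fin (n + 1) → R) : MvPolynomial (Fin (n + 1)) R :=
  ∏ i, ∑ j, C (p i j) * X j

theorem chow_eq (p : Fin D → Fin (n + 1) → ℂ) : chow p = chowR p := rfl

theorem map_chowR (φ : R →+* S) (p : Fin D → Fin (n + 1) → R) :
    MvPolynomial.map φ (chowR p) = chowR (fun i j => φ (p i j)) := by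
  unfold chowR
  rw [map_prod]
  refine prod_congr rfl fun i _ => ?_
  rw [map_sum]
  refine sum_congr rfl fun j _ => ?_
  rw [map_mul, map_C, map_X]

theorem chowR_smul (s : Fin D → R) (p : Fin D → Fin (n + 1) → R) :
    chowR (fun i j => s i * p i j) = C (∏ i, s i) * chowR p := by
  unfold chowR
  rw [map_prod, ← prod_mul_distrib]
  refine prod_congr rfl fun i _ => ?_
  rw [mul_sum]
  refine sum_congr rfl fun j _ => ?_
  rw [C_mul]
  ring

end generic

theorem coeff_chowR_mem {F K : Type} [Field F] [Field K] [Algebra F K] (A : Subalgebra F K)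
    {n D : ℕ} (p : Fin D → Fin (n + 1) → K) (hp : ∀ i j, p i j ∈ A) (a : Fin (n + 1) →₀ ℕ) :
    coeff a (chowR p) ∈ A := by
  have h1 : chowR p = MvPolynomial.map (A.val : A →+* K) (chowR fun i j => (⟨p i j, hp i j⟩ : A)) := by
    rw [map_chowR]
    rfl
  rw [h1, coeff_map]
  exact Subtype.mem _

theorem aeval_mem {σ : Type*} {F K : Type} [Field F] [Field K] [Algebra ℂ F] [Algebra F K]
    [Algebra ℂ K] [IsScalarTower ℂ F K] (A : Subalgebra F K) (c : σ → K) (hc : ∀ x, c x ∈ A)
    (f : MvPolynomial σ ℂ) : aeval c f ∈ A := by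
  induction f using MvPolynomial.induction_on with
  | C r =>
    rw [← algebraMap_eq, AlgHom.commutes, IsScalarTower.algebraMap_apply ℂ F K]
    exact A.algebraMap_mem _
  | add p q hp hq => rw [map_add]; exact A.add_mem hp hq
  | mul_X p i hp => rw [map_mul, aeval_X]; exact A.mul_mem hp (hc i)

open scoped IntermediateField.algebraAdjoinAdjoin in
theorem count_indep {K : Type} [Field K] [Algebra ℂ K] {m R' : ℕ} (Y : Set K)
    (hY : Y.encard ≤ m) (x : Fin R' → K) (hx : AlgebraicIndependent ℂ x)
    (halg : ∀ l, IsAlgebraic (IntermediateField.adjoin ℂ Y) (x l)) : R' ≤ m := by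
  have halg' : ∀ l, IsAlgebraic (Algebra.adjoin ℂ Y) (x l) := fun l =>
    (IsFractionRing.isAlgebraic_iff (Algebra.adjoin ℂ Y) (IntermediateField.adjoin ℂ Y) K).2
      (halg l)
  have hI : (AlgebraicIndependent.matroid ℂ K).Indep (Set.range x) :=
    AlgebraicIndependent.matroid_indep_iff.2 hx.coe_range
  have hsub : Set.range x ⊆ (AlgebraicIndependent.matroid ℂ K).closure Y := by
    rintro _ ⟨l, rfl⟩
    rw [AlgebraicIndependent.matroid_closure_eq]
    exact halg' l
  have h1 := hI.encard_le_eRk_of_subset hsub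
  rw [Matroid.eRk_closure_eq] at h1
  have h2 := (AlgebraicIndependent.matroid ℂ K).eRk_le_encard Y
  have h3 : (R' : ℕ∞) ≤ (Set.range x).encard := by
    have := hx.injective.encard_range
    simpa using this
  exact_mod_cast h3.trans (h1.trans (h2.trans hY))

end Pool.Agent.R840.EC
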