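import Mathlib

set_option autoImplicit false

namespace Pool.Agent.R840.EC

open Finset MvPolynomial

section Basic

variable {R S : Type*} [CommRing R] [CommRing S] {n d : ℕ}

/-- the `j`-th coordinate of the contraction of `T` with `v` in every factor except the `k`-th -/
def contract (T : (Fin d → Fin (n + 1)) → R) (k : Fin d) (v : Fin (n + 1) → R)
    (j : Fin (n + 1)) : R :=
  ∑ I : Fin d → Fin (n + 1), if I k = j then T I * ∏ m ∈ univ.erase k, v (I m) else 0

/-- `T(v, …, v)` -/
def full (T : (Fin d → Fin (n + 1)) → R) (v : Fin (n + 1) → R) : R :=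
  ∑ I : Fin d → Fin (n + 1), T I * ∏ m, v (I m)

theorem map_contract (φ : R →+* S) (T : (Fin d → Fin (n + 1)) → R) (k : Fin d)
    (v : Fin (n + 1) → R) (j : Fin (n + 1)) :
    φ (contract T k v j) = contract (fun I => φ (T I)) k (fun i => φ (v i)) j := by
  unfold contract
  rw [map_sum]
  refine sum_congr rfl fun I _ => ?_
  split_ifs
  · rw [map_mul, map_prod]
  · rw [map_zero]

theorem map_full (φ : R →+* S) (T : (Fin d → Fin (n + 1)) → R) (v : Fin (n + 1) → R) :
    φ (full T v) = full (fun I => φ (T I)) (fun i => φ (v i)) := by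
  unfold full
  rw [map_sum]
  refine sum_congr rfl fun I _ => ?_
  rw [map_mul, map_prod]

theorem contract_add (T T' : (Fin d → Fin (n + 1)) → R) (k : Fin d) (v : Fin (n + 1) → R)
    (j : Fin (n + 1)) : contract (T + T') k v j = contract T k v j + contract T' k v j := by
  unfold contract
  rw [← sum_add_distrib]
  refine sum_congr rfl fun I _ => ?_
  split_ifs
  · rw [Pi.add_apply, add_mul]
  · rw [add_zero]

theorem contract_smul (c : R) (T : (Fin d → Fin (n + 1)) → R) (k : Fin d) (v : Fin (n + 1) → R)
    (j : Fin (n + 1)) : contract (c • T) k v j = c * contract T k v j := by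
  unfold contract
  rw [mul_sum]
  refine sum_congr rfl fun I _ => ?_
  split_ifs
  · rw [Pi.smul_apply, smul_eq_mul, mul_assoc]
  · rw [mul_zero]

theorem contract_smul_vec (T : (Fin d → Fin (n + 1)) → R) (k : Fin d) (c : R)
    (v : Fin (n + 1) → R) (j : Fin (n + 1)) :
    contract T k (fun i => c * v i) j = c ^ (d - 1) * contract T k v j := by
  unfold contract
  rw [mul_sum]
  refine sum_congr rfl fun I _ => ?_
  split_ifs
  · rw [prod_mul_distrib, prod_const, card_erase_of_mem (mem_univ _), card_univ, Fintype.card_fin]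
    ring
  · rw [mul_zero]

theorem sum_mul_contract (T : (Fin d → Fin (n + 1)) → R) (k : Fin d) (v : Fin (n + 1) → R) :
    ∑ j, v j * contract T k v j = full T v := by
  unfold contract full
  simp_rw [mul_sum]
  rw [sum_comm]
  refine sum_congr rfl fun I _ => ?_
  rw [sum_eq_single (I k)]
  · rw [if_pos rfl, ← mul_prod_erase univ (fun m => v (I m)) (mem_univ k)]
    ring
  · intro j _ hj
    rw [if_neg (Ne.symm hj), mul_zero]
  · intro h
    exact absurd (mem_univ _) h

/-- the contraction as a form -/
noncomputable def pc (T : (Fin d → Fin (n + 1)) → R) (k : Fin d) (j : Fin (n + 1)) :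
    MvPolynomial (Fin (n + 1)) R :=
  contract (fun I => C (T I)) k X j

/-- `T(x, …, x)` as a form -/
noncomputable def pfull (T : (Fin d → Fin (n + 1)) → R) : MvPolynomial (Fin (n + 1)) R :=
  full (fun I => C (T I)) X

theorem eval_pc (T : (Fin d → Fin (n + 1)) → R) (k : Fin d) (j : Fin (n + 1))
    (v : Fin (n + 1) → R) : eval v (pc T k j) = contract T k v j := by
  unfold pc
  rw [map_contract]
  simp

theorem eval_pfull (T : (Fin d → Fin (n + 1)) → R) (v : Fin (n + 1) → R) :
    eval v (pfull T) = full T v := by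
  unfold pfull
  rw [map_full]
  simp

theorem pc_add (T T' : (Fin d → Fin (n + 1)) → R) (k : Fin d) (j : Fin (n + 1)) :
    pc (T + T') k j = pc T k j + pc T' k j := by
  unfold pc
  rw [← contract_add]
  congr 1
  funext I
  simp

theorem pc_smul (c : R) (T : (Fin d → Fin (n + 1)) → R) (k : Fin d) (j : Fin (n + 1)) :
    pc (c • T) k j = C c * pc T k j := by
  unfold pc
  rw [← contract_smul]
  congr 1
  funext I
  simp

theorem pc_homogeneous (T : (Fin d → Fin (n + 1)) → R) (k : Fin d) (j : Fin (n + 1)) :
    (pc T k j).IsHomogeneous (d - 1) := by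
  unfold pc contract
  refine IsHomogeneous.sum _ _ _ fun I _ => ?_
  split_ifs
  · have h1 : (∏ m ∈ univ.erase k, (X (I m) : MvPolynomial (Fin (n + 1)) R)).IsHomogeneous
        (∑ m ∈ univ.erase k, 1) :=
      IsHomogeneous.prod _ _ _ fun m _ => isHomogeneous_X _ _
    have h2 : ∑ m ∈ univ.erase k, 1 = d - 1 := by
      rw [sum_const, card_erase_of_mem (mem_univ _), card_univ, Fintype.card_fin]
      simp
    rw [h2] at h1
    have := (isHomogeneous_C (Fin (n + 1)) (T I)).mul h1
    simpa using this
  · exact isHomogeneous_zero _ _ _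

theorem pfull_homogeneous (T : (Fin d → Fin (n + 1)) → R) :
    (pfull T).IsHomogeneous d := by
  unfold pfull full
  refine IsHomogeneous.sum _ _ _ fun I _ => ?_
  have h1 : (∏ m : Fin d, (X (I m) : MvPolynomial (Fin (n + 1)) R)).IsHomogeneous
      (∑ m : Fin d, 1) :=
    IsHomogeneous.prod _ _ _ fun m _ => isHomogeneous_X _ _
  have h2 : ∑ m : Fin d, 1 = d := by simp
  rw [h2] at h1
  have := (isHomogeneous_C (Fin (n + 1)) (T I)).mul h1
  simpa using this

theorem sum_X_mul_pc (T : (Fin d → Fin (n + 1)) → R) (k : Fin d) :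
    ∑ j, X j * pc T k j = pfull T := by
  unfold pc pfull
  exact sum_mul_contract _ _ _

theorem pderiv_finset_prod {ι : Type*} [DecidableEq ι] (j : Fin (n + 1)) (s : Finset ι)
    (f : ι → MvPolynomial (Fin (n + 1)) R) :
    pderiv j (∏ i ∈ s, f i) = ∑ k ∈ s, pderiv j (f k) * ∏ i ∈ s.erase k, f i := by
  induction s using Finset.induction_on with
  | empty => simp
  | insert a s ha ih =>
    rw [prod_insert ha, pderiv_mul, ih, sum_insert ha, erase_insert ha, mul_sum]
    congr 1
    refine sum_congr rfl fun k hk => ?_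
    have hka : k ≠ a := fun h => ha (h ▸ hk)
    rw [erase_insert_of_ne hka.symm, prod_insert (by simp [ha])]
    ring

theorem pderiv_prod_X (j : Fin (n + 1)) (I : Fin d → Fin (n + 1)) :
    pderiv j (∏ m, (X (I m) : MvPolynomial (Fin (n + 1)) R)) =
      ∑ k, if I k = j then ∏ m ∈ univ.erase k, X (I m) else 0 := by
  rw [pderiv_finset_prod]
  refine sum_congr rfl fun k _ => ?_
  split_ifs with h
  · rw [h, pderiv_X_self, one_mul]
  · rw [pderiv_X_of_ne h, zero_mul]

theorem pderiv_pfull (T : (Fin d → Fin (n + 1)) → R) (j : Fin (n + 1)) :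
    pderiv j (pfull T) = ∑ k, pc T k j := by
  unfold pfull pc full contract
  rw [map_sum, sum_comm]
  refine sum_congr rfl fun I _ => ?_
  rw [pderiv_C_mul, pderiv_prod_X, mul_sum]
  refine sum_congr rfl fun k _ => ?_
  split_ifs
  · rfl
  · rw [mul_zero]

end Basic

end Pool.Agent.R840.EC
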