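import Pool.Agent.R840.EC.Fermat

set_option autoImplicit false

namespace Pool.Agent.R840.EC

open Finset MvPolynomial Module

variable {n d : ℕ}

instance finite_homog (n m : ℕ) : Module.Finite ℂ (homogeneousSubmodule (Fin (n + 1)) ℂ m) :=
  Module.Finite.iff_fg.2 (homogeneousSubmodule_fg _ _ m)

theorem finrank_homog (n m : ℕ) :
    finrank ℂ (homogeneousSubmodule (Fin (n + 1)) ℂ m) = (n + m).choose n := by
  rw [homogeneousSubmodule_eq_finsupp_supported]
  rw [(AddMonoidAlgebra.supportedEquivFinsupp (R := ℂ) (S := ℂ)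
    {a : Fin (n + 1) →₀ ℕ | a.degree = m}).finrank_eq]
  have hset : {a : Fin (n + 1) →₀ ℕ | a.degree = m} =
      ((Finset.univ : Finset (Fin (n + 1))).finsuppAntidiag m : Set (Fin (n + 1) →₀ ℕ)) := by
    ext a
    rw [Set.mem_ofPred_eq, Finset.mem_coe, Finset.mem_finsuppAntidiag, Finsupp.degree_eq_sum]
    simp
  rw [hset, finrank_finsupp_self]
  have hc : Fintype.card ((Finset.univ : Finset (Fin (n + 1))).finsuppAntidiag m :
      Set (Fin (n + 1) →₀ ℕ)) = ((Finset.univ : Finset (Fin (n + 1))).finsuppAntidiag m).card := by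
    rw [← Fintype.card_coe]
    exact Fintype.card_congr (Equiv.refl _)
  rw [hc, Finset.card_finsuppAntidiag_nat_eq_choose, Finset.card_univ,
    Fintype.card_fin, show n + 1 + m - 1 = n + m by omega, ← Nat.choose_symm_add]

/-- forms of degree `m` -/
abbrev H (n m : ℕ) : Submodule ℂ (MvPolynomial (Fin (n + 1)) ℂ) :=
  homogeneousSubmodule (Fin (n + 1)) ℂ m

/-- coordinate tensors -/
abbrev Ten (n d : ℕ) : Type := (Fin d → Fin (n + 1)) → ℂ

/-- `g ↦ Σ x_j g_j` -/
noncomputable def mu (n m : ℕ) : (Fin (n + 1) → H n m) →ₗ[ℂ] H n (m + 1) where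
  toFun g := ⟨∑ j, X j * (g j : MvPolynomial (Fin (n + 1)) ℂ), by
    refine IsHomogeneous.sum _ _ _ fun j _ => ?_
    have := (isHomogeneous_X ℂ j).mul (g j).2
    rwa [add_comm 1 m] at this⟩
  map_add' g g' := by
    ext1
    simp [mul_add, sum_add_distrib]
  map_smul' c g := by
    ext1
    simp [smul_sum]

theorem mu_coe (m : ℕ) (g : Fin (n + 1) → H n m) :
    ((mu n m g : H n (m + 1)) : MvPolynomial (Fin (n + 1)) ℂ) =
      ∑ j, X j * (g j : MvPolynomial (Fin (n + 1)) ℂ) := rfl

/-- `F ↦ ∇F / (m+1)` -/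
noncomputable def grd (n m : ℕ) : H n (m + 1) →ₗ[ℂ] (Fin (n + 1) → H n m) where
  toFun F := fun j => ⟨((m + 1 : ℕ) : ℂ)⁻¹ • pderiv j (F : MvPolynomial (Fin (n + 1)) ℂ),
    Submodule.smul_mem _ _ (by
      have := IsHomogeneous.pderiv (i := j) F.2
      simpa using this)⟩
  map_add' F F' := by
    funext j
    ext1
    simp
  map_smul' c F := by
    funext j
    ext1
    simp [smul_comm c]

theorem grd_coe (m : ℕ) (F : H n (m + 1)) (j : Fin (n + 1)) :
    ((grd n m F j : H n m) : MvPolynomial (Fin (n + 1)) ℂ) =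
      ((m + 1 : ℕ) : ℂ)⁻¹ • pderiv j (F : MvPolynomial (Fin (n + 1)) ℂ) := rfl

theorem mu_grd (m : ℕ) (F : H n (m + 1)) : mu n m (grd n m F) = F := by
  ext1
  rw [mu_coe]
  simp_rw [grd_coe, mul_smul_comm]
  have h0 : ((m + 1 : ℕ) : ℂ) ≠ 0 := by exact_mod_cast Nat.succ_ne_zero m
  rw [← smul_sum, IsHomogeneous.sum_X_mul_pderiv F.2, ← Nat.cast_smul_eq_nsmul ℂ, smul_smul,
    inv_mul_cancel₀ h0, one_smul]

theorem mu_surjective (m : ℕ) : Function.Surjective (mu n m) := fun F => ⟨_, mu_grd m F⟩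

theorem finrank_ker_mu (n m : ℕ) :
    finrank ℂ (LinearMap.ker (mu n m)) + (n + (m + 1)).choose n = (n + 1) * (n + m).choose n := by
  have h1 := LinearMap.finrank_range_add_finrank_ker (mu n m)
  rw [LinearMap.range_eq_top.2 (mu_surjective m), finrank_top, finrank_homog] at h1
  rw [add_comm, h1, Module.finrank_pi_fintype]
  simp [finrank_homog]

/-- the sum map on `(m+1)`-tuples -/
noncomputable def sz (K : Type) [AddCommGroup K] [Module ℂ K] (m : ℕ) :
    (Fin (m + 1) → K) →ₗ[ℂ] K where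
  toFun x := ∑ k, x k
  map_add' x y := by simp [sum_add_distrib]
  map_smul' c x := by simp [smul_sum]

theorem sz_apply (K : Type) [AddCommGroup K] [Module ℂ K] (m : ℕ) (x : Fin (m + 1) → K) :
    sz K m x = ∑ k, x k := rfl

theorem sz_surjective (K : Type) [AddCommGroup K] [Module ℂ K] (m : ℕ) :
    Function.Surjective (sz K m) := by
  intro y
  refine ⟨Pi.single 0 y, ?_⟩
  rw [sz_apply, Finset.sum_pi_single']
  simp

theorem finrank_ker_sz (K : Type) [AddCommGroup K] [Module ℂ K] [FiniteDimensional ℂ K] (m : ℕ) :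
    finrank ℂ (LinearMap.ker (sz K m)) = m * finrank ℂ K := by
  have h1 := LinearMap.finrank_range_add_finrank_ker (sz K m)
  rw [LinearMap.range_eq_top.2 (sz_surjective K m), finrank_top, Module.finrank_pi_fintype] at h1
  simp only [sum_const, card_univ, Fintype.card_fin, smul_eq_mul] at h1
  have : (m + 1) * finrank ℂ K = finrank ℂ K + m * finrank ℂ K := by ring
  omega

/-- the model space, for abstract `F` and `K` -/
def YY (F K : Type) [AddCommGroup F] [Module ℂ F] [AddCommGroup K] [Module ℂ K] (m : ℕ) : Type :=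
  F × LinearMap.ker (sz K m)

section YY

variable (F K : Type) [AddCommGroup F] [Module ℂ F] [AddCommGroup K] [Module ℂ K] (m : ℕ)

noncomputable instance : AddCommGroup (YY F K m) :=
  inferInstanceAs (AddCommGroup (F × LinearMap.ker (sz K m)))

noncomputable instance : Module ℂ (YY F K m) :=
  inferInstanceAs (Module ℂ (F × LinearMap.ker (sz K m)))

instance [FiniteDimensional ℂ F] [FiniteDimensional ℂ K] : FiniteDimensional ℂ (YY F K m) :=
  inferInstanceAs (FiniteDimensional ℂ (F × LinearMap.ker (sz K m)))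

theorem finrank_YY [FiniteDimensional ℂ F] [FiniteDimensional ℂ K] :
    finrank ℂ (YY F K m) = finrank ℂ F + m * finrank ℂ K := by
  have : finrank ℂ (YY F K m) = finrank ℂ (F × LinearMap.ker (sz K m)) := rfl
  rw [this, Module.finrank_prod, finrank_ker_sz]

end YY

/-- the model space -/
abbrev Y (n m : ℕ) : Type := YY (H n (m + 1)) (LinearMap.ker (mu n m)) m

theorem finrank_Y (n m : ℕ) :
    finrank ℂ (Y n m) + m * (n + (m + 1)).choose n =
      (n + (m + 1)).choose n + m * ((n + 1) * (n + m).choose n) := by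
  rw [finrank_YY, finrank_homog, ← finrank_ker_mu]
  ring

end Pool.Agent.R840.EC
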