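import Pool.Agent.R840.EC.Reps
import Pool.Agent.R840.EC.Dims

set_option autoImplicit false

namespace Pool.Agent.R840.EC

open Finset MvPolynomial Filter Topology

variable {n d : ℕ}

/-- the base tensor -/
noncomputable def T0 (n d : ℕ) : Ten n d := diag n d (alp n d)

/-- the contraction as a continuous linear map in the tensor -/
noncomputable def ctrL (k : Fin d) (v : Fin (n + 1) → ℂ) (j : Fin (n + 1)) :
    Ten n d →L[ℂ] ℂ :=
  ∑ I : Fin d → Fin (n + 1), if I k = j then
    (∏ m ∈ univ.erase k, v (I m)) • ContinuousLinearMap.proj (R := ℂ) I else 0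

theorem ctrL_apply (k : Fin d) (v : Fin (n + 1) → ℂ) (j : Fin (n + 1)) (T : Ten n d) :
    ctrL k v j T = contract T k v j := by
  unfold ctrL contract
  rw [_root_.sum_apply]
  refine sum_congr rfl fun I _ => ?_
  split_ifs
  · simp [mul_comm]
  · simp

/-- the product of coordinates -/
def PI (k : Fin d) (I : Fin d → Fin (n + 1)) (v : Fin (n + 1) → ℂ) : ℂ :=
  ∏ m ∈ univ.erase k, v (I m)

theorem PI_strict (k : Fin d) (I : Fin d → Fin (n + 1)) (r : Fin (n + 1) → ℂ) :
    HasStrictFDerivAt (PI k I) (fderiv ℂ (PI k I) r) r := by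
  have h : ContDiff ℂ 1 (PI (n := n) k I) := by
    unfold PI
    exact contDiff_prod fun m _ => contDiff_apply ℂ ℂ (I m)
  exact h.contDiffAt.hasStrictFDerivAt (by simp)

theorem base_deriv (k : Fin d) (r : Fin (n + 1) → ℂ) (j : Fin (n + 1)) :
    (∑ I : Fin d → Fin (n + 1), if I k = j then T0 n d I • fderiv ℂ (PI k I) r else 0) =
      (alp n d j * ((d - 1 : ℕ) * r j ^ (d - 1 - 1))) •
        (ContinuousLinearMap.proj (R := ℂ) (φ := fun _ : Fin (n + 1) => ℂ) j) := by
  have h1 : HasFDerivAt (fun v : Fin (n + 1) → ℂ => contract (T0 n d) k v j)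
      (∑ I : Fin d → Fin (n + 1), if I k = j then T0 n d I • fderiv ℂ (PI k I) r else 0) r := by
    unfold contract
    have : (fun v : Fin (n + 1) → ℂ => ∑ I : Fin d → Fin (n + 1), if I k = j then
        T0 n d I * ∏ m ∈ univ.erase k, v (I m) else 0) =
        fun v => ∑ I : Fin d → Fin (n + 1), (fun v => if I k = j then T0 n d I * PI k I v else 0) v :=
      rfl
    rw [this]
    apply HasFDerivAt.fun_sum
    intro I _
    split_ifs
    · exact (PI_strict k I r).hasFDerivAt.const_mul (T0 n d I)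
    · exact hasFDerivAt_const 0 r
  have h2 : HasFDerivAt (fun v : Fin (n + 1) → ℂ => contract (T0 n d) k v j)
      ((alp n d j * ((d - 1 : ℕ) * r j ^ (d - 1 - 1))) •
        (ContinuousLinearMap.proj (R := ℂ) (φ := fun _ : Fin (n + 1) => ℂ) j)) r := by
    have h3 : (fun v : Fin (n + 1) → ℂ => contract (T0 n d) k v j) =
        fun v => alp n d j * v j ^ (d - 1) := by
      funext v
      exact contract_diag (alp n d) k v j
    rw [h3]
    have h4 : HasFDerivAt (fun v : Fin (n + 1) → ℂ => v j)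
        (ContinuousLinearMap.proj (R := ℂ) (φ := fun _ : Fin (n + 1) => ℂ) j) r :=
      hasFDerivAt_apply j r
    have h5 := (h4.pow (d - 1)).const_mul (alp n d j)
    rw [smul_smul, nsmul_eq_mul] at h5
    exact h5
  exact h1.unique h2

/-- the system whose zeros are the normalised eigenvectors -/
def Fk (k : Fin d) (x : Ten n d × (Fin (n + 1) → ℂ)) : Fin (n + 1) → ℂ :=
  fun j => contract x.1 k x.2 j - x.2 j

/-- diagonal coefficients of the derivative -/
noncomputable def cc (hd : 3 ≤ d) (i : Fin (numEig n d)) (j : Fin (n + 1)) : ℂ :=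
  alp n d j * ((d - 1 : ℕ) * pt hd i j ^ (d - 1 - 1)) - 1

theorem cc_ne_zero (hd : 3 ≤ d) (i : Fin (numEig n d)) (j : Fin (n + 1)) : cc hd i j ≠ 0 := by
  unfold cc
  have h := pt_eq hd i j
  by_cases h0 : pt hd i j = 0
  · rw [h0, zero_pow (by omega)]
    simp
  · have h1 : alp n d j * pt hd i j ^ (d - 1 - 1) = 1 := by
      have h2 : alp n d j * pt hd i j ^ (d - 1 - 1) * pt hd i j = 1 * pt hd i j := by
        rw [mul_assoc, ← pow_succ, show d - 1 - 1 + 1 = d - 1 by omega, h, one_mul]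
      exact mul_right_cancel₀ h0 h2
    have h3 : alp n d j * ((d - 1 : ℕ) * pt hd i j ^ (d - 1 - 1)) - 1 = ((d - 2 : ℕ) : ℂ) := by
      have h4 : ((d - 1 : ℕ) : ℂ) = ((d - 2 : ℕ) : ℂ) + 1 := by
        have : d - 1 = (d - 2) + 1 := by omega
        exact_mod_cast congrArg (Nat.cast : ℕ → ℂ) this
      rw [h4]
      linear_combination (((d - 2 : ℕ) : ℂ) + 1) * h1
    rw [h3]
    exact_mod_cast (by omega : d - 2 ≠ 0)

/-- the derivative of the system -/
noncomputable def Fk' (hd : 3 ≤ d) (k : Fin d) (i : Fin (numEig n d)) :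
    Ten n d × (Fin (n + 1) → ℂ) →L[ℂ] (Fin (n + 1) → ℂ) :=
  ContinuousLinearMap.pi fun j =>
    cc hd i j • ((ContinuousLinearMap.proj (R := ℂ) (φ := fun _ : Fin (n + 1) => ℂ) j).comp
      (ContinuousLinearMap.snd ℂ (Ten n d) (Fin (n + 1) → ℂ))) +
    (ctrL k (pt hd i) j).comp (ContinuousLinearMap.fst ℂ (Ten n d) (Fin (n + 1) → ℂ))

theorem Fk'_apply (hd : 3 ≤ d) (k : Fin d) (i : Fin (numEig n d))
    (x : Ten n d × (Fin (n + 1) → ℂ)) (j : Fin (n + 1)) :
    Fk' hd k i x j = cc hd i j * x.2 j + contract x.1 k (pt hd i) j := by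
  unfold Fk'
  rw [ContinuousLinearMap.coe_pi']
  simp [ctrL_apply]

theorem Fk_strict (hd : 3 ≤ d) (k : Fin d) (i : Fin (numEig n d)) :
    HasStrictFDerivAt (Fk k) (Fk' hd k i) (T0 n d, pt hd i) := by
  rw [hasStrictFDerivAt_pi']
  intro j
  set x0 : Ten n d × (Fin (n + 1) → ℂ) := (T0 n d, pt hd i) with hx0
  have hI : ∀ I : Fin d → Fin (n + 1),
      HasStrictFDerivAt (fun x : Ten n d × (Fin (n + 1) → ℂ) =>
        if I k = j then x.1 I * PI k I x.2 else 0)
      (if I k = j then (T0 n d I) • ((fderiv ℂ (PI k I) (pt hd i)).comp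
          (ContinuousLinearMap.snd ℂ (Ten n d) (Fin (n + 1) → ℂ))) +
          (PI k I (pt hd i)) • ((ContinuousLinearMap.proj (R := ℂ) I).comp
            (ContinuousLinearMap.fst ℂ (Ten n d) (Fin (n + 1) → ℂ))) else 0) x0 := by
    intro I
    split_ifs
    · have h1 : HasStrictFDerivAt (fun x : Ten n d × (Fin (n + 1) → ℂ) => x.1 I)
          ((ContinuousLinearMap.proj (R := ℂ) I).comp
            (ContinuousLinearMap.fst ℂ (Ten n d) (Fin (n + 1) → ℂ))) x0 :=
        ((ContinuousLinearMap.proj (R := ℂ) I).comp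
            (ContinuousLinearMap.fst ℂ (Ten n d) (Fin (n + 1) → ℂ))).hasStrictFDerivAt
      have h2 : HasStrictFDerivAt (fun x : Ten n d × (Fin (n + 1) → ℂ) => PI k I x.2)
          ((fderiv ℂ (PI k I) (pt hd i)).comp
            (ContinuousLinearMap.snd ℂ (Ten n d) (Fin (n + 1) → ℂ))) x0 :=
        HasStrictFDerivAt.comp x0 (PI_strict k I (pt hd i)) hasStrictFDerivAt_snd
      exact h1.mul h2
    · exact hasStrictFDerivAt_const 0 x0
  have hsum := HasStrictFDerivAt.fun_sum (u := univ) (fun I _ => hI I)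
  have hproj : HasStrictFDerivAt (fun x : Ten n d × (Fin (n + 1) → ℂ) => x.2 j)
      ((ContinuousLinearMap.proj (R := ℂ) (φ := fun _ : Fin (n + 1) => ℂ) j).comp
        (ContinuousLinearMap.snd ℂ (Ten n d) (Fin (n + 1) → ℂ))) x0 :=
    ((ContinuousLinearMap.proj (R := ℂ) (φ := fun _ : Fin (n + 1) => ℂ) j).comp
        (ContinuousLinearMap.snd ℂ (Ten n d) (Fin (n + 1) → ℂ))).hasStrictFDerivAt
  have htot := hsum.sub hproj
  refine htot.congr_fderiv ?_
  refine ContinuousLinearMap.ext fun x => ?_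
  rw [_root_.sub_apply, _root_.sum_apply]
  have hb := congrArg (fun L : (Fin (n + 1) → ℂ) →L[ℂ] ℂ => L x.2) (base_deriv k (pt hd i) j)
  simp only [_root_.sum_apply] at hb
  have h1 : ∀ I : Fin d → Fin (n + 1),
      (if I k = j then (T0 n d I) • ((fderiv ℂ (PI k I) (pt hd i)).comp
          (ContinuousLinearMap.snd ℂ (Ten n d) (Fin (n + 1) → ℂ))) +
          (PI k I (pt hd i)) • ((ContinuousLinearMap.proj (R := ℂ) I).comp
            (ContinuousLinearMap.fst ℂ (Ten n d) (Fin (n + 1) → ℂ))) else 0) x =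
      (if I k = j then T0 n d I • fderiv ℂ (PI k I) (pt hd i) else 0) x.2 +
        (if I k = j then x.1 I * ∏ m ∈ univ.erase k, pt hd i (I m) else 0) := by
    intro I
    split_ifs
    · simp [PI, mul_comm]
    · simp
  simp_rw [h1]
  rw [sum_add_distrib, hb]
  have e2 : ((ContinuousLinearMap.proj (R := ℂ) (φ := fun _ : Fin (n + 1) => ℂ) j).comp
      (Fk' hd k i)) x = Fk' hd k i x j := rfl
  rw [e2, Fk'_apply]
  unfold cc contract
  simp only [_root_.smul_apply, ContinuousLinearMap.proj_apply, ContinuousLinearMap.coe_snd',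
    smul_eq_mul, ContinuousLinearMap.comp_apply]
  ring

theorem Fk'_inv (hd : 3 ≤ d) (k : Fin d) (i : Fin (numEig n d)) :
    (Fk' hd k i ∘L .inr ℂ (Ten n d) (Fin (n + 1) → ℂ)).IsInvertible := by
  refine ⟨(LinearEquiv.piCongrRight fun j =>
    LinearEquiv.smulOfNeZero ℂ ℂ (cc hd i j) (cc_ne_zero hd i j)).toContinuousLinearEquiv, ?_⟩
  refine ContinuousLinearMap.ext fun v => funext fun j => ?_
  have e2 : (Fk' hd k i ∘L .inr ℂ (Ten n d) (Fin (n + 1) → ℂ)) v j = Fk' hd k i (0, v) j := rfl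
  rw [e2, Fk'_apply]
  have h0 : contract (0 : Ten n d) k (pt hd i) j = 0 := by
    rw [← ctrL_apply, map_zero]
  show cc hd i j • v j = cc hd i j * v j + contract (0 : Ten n d) k (pt hd i) j
  rw [h0, smul_eq_mul, add_zero]

/-- the eigenvectors move smoothly with the tensor -/
theorem exists_branch (hd : 3 ≤ d) (k : Fin d) (i : Fin (numEig n d)) :
    ∃ (u : Ten n d → Fin (n + 1) → ℂ) (U' : Ten n d →L[ℂ] (Fin (n + 1) → ℂ)),
      u (T0 n d) = pt hd i ∧ HasStrictFDerivAt u U' (T0 n d) ∧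
      (∀ᶠ T in 𝓝 (T0 n d), ∀ j, contract T k (u T) j = u T j) ∧
      ∀ δ j, cc hd i j * U' δ j + contract δ k (pt hd i) j = 0 := by
  have hs := Fk_strict hd k i
  have hi := Fk'_inv hd k i
  set u := hs.implicitFunctionOfProdDomain hi with hu
  have hF0 : Fk k (T0 n d, pt hd i) = 0 := by
    funext j
    show contract (T0 n d) k (pt hd i) j - pt hd i j = 0
    unfold T0
    rw [contract_diag, pt_eq hd i j, sub_self]
  have h1 : u (T0 n d) = pt hd i :=
    (hs.eventually_apply_eq_iff_implicitFunctionOfProdDomain hi).self_of_nhds.1 rfl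
  have h2 : ∀ᶠ T in 𝓝 (T0 n d), Fk k (T, u T) = 0 := by
    have := hs.eventually_apply_implicitFunctionOfProdDomain hi
    rw [hF0] at this
    exact this
  have h3 := hs.hasStrictFDerivAt_implicitFunctionOfProdDomain hi
  rw [← hu] at h3
  refine ⟨u, _, h1, h3, ?_, ?_⟩
  · filter_upwards [h2] with T hT j
    have := congrFun hT j
    exact sub_eq_zero.1 this
  · intro δ j
    set U' := (-(Fk' hd k i ∘L .inr ℂ (Ten n d) (Fin (n + 1) → ℂ)).inverse ∘L
      (Fk' hd k i ∘L .inl ℂ (Ten n d) (Fin (n + 1) → ℂ))) with hU'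
    have h4 : HasFDerivAt (fun T => Fk k (T, u T))
        ((Fk' hd k i).comp ((ContinuousLinearMap.id ℂ (Ten n d)).prod U')) (T0 n d) := by
      have h5 : HasFDerivAt (fun T : Ten n d => (T, u T))
          ((ContinuousLinearMap.id ℂ (Ten n d)).prod U') (T0 n d) :=
        (hasFDerivAt_id (T0 n d)).prodMk h3.hasFDerivAt
      have h6 : HasFDerivAt (Fk k) (Fk' hd k i) (T0 n d, u (T0 n d)) := by
        rw [h1]
        exact hs.hasFDerivAt
      exact HasFDerivAt.comp (T0 n d) h6 h5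
    have h5 : HasFDerivAt (fun T => Fk k (T, u T)) (0 : Ten n d →L[ℂ] (Fin (n + 1) → ℂ)) (T0 n d) :=
      (hasFDerivAt_const (0 : Fin (n + 1) → ℂ) (T0 n d)).congr_of_eventuallyEq h2
    have h6 := h4.unique h5
    have h7 := congrFun (congrArg (fun L : Ten n d →L[ℂ] (Fin (n + 1) → ℂ) => L δ) h6) j
    have h8 : ((Fk' hd k i).comp ((ContinuousLinearMap.id ℂ (Ten n d)).prod U')) δ j =
        Fk' hd k i (δ, U' δ) j := rfl
    rw [h8, Fk'_apply] at h7
    exact h7

end Pool.Agent.R840.EC
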