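import Pool.Agent.R840.EC.Lower

set_option autoImplicit false

namespace Pool.Agent.R840.EC

open Finset MvPolynomial Module

section generic

variable {R S : Type*} [CommRing R] [CommRing S] {n d : ℕ}

theorem map_pc (φ : R →+* S) (T : (Fin d → Fin (n + 1)) → R) (k : Fin d) (j : Fin (n + 1)) :
    MvPolynomial.map φ (pc T k j) = pc (fun I => φ (T I)) k j := by
  unfold pc
  rw [map_contract]
  simp

/-- the minors -/
noncomputable def mn (T : (Fin d → Fin (n + 1)) → R) (k : Fin d) (i j : Fin (n + 1)) :
    MvPolynomial (Fin (n + 1)) R :=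
  X i * pc T k j - X j * pc T k i

theorem map_mn (φ : R →+* S) (T : (Fin d → Fin (n + 1)) → R) (k : Fin d) (i j : Fin (n + 1)) :
    MvPolynomial.map φ (mn T k i j) = mn (fun I => φ (T I)) k i j := by
  unfold mn
  rw [map_sub, map_mul, map_mul, map_pc, map_pc, map_X, map_X]

theorem mn_homogeneous (hd : 1 ≤ d) (T : (Fin d → Fin (n + 1)) → R) (k : Fin d)
    (i j : Fin (n + 1)) : (mn T k i j).IsHomogeneous d := by
  unfold mn
  have h1 := (isHomogeneous_X R i).mul (pc_homogeneous T k j)
  have h2 := (isHomogeneous_X R j).mul (pc_homogeneous T k i)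
  rw [show 1 + (d - 1) = d by omega] at h1 h2
  exact h1.sub h2

theorem eval_mn (T : (Fin d → Fin (n + 1)) → R) (k : Fin d) (i j : Fin (n + 1))
    (p : Fin (n + 1) → R) :
    eval p (mn T k i j) = p i * contract T k p j - p j * contract T k p i := by
  unfold mn
  rw [map_sub, map_mul, map_mul, eval_pc, eval_pc, eval_X, eval_X]

theorem evalR_homog {m : ℕ} {P : MvPolynomial (Fin (n + 1)) R} (hP : P.IsHomogeneous m)
    (y : Fin (n + 1) → R) :
    eval y P = ∑ a : {a : Fin (n + 1) →₀ ℕ // a.degree = m}, coeff a.1 P * ∏ j, y j ^ a.1 j := by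
  rw [eval_eq']
  have h1 : ∀ a ∈ P.support, a.degree = m := by
    intro a ha
    have h3 := hP (mem_support_iff.1 ha)
    have e : a.degree = Finsupp.weight (1 : Fin (n + 1) → ℕ) a := by
      rw [Finsupp.degree_eq_weight_one]
      rfl
    rw [e]
    exact h3
  have h2 : ∑ a : {a : Fin (n + 1) →₀ ℕ // a.degree = m}, coeff a.1 P * ∏ j, y j ^ a.1 j =
      ∑ a ∈ (univ : Finset (Fin (n + 1))).finsuppAntidiag m, coeff a P * ∏ j, y j ^ a j := by
    apply Finset.sum_bij (fun (a : {a : Fin (n + 1) →₀ ℕ // a.degree = m}) _ => a.1)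
    · intro a _
      rw [Finset.mem_finsuppAntidiag]
      refine ⟨?_, fun _ _ => mem_univ _⟩
      rw [← Finsupp.degree_eq_sum]
      exact a.2
    · intro a _ b _ h
      exact Subtype.ext h
    · intro a ha
      rw [Finset.mem_finsuppAntidiag] at ha
      refine ⟨⟨a, ?_⟩, mem_univ _, rfl⟩
      rw [Finsupp.degree_eq_sum]
      exact ha.1
    · intro a _
      rfl
  rw [h2]
  apply sum_subset
  · intro a ha
    rw [Finset.mem_finsuppAntidiag]
    refine ⟨?_, fun _ _ => mem_univ _⟩
    rw [← Finsupp.degree_eq_sum]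
    exact h1 a ha
  · intro a _ ha
    rw [notMem_support_iff.1 ha, zero_mul]

theorem comp_mul {σ : Type*} (m e : ℕ) (A Q : MvPolynomial σ R) (hQ : Q.IsHomogeneous e) :
    homogeneousComponent (m + e) (A * Q) = homogeneousComponent m A * Q := by
  have h0 : A * Q = ∑ i ∈ range (A.totalDegree + 1), homogeneousComponent i A * Q := by
    rw [← sum_mul, sum_homogeneousComponent]
  have h1 : ∀ i, homogeneousComponent (m + e) (homogeneousComponent i A * Q) =
      if m = i then homogeneousComponent i A * Q else 0 := by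
    intro i
    rw [homogeneousComponent_of_mem ((homogeneousComponent_isHomogeneous i A).mul hQ)]
    by_cases h : m = i
    · rw [if_pos h, if_pos (by rw [h])]
    · rw [if_neg h, if_neg (by omega)]
  rw [h0, map_sum]
  simp_rw [h1]
  rw [sum_ite_eq]
  split_ifs with h
  · rfl
  · rw [mem_range] at h
    rw [homogeneousComponent_eq_zero _ _ (by omega), zero_mul]

end generic

variable {n d : ℕ}

/-- a certificate: wherever `g` does not vanish, the eigenpoints avoid the hyperplane `l` and
are integral over the field of coefficients -/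
def Cert (k : Fin d) (l : Fin (n + 1) → ℂ) (g : MvPolynomial (Fin d → Fin (n + 1)) ℂ) : Prop :=
  ∀ (F K : Type) [Field F] [Field K] [Algebra ℂ F] [Algebra F K] [Algebra ℂ K]
    [IsScalarTower ℂ F K] (T : (Fin d → Fin (n + 1)) → F) (p : Fin (n + 1) → K),
    aeval T g ≠ 0 → p ≠ 0 →
    (∀ i j, p i * contract (fun I => algebraMap F K (T I)) k p j =
      p j * contract (fun I => algebraMap F K (T I)) k p i) →
    (∑ j, algebraMap ℂ K (l j) * p j) ≠ 0 ∧
      ∀ j, IsIntegral F (p j / ∑ i, algebraMap ℂ K (l i) * p i)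

theorem Cert.mul {k : Fin d} {l : Fin (n + 1) → ℂ} {g : MvPolynomial (Fin d → Fin (n + 1)) ℂ}
    (h : Cert k l g) (g' : MvPolynomial (Fin d → Fin (n + 1)) ℂ) : Cert k l (g * g') := by
  intro F K _ _ _ _ _ _ T p hg hp hmin
  refine h F K T p ?_ hp hmin
  intro h0
  apply hg
  rw [map_mul, h0, zero_mul]

theorem nss (hd : 3 ≤ d) (T0 : Ten n d) (k : Fin d) (l : Fin (n + 1) → ℂ)
    (h : ∀ v : Fin (n + 1) → ℂ, (∀ i j, v i * contract T0 k v j = v j * contract T0 k v i) →
      ∑ j, l j * v j = 0 → v = 0) :
    ∃ m : ℕ, ∀ a : Fin (n + 1) →₀ ℕ, a.degree = m + d →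
      ∃ (A : Fin (n + 1) → Fin (n + 1) → MvPolynomial (Fin (n + 1)) ℂ)
        (B : MvPolynomial (Fin (n + 1)) ℂ), (∀ i j, (A i j).IsHomogeneous m) ∧
        B.IsHomogeneous (m + d - 1) ∧
        monomial a 1 = ∑ i, ∑ j, A i j * mn T0 k i j + B * lin l := by
  set v : Option (Fin (n + 1) × Fin (n + 1)) → MvPolynomial (Fin (n + 1)) ℂ := fun o =>
    match o with
    | none => lin l
    | some x => mn T0 k x.1 x.2 with hv
  set J := Ideal.span (Set.range v) with hJ
  have hX : ∀ i, (X i : MvPolynomial (Fin (n + 1)) ℂ) ∈ J.radical := by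
    intro i
    rw [← vanishingIdeal_zeroLocus_eq_radical (K := ℂ)]
    intro w hw
    have hw0 : w = 0 := by
      apply h w
      · intro i j
        have h1 := hw (v (some (i, j))) (Ideal.subset_span ⟨some (i, j), rfl⟩)
        have h2 : eval w (mn T0 k i j) = 0 := h1
        rw [eval_mn] at h2
        exact sub_eq_zero.1 h2
      · have h1 := hw (v none) (Ideal.subset_span ⟨none, rfl⟩)
        have h2 : eval w (lin l) = 0 := h1
        rwa [eval_lin] at h2
    rw [aeval_X, hw0]
    rfl
  obtain ⟨m, hm⟩ := J.exists_radical_pow_le_of_fg (IsNoetherian.noetherian _)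
  refine ⟨m, fun a ha => ?_⟩
  have hmem : (monomial a 1 : MvPolynomial (Fin (n + 1)) ℂ) ∈ J := by
    apply hm
    apply Ideal.pow_le_pow_right (show m ≤ m + d by omega)
    have h1 : (monomial a 1 : MvPolynomial (Fin (n + 1)) ℂ) = ∏ i, X i ^ a i := by
      rw [monomial_eq, C_1, one_mul, Finsupp.prod_fintype]
      intro i
      rw [pow_zero]
    rw [h1]
    have h2 : ∏ i, (X i : MvPolynomial (Fin (n + 1)) ℂ) ^ a i ∈ ∏ i, J.radical ^ a i :=
      Ideal.prod_mem_prod fun i _ => Ideal.pow_mem_pow (hX i) (a i)
    rw [prod_pow_eq_pow_sum, ← Finsupp.degree_eq_sum, ha] at h2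
    exact h2
  obtain ⟨c, hc⟩ := Ideal.mem_span_range_iff_exists_fun.1 hmem
  rw [Fintype.sum_option, Fintype.sum_prod_type] at hc
  refine ⟨fun i j => homogeneousComponent m (c (some (i, j))),
    homogeneousComponent (m + d - 1) (c none),
    fun i j => homogeneousComponent_isHomogeneous _ _, homogeneousComponent_isHomogeneous _ _, ?_⟩
  have hmon : (monomial a 1 : MvPolynomial (Fin (n + 1)) ℂ).IsHomogeneous (m + d) :=
    isHomogeneous_monomial 1 ha
  have hlin : (lin l).IsHomogeneous 1 := by
    unfold lin
    refine IsHomogeneous.sum _ _ _ fun j _ => ?_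
    have := (isHomogeneous_C (Fin (n + 1)) (l j)).mul (isHomogeneous_X ℂ j)
    simpa using this
  rw [← homogeneousComponent_eq_self hmon, ← hc, map_add, map_sum,
    add_comm (homogeneousComponent (m + d) (c none * v none))]
  congr 1
  · refine sum_congr rfl fun i _ => ?_
    rw [map_sum]
    refine sum_congr rfl fun j _ => ?_
    exact comp_mul m d _ _ (mn_homogeneous (by omega) T0 k i j)
  · have h1 := comp_mul (m + d - 1) 1 (c none) (lin l) hlin
    rw [show m + d - 1 + 1 = m + d by omega] at h1
    exact h1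

theorem exists_cert (hd : 3 ≤ d) (T0 : Ten n d) (k : Fin d) (l : Fin (n + 1) → ℂ)
    (h : ∀ v : Fin (n + 1) → ℂ, (∀ i j, v i * contract T0 k v j = v j * contract T0 k v i) →
      ∑ j, l j * v j = 0 → v = 0) :
    ∃ g : MvPolynomial (Fin d → Fin (n + 1)) ℂ, eval T0 g ≠ 0 ∧ Cert k l g := by
  classical
  obtain ⟨m, hm⟩ := nss hd T0 k l h
  choose A B hA hB hAB using hm
  set ιM : Type := {a : Fin (n + 1) →₀ ℕ // a.degree = m + d} with hιM
  set G : ιM → MvPolynomial (Fin (n + 1)) (MvPolynomial (Fin d → Fin (n + 1)) ℂ) := fun a =>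
    ∑ i, ∑ j, MvPolynomial.map C (A a.1 a.2 i j) * mn X k i j +
      MvPolynomial.map C (B a.1 a.2) * MvPolynomial.map C (lin l) with hG
  have hlin : (lin l).IsHomogeneous 1 := by
    unfold lin
    refine IsHomogeneous.sum _ _ _ fun j _ => ?_
    have := (isHomogeneous_C (Fin (n + 1)) (l j)).mul (isHomogeneous_X ℂ j)
    simpa using this
  have hGh : ∀ a, (G a).IsHomogeneous (m + d) := by
    intro a
    refine IsHomogeneous.add ?_ ?_
    · refine IsHomogeneous.sum _ _ _ fun i _ => IsHomogeneous.sum _ _ _ fun j _ => ?_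
      exact ((hA a.1 a.2 i j).map C).mul (mn_homogeneous (by omega) X k i j)
    · have := ((hB a.1 a.2).map (C : ℂ →+* MvPolynomial (Fin d → Fin (n + 1)) ℂ)).mul
        (hlin.map (C : ℂ →+* MvPolynomial (Fin d → Fin (n + 1)) ℂ))
      rwa [show m + d - 1 + 1 = m + d by omega] at this
  set N : Matrix ιM ιM (MvPolynomial (Fin d → Fin (n + 1)) ℂ) := fun a a' => coeff a'.1 (G a) with hN
  refine ⟨N.det, ?_, ?_⟩
  · have h1 : (eval T0 : MvPolynomial (Fin d → Fin (n + 1)) ℂ →+* ℂ).mapMatrix N = 1 := by
      ext a a'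
      rw [RingHom.mapMatrix_apply, Matrix.map_apply, Matrix.one_apply]
      show eval T0 (coeff a'.1 (G a)) = _
      rw [← coeff_map]
      have h2 : MvPolynomial.map (eval T0) (G a) = monomial a.1 1 := by
        rw [hAB a.1 a.2, hG]
        simp only [map_add, map_sum, map_mul, map_mn, MvPolynomial.map_map, eval_X]
        have h3 : (eval T0 : MvPolynomial (Fin d → Fin (n + 1)) ℂ →+* ℂ).comp C =
            RingHom.id ℂ := by
          ext
          simp
        simp only [h3, MvPolynomial.map_id]
      rw [h2, coeff_monomial]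
      by_cases haa : a = a'
      · rw [if_pos haa, if_pos (congrArg Subtype.val haa)]
      · rw [if_neg haa, if_neg (fun h => haa (Subtype.ext h))]
    rw [RingHom.map_det, h1, Matrix.det_one]
    exact one_ne_zero
  · intro F K _ _ _ _ _ _ T p hg hp hmin
    set ψ : MvPolynomial (Fin d → Fin (n + 1)) ℂ →+* K :=
      (algebraMap F K).comp (aeval T : MvPolynomial (Fin d → Fin (n + 1)) ℂ →ₐ[ℂ] F).toRingHom with hψ
    have hψX : ∀ I, ψ (X I) = algebraMap F K (T I) := by
      intro I
      show algebraMap F K (aeval T (X I)) = _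
      rw [aeval_X]
    have hψC : ψ.comp C = algebraMap ℂ K := by
      ext c
      show algebraMap F K (aeval T (C c)) = _
      rw [← algebraMap_eq, AlgHom.commutes, ← IsScalarTower.algebraMap_apply]
    set NK : Matrix ιM ιM K := ψ.mapMatrix N with hNK
    have hdetK : NK.det ≠ 0 := by
      rw [hNK, ← RingHom.map_det]
      show algebraMap F K (aeval T N.det) ≠ 0
      exact (map_ne_zero _).2 hg
    -- the key identity
    have key : ∀ q : Fin (n + 1) → K,
        (∀ i j, q i * contract (fun I => algebraMap F K (T I)) k q j =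
          q j * contract (fun I => algebraMap F K (T I)) k q i) →
        ∀ a : ιM, ∑ a' : ιM, NK a a' * ∏ j, q j ^ a'.1 j =
          aeval q (B a.1 a.2) * ∑ j, algebraMap ℂ K (l j) * q j := by
      intro q hq a
      have h1 : eval q (MvPolynomial.map ψ (G a)) = ∑ a' : ιM, NK a a' * ∏ j, q j ^ a'.1 j := by
        rw [evalR_homog ((hGh a).map ψ)]
        refine sum_congr rfl fun a' _ => ?_
        rw [coeff_map]
        rfl
      rw [← h1, hG]
      simp only [map_add, map_sum, map_mul, map_mn, MvPolynomial.map_map, hψX, hψC]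
      have h2 : ∀ i j, eval q (mn (fun I => algebraMap F K (T I)) k i j) = 0 := by
        intro i j
        rw [eval_mn, hq i j, sub_self]
      simp only [h2, mul_zero, sum_const_zero, zero_add]
      congr 1
      · rw [eval_map, aeval_def]
      · rw [eval_map]
        unfold lin
        rw [eval₂_sum]
        refine sum_congr rfl fun j _ => ?_
        rw [eval₂_mul, eval₂_C, eval₂_X]
    have hw : (∑ j, algebraMap ℂ K (l j) * p j) ≠ 0 := by
      intro h0
      apply hp
      have h1 : NK.mulVec (fun a' => ∏ j, p j ^ a'.1 j) = 0 := by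
        funext a
        have h2 := key p hmin a
        rw [h0, mul_zero] at h2
        exact h2
      have h2 := Matrix.eq_zero_of_mulVec_eq_zero hdetK h1
      funext j
      have h3 := congrFun h2 ⟨Finsupp.single j (m + d), by rw [Finsupp.degree_single]⟩
      simp only [Pi.zero_apply] at h3
      rw [prod_eq_single j] at h3
      · rw [Finsupp.single_eq_same] at h3
        exact (pow_eq_zero_iff (by omega)).1 h3
      · intro i _ hi
        rw [Finsupp.single_eq_of_ne hi, pow_zero]
      · intro h
        exact absurd (mem_univ _) h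
    refine ⟨hw, ?_⟩
    set w := ∑ j, algebraMap ℂ K (l j) * p j with hwdef
    set q : Fin (n + 1) → K := fun j => w⁻¹ * p j with hq
    have hqmin : ∀ i j, q i * contract (fun I => algebraMap F K (T I)) k q j =
        q j * contract (fun I => algebraMap F K (T I)) k q i := by
      intro i j
      rw [hq]
      simp only [contract_smul_vec]
      linear_combination w⁻¹ * w⁻¹ ^ (d - 1) * hmin i j
    have hql : ∑ j, algebraMap ℂ K (l j) * q j = 1 := by
      have h1 : ∑ j, algebraMap ℂ K (l j) * q j = w⁻¹ * w := by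
        rw [hwdef, mul_sum]
        refine sum_congr rfl fun j _ => ?_
        rw [hq]
        simp only
        rw [← hwdef]
        ring
      rw [h1, inv_mul_cancel₀ hw]
    set V : Submodule F K := Submodule.span F (Set.range
      fun b : {b : Fin (n + 1) →₀ ℕ // b.degree = m + d - 1} => ∏ j, q j ^ b.1 j) with hV
    have hVsmul : ∀ (c : F) (x : K), x ∈ V → algebraMap F K c * x ∈ V := by
      intro c x hx
      rw [← Algebra.smul_def]
      exact V.smul_mem c hx
    have hV1 : ∀ P : MvPolynomial (Fin (n + 1)) ℂ, P.IsHomogeneous (m + d - 1) →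
        aeval q P ∈ V := by
      intro P hP
      have h1 : aeval q P = eval q (MvPolynomial.map (algebraMap ℂ K) P) := by
        rw [eval_map, aeval_def]
      rw [h1, evalR_homog (hP.map _)]
      refine V.sum_mem fun b _ => ?_
      rw [coeff_map, IsScalarTower.algebraMap_apply ℂ F K]
      exact hVsmul _ _ (Submodule.subset_span ⟨b, rfl⟩)
    have hV2 : ∀ a' : ιM, ∏ j, q j ^ a'.1 j ∈ V := by
      intro a'
      set NF : Matrix ιM ιM F := (aeval T : MvPolynomial (Fin d → Fin (n + 1)) ℂ →ₐ[ℂ]
        F).toRingHom.mapMatrix N with hNF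
      have hNKF : NK = (algebraMap F K).mapMatrix NF := by
        ext a b
        rfl
      have hdetF : NF.det ≠ 0 := by
        intro h0
        apply hdetK
        rw [hNKF, ← RingHom.map_det, h0, map_zero]
      have h1 : NK.mulVec (fun a' : ιM => ∏ j, q j ^ a'.1 j) = fun a => aeval q (B a.1 a.2) := by
        funext a
        have h2 := key q hqmin a
        rw [hql, mul_one] at h2
        exact h2
      have h2 := congrArg NK.adjugate.mulVec h1
      rw [Matrix.mulVec_mulVec, Matrix.adjugate_mul, Matrix.smul_mulVec, Matrix.one_mulVec] at h2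
      have h3 := congrFun h2 a'
      rw [Pi.smul_apply, smul_eq_mul] at h3
      have h4 : NK.adjugate.mulVec (fun a => aeval q (B a.1 a.2)) a' ∈ V := by
        rw [hNKF, ← RingHom.map_adjugate]
        refine V.sum_mem fun a _ => ?_
        exact hVsmul _ _ (hV1 _ (hB a.1 a.2))
      rw [← h3, hNKF, ← RingHom.map_det] at h4
      have h5 := hVsmul (NF.det)⁻¹ _ h4
      rw [← mul_assoc, ← map_mul, inv_mul_cancel₀ hdetF, map_one, one_mul] at h5
      exact h5
    have hV3 : ∀ (j : Fin (n + 1)) (x : K), x ∈ V → q j * x ∈ V := by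
      intro j x hx
      rw [hV] at hx
      induction hx using Submodule.span_induction with
      | mem x hx =>
        obtain ⟨b, rfl⟩ := hx
        have h1 := hV2 ⟨b.1 + Finsupp.single j 1, by
          rw [map_add, b.2, Finsupp.degree_single]
          omega⟩
        have h2 : ∏ i, q i ^ ((b.1 + Finsupp.single j 1 : Fin (n + 1) →₀ ℕ) i) =
            q j * ∏ i, q i ^ (b.1 i) := by
          have h3 : ∀ i, q i ^ ((b.1 + Finsupp.single j 1 : Fin (n + 1) →₀ ℕ) i) =
              q i ^ (Finsupp.single j 1 i : ℕ) * q i ^ (b.1 i) := by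
            intro i
            rw [Finsupp.add_apply, pow_add, mul_comm]
          simp_rw [h3]
          rw [prod_mul_distrib]
          congr 1
          rw [prod_eq_single j]
          · rw [Finsupp.single_eq_same, pow_one]
          · intro i _ hi
            rw [Finsupp.single_eq_of_ne hi, pow_zero]
          · intro h
            exact absurd (mem_univ _) h
        rw [← h2]
        exact h1
      | zero => rw [mul_zero]; exact V.zero_mem
      | add x y _ _ hx hy => rw [mul_add]; exact V.add_mem hx hy
      | smul c x _ hx => rw [mul_smul_comm]; exact V.smul_mem c hx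
    have hV4 : (1 : K) ∈ V := by
      have h1 := hV1 (lin l ^ (m + d - 1)) (by
        have := hlin.pow (m + d - 1)
        rwa [one_mul] at this)
      rw [map_pow] at h1
      have h2 : aeval q (lin l) = 1 := by
        rw [← hql]
        unfold lin
        rw [map_sum]
        refine sum_congr rfl fun j _ => ?_
        rw [map_mul, aeval_X, ← algebraMap_eq, AlgHom.commutes]
      rw [h2, one_pow] at h1
      exact h1
    intro j
    have h1 : p j / w = q j := by
      rw [hq, div_eq_mul_inv, mul_comm]
    rw [h1]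
    apply isIntegral_of_smul_mem_submodule V
    · intro h0
      rw [h0] at hV4
      exact one_ne_zero ((Submodule.mem_bot F).1 hV4)
    · exact Submodule.fg_span (Set.finite_range _)
    · intro x hx
      exact hV3 j x hx

end Pool.Agent.R840.EC
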