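import Pool.Agent.R840.EC.Fermat

set_option autoImplicit false

namespace Pool.Agent.R840.EC

open Finset MvPolynomial

variable {n d : ℕ}

/-- the diagonal tensor -/
def diag (n d : ℕ) (α : Fin (n + 1) → ℂ) : (Fin d → Fin (n + 1)) → ℂ :=
  fun I => ∑ j, if I = (fun _ => j) then α j else 0

theorem contract_diag (α : Fin (n + 1) → ℂ) (k : Fin d) (v : Fin (n + 1) → ℂ)
    (j : Fin (n + 1)) : contract (diag n d α) k v j = α j * v j ^ (d - 1) := by
  unfold contract
  rw [sum_eq_single (fun _ => j)]
  · rw [if_pos rfl, prod_const, card_erase_of_mem (mem_univ _), card_univ, Fintype.card_fin]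
    congr 1
    unfold diag
    rw [sum_eq_single j]
    · rw [if_pos rfl]
    · intro i _ hi
      rw [if_neg]
      intro h
      exact hi (congrFun h k).symm
    · intro h
      exact absurd (mem_univ _) h
  · intro I _ hI
    split_ifs with h
    · have : diag n d α I = 0 := by
        unfold diag
        refine sum_eq_zero fun i _ => ?_
        rw [if_neg]
        intro h2
        have h3 : i = j := by rw [← h, h2]
        exact hI (by rw [h2, h3])
      rw [this, zero_mul]
    · rfl
  · intro h
    exact absurd (mem_univ _) h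

theorem contract_sub' (T T' : (Fin d → Fin (n + 1)) → ℂ) (k : Fin d) (v : Fin (n + 1) → ℂ)
    (j : Fin (n + 1)) : contract (T - T') k v j = contract T k v j - contract T' k v j := by
  have h := contract_add (T - T') T' k v j
  rw [sub_add_cancel] at h
  rw [h]
  ring

/-- norm bound for a contraction -/
theorem norm_contract_le (T : (Fin d → Fin (n + 1)) → ℂ) {ε : ℝ} (hT : ∀ I, ‖T I‖ ≤ ε)
    (k : Fin d) (v : Fin (n + 1) → ℂ) {M : ℝ} (hv : ∀ i, ‖v i‖ ≤ M) (j : Fin (n + 1)) :
    ‖contract T k v j‖ ≤ (n + 1 : ℝ) ^ d * (ε * M ^ (d - 1)) := by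
  have hM : 0 ≤ M := (norm_nonneg (v 0)).trans (hv 0)
  have hε : 0 ≤ ε := (norm_nonneg (T (fun _ => 0))).trans (hT _)
  unfold contract
  refine (norm_sum_le _ _).trans ?_
  have hterm : ∀ I : Fin d → Fin (n + 1),
      ‖(if I k = j then T I * ∏ m ∈ univ.erase k, v (I m) else 0)‖ ≤ ε * M ^ (d - 1) := by
    intro I
    split_ifs
    · rw [norm_mul, norm_prod]
      refine mul_le_mul (hT I) ?_ (prod_nonneg fun _ _ => norm_nonneg _) hε
      refine (prod_le_prod (fun _ _ => norm_nonneg _) (fun m _ => hv (I m))).trans ?_
      rw [prod_const, card_erase_of_mem (mem_univ _), card_univ, Fintype.card_fin]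
    · rw [norm_zero]
      positivity
  refine (sum_le_sum fun I _ => hterm I).trans ?_
  rw [sum_const, card_univ, Fintype.card_fun, Fintype.card_fin, Fintype.card_fin, nsmul_eq_mul]
  push_cast
  exact le_refl _

/-- closeness to the diagonal tensor -/
def Close (α : Fin (n + 1) → ℂ) (ε : ℝ) (T : (Fin d → Fin (n + 1)) → ℂ) : Prop :=
  ∀ I, ‖(T - diag n d α) I‖ ≤ ε

theorem no_zero (hd : 2 ≤ d) {α : Fin (n + 1) → ℂ} {ε : ℝ} {T : (Fin d → Fin (n + 1)) → ℂ}
    (hT : Close α ε T) (hε : ∀ j, (n + 1 : ℝ) ^ d * ε < ‖α j‖) (k : Fin d)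
    (v : Fin (n + 1) → ℂ) (hv : ∀ j, contract T k v j = 0) : v = 0 := by
  obtain ⟨j, _, hj⟩ := Finset.exists_max_image univ (fun i => ‖v i‖) univ_nonempty
  have h1 := norm_contract_le (T - diag n d α) hT k v (M := ‖v j‖) (fun i => hj i (mem_univ i)) j
  rw [contract_sub', hv j, zero_sub, norm_neg, contract_diag, norm_mul, norm_pow] at h1
  have h2 : ‖v j‖ ^ (d - 1) * (‖α j‖ - (n + 1 : ℝ) ^ d * ε) ≤ 0 := by nlinarith [h1]
  have h3 : ‖v j‖ ^ (d - 1) ≤ 0 := by
    by_contra hcon
    push Not at hcon
    have := mul_pos hcon (sub_pos.2 (hε j))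
    linarith
  have h4 : ‖v j‖ = 0 := by
    have h5 : ‖v j‖ ^ (d - 1) = 0 := le_antisymm h3 (by positivity)
    exact pow_eq_zero_iff (by omega) |>.1 h5
  funext i
  have h6 := hj i (mem_univ i)
  rw [h4] at h6
  simpa using h6

theorem vanish_moments (hd : 3 ≤ d) {α : Fin (n + 1) → ℂ} {ε : ℝ}
    {T : (Fin d → Fin (n + 1)) → ℂ}
    (hT : Close α ε T) (hε : ∀ j, (n + 1 : ℝ) ^ d * ε < ‖α j‖) (k : Fin d)
    (S : Finset (Fin (n + 1) → ℂ)) (hS : ∀ v ∈ S, ∀ j, contract T k v j = v j)
    (w : (Fin (n + 1) → ℂ) → ℂ)
    (hw : ∀ a : Fin (n + 1) → ℕ, (∀ i, a i < d - 1) → ∑ v ∈ S, w v * ∏ i, v i ^ a i = 0) :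
    ∀ (N : ℕ) (a : Fin (n + 1) → ℕ), ∑ i, a i = N → ∑ v ∈ S, w v * ∏ i, v i ^ a i = 0 := by
  intro N
  induction N using Nat.strong_induction_on with
  | _ N ih =>
    set L : (Fin (n + 1) → ℕ) → ℂ := fun a => ∑ v ∈ S, w v * ∏ i, v i ^ a i with hL
    have hfin : (Finset.piAntidiag (univ : Finset (Fin (n + 1))) N).Nonempty := by
      refine ⟨Pi.single 0 N, ?_⟩
      rw [Finset.mem_piAntidiag]
      refine ⟨?_, fun i _ => mem_univ i⟩
      rw [Finset.sum_pi_single']
      simp
    obtain ⟨a, ha, hmax⟩ := Finset.exists_max_image _ (fun a => ‖L a‖) hfin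
    rw [Finset.mem_piAntidiag] at ha
    have hzero : L a = 0 := by
      by_cases hred : ∀ i, a i < d - 1
      · exact hw a hred
      · push Not at hred
        obtain ⟨j, hj⟩ := hred
        set a' : Fin (n + 1) → ℕ := fun i => if i = j then a i - (d - 1) else a i with ha'
        have hprod : ∀ v : Fin (n + 1) → ℂ, ∏ i, v i ^ a i = (∏ i, v i ^ a' i) * v j ^ (d - 1) := by
          intro v
          rw [← mul_prod_erase univ _ (mem_univ j), ← mul_prod_erase univ (fun i => v i ^ a' i)
            (mem_univ j)]
          have h1 : ∏ x ∈ univ.erase j, v x ^ a' x = ∏ x ∈ univ.erase j, v x ^ a x := by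
            refine prod_congr rfl fun i hi => ?_
            rw [ha']
            simp only
            rw [if_neg (mem_erase.1 hi).1]
          rw [h1, ha']
          simp only [if_true]
          have h2 : v j ^ a j = v j ^ (a j - (d - 1)) * v j ^ (d - 1) := by
            rw [← pow_add]
            congr 1
            omega
          rw [h2]
          ring
        have hsum' : ∑ i, a' i + (d - 1) = N := by
          rw [← ha.1, ← add_sum_erase univ _ (mem_univ j), ← add_sum_erase univ a (mem_univ j)]
          have h1 : ∑ x ∈ univ.erase j, a' x = ∑ x ∈ univ.erase j, a x := by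
            refine sum_congr rfl fun i hi => ?_
            rw [ha']
            simp only
            rw [if_neg (mem_erase.1 hi).1]
          rw [h1, ha']
          simp only [if_true]
          omega
        -- the relation
        have hrel : α j * L a = L (a' + Pi.single j 1) -
            ∑ I : Fin d → Fin (n + 1), if I k = j then (T - diag n d α) I *
              L (a' + ∑ m ∈ univ.erase k, Pi.single (I m) 1) else 0 := by
          have hpt : ∀ v ∈ S, α j * (w v * ∏ i, v i ^ a i) =
              w v * ∏ i, v i ^ (a' + Pi.single j 1 : Fin (n + 1) → ℕ) i -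
              ∑ I : Fin d → Fin (n + 1), if I k = j then (T - diag n d α) I *
                (w v * ∏ i, v i ^ (a' + ∑ m ∈ univ.erase k, Pi.single (I m) 1 :
                  Fin (n + 1) → ℕ) i) else 0 := by
            intro v hv
            have h1 := hS v hv j
            have h2 := contract_sub' T (diag n d α) k v j
            rw [h1, contract_diag] at h2
            have hmon : ∀ (b c : Fin (n + 1) → ℕ), ∏ i, v i ^ (b + c) i =
                (∏ i, v i ^ b i) * ∏ i, v i ^ c i := by
              intro b c
              rw [← prod_mul_distrib]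
              refine prod_congr rfl fun i _ => ?_
              rw [Pi.add_apply, pow_add]
            have hsing : ∀ j', ∏ i, v i ^ (Pi.single j' 1 : Fin (n + 1) → ℕ) i = v j' := by
              intro j'
              rw [prod_eq_single j']
              · rw [Pi.single_eq_same, pow_one]
              · intro i _ hi
                rw [Pi.single_eq_of_ne hi, pow_zero]
              · intro h
                exact absurd (mem_univ _) h
            have hsum2 : ∀ (s : Finset (Fin d)) (I : Fin d → Fin (n + 1)),
                ∏ i, v i ^ (∑ m ∈ s, Pi.single (I m) 1 : Fin (n + 1) → ℕ) i = ∏ m ∈ s, v (I m) := by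
              intro s I
              induction s using Finset.induction_on with
              | empty => simp
              | insert x s hx ihs =>
                rw [sum_insert hx, prod_insert hx, hmon, hsing, ihs]
            simp_rw [hmon, hsing, hsum2]
            have h3 : (∑ I : Fin d → Fin (n + 1), if I k = j then (T - diag n d α) I *
                (w v * ((∏ i, v i ^ a' i) * ∏ m ∈ univ.erase k, v (I m))) else 0) =
                (w v * ∏ i, v i ^ a' i) * contract (T - diag n d α) k v j := by
              unfold contract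
              rw [mul_sum]
              refine sum_congr rfl fun I _ => ?_
              split_ifs
              · ring
              · rw [mul_zero]
            rw [h3, h2, hprod v]
            ring
          rw [hL]
          simp only
          rw [mul_sum, sum_congr rfl hpt, sum_sub_distrib]
          congr 1
          rw [sum_comm]
          refine sum_congr rfl fun I _ => ?_
          split_ifs
          · rw [mul_sum]
          · rw [sum_const_zero]
        have hlow : L (a' + Pi.single j 1) = 0 := by
          apply ih (∑ i, (a' + Pi.single j 1 : Fin (n + 1) → ℕ) i) _ _ rfl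
          simp only [Pi.add_apply]
          rw [sum_add_distrib, Finset.sum_pi_single']
          simp
          omega
        rw [hlow, zero_sub] at hrel
        have hbound : ‖α j‖ * ‖L a‖ ≤ (n + 1 : ℝ) ^ d * (ε * ‖L a‖) := by
          rw [← norm_mul, hrel, norm_neg]
          refine (norm_sum_le _ _).trans ?_
          have hε0 : 0 ≤ ε := (norm_nonneg _).trans (hT (fun _ => 0))
          have hterm : ∀ I : Fin d → Fin (n + 1),
              ‖(if I k = j then (T - diag n d α) I *
                L (a' + ∑ m ∈ univ.erase k, Pi.single (I m) 1) else 0)‖ ≤ ε * ‖L a‖ := by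
            intro I
            split_ifs
            · rw [norm_mul]
              refine mul_le_mul (hT I) ?_ (norm_nonneg _) hε0
              apply hmax
              rw [Finset.mem_piAntidiag]
              refine ⟨?_, fun i _ => mem_univ i⟩
              simp only [Pi.add_apply, Finset.sum_apply]
              rw [sum_add_distrib, sum_comm]
              have h1 : ∀ m ∈ univ.erase k, ∑ i, (Pi.single (I m) 1 : Fin (n + 1) → ℕ) i = 1 := by
                intro m _
                rw [Finset.sum_pi_single']
                simp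
              rw [sum_congr rfl h1, sum_const, card_erase_of_mem (mem_univ _), card_univ,
                Fintype.card_fin]
              simp only [smul_eq_mul, mul_one]
              exact hsum'
            · rw [norm_zero]
              positivity
          refine (sum_le_sum fun I _ => hterm I).trans ?_
          rw [sum_const, card_univ, Fintype.card_fun, Fintype.card_fin, Fintype.card_fin,
            nsmul_eq_mul]
          push_cast
          exact le_refl _
        have h4 : (‖α j‖ - (n + 1 : ℝ) ^ d * ε) * ‖L a‖ ≤ 0 := by nlinarith [hbound]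
        have h5 : ‖L a‖ ≤ 0 := by
          by_contra hcon
          push Not at hcon
          have := mul_pos (sub_pos.2 (hε j)) hcon
          linarith
        exact norm_le_zero_iff.1 h5
    intro b hb
    have h1 := hmax b (by
      rw [Finset.mem_piAntidiag]
      exact ⟨hb, fun i _ => mem_univ i⟩)
    rw [hzero, norm_zero] at h1
    exact norm_le_zero_iff.1 h1

theorem card_le (hd : 3 ≤ d) {α : Fin (n + 1) → ℂ} {ε : ℝ}
    {T : (Fin d → Fin (n + 1)) → ℂ}
    (hT : Close α ε T) (hε : ∀ j, (n + 1 : ℝ) ^ d * ε < ‖α j‖) (k : Fin d)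
    (S : Finset (Fin (n + 1) → ℂ)) (hS : ∀ v ∈ S, ∀ j, contract T k v j = v j) :
    #S ≤ (d - 1) ^ (n + 1) := by
  by_contra hcon
  push Not at hcon
  let E : (S → ℂ) →ₗ[ℂ] ((Fin (n + 1) → Fin (d - 1)) → ℂ) :=
    { toFun := fun w a => ∑ v : S, w v * ∏ i, v.1 i ^ (a i : ℕ)
      map_add' := fun w w' => by
        funext a
        simp only [Pi.add_apply, add_mul, sum_add_distrib]
      map_smul' := fun c w => by
        funext a
        simp only [Pi.smul_apply, smul_eq_mul, RingHom.id_apply, mul_sum, mul_assoc] }
  have hker : LinearMap.ker E ≠ ⊥ := by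
    apply LinearMap.ker_ne_bot_of_finrank_lt
    rw [Module.finrank_fintype_fun_eq_card, Module.finrank_fintype_fun_eq_card]
    simp only [Fintype.card_fun, Fintype.card_fin, Fintype.card_coe]
    exact hcon
  rw [Submodule.ne_bot_iff] at hker
  obtain ⟨w, hw, hw0⟩ := hker
  apply hw0
  rw [LinearMap.mem_ker] at hw
  classical
  let w' : (Fin (n + 1) → ℂ) → ℂ := fun v => if h : v ∈ S then w ⟨v, h⟩ else 0
  have hw' : ∀ f : (Fin (n + 1) → ℂ) → ℂ, ∑ v ∈ S, w' v * f v = ∑ v : S, w v * f v.1 := by
    intro f
    rw [← Finset.sum_coe_sort S]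
    refine sum_congr rfl fun v _ => ?_
    simp only [w']
    rw [dif_pos v.2]
  have hmom := vanish_moments hd hT hε k S hS w' (by
    intro a ha
    have h1 := congrFun hw (fun i => ⟨a i, ha i⟩)
    rw [hw' (fun v => ∏ i, v i ^ a i)]
    exact h1)
  have hpoly : ∀ P : MvPolynomial (Fin (n + 1)) ℂ, ∑ v ∈ S, w' v * eval v P = 0 := by
    intro P
    simp_rw [eval_eq', mul_sum]
    rw [sum_comm]
    refine sum_eq_zero fun b _ => ?_
    have h1 := hmom _ b rfl
    have h2 : ∑ v ∈ S, w' v * (coeff b P * ∏ i, v i ^ b i) =
        coeff b P * ∑ v ∈ S, w' v * ∏ i, v i ^ b i := by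
      rw [mul_sum]
      refine sum_congr rfl fun v _ => ?_
      ring
    rw [h2, h1, mul_zero]
  funext ⟨v0, hv0⟩
  have hsep : ∀ v : Fin (n + 1) → ℂ, ∃ i, v ≠ v0 → v i ≠ v0 i := by
    intro v
    by_cases hv : v = v0
    · exact ⟨0, fun h => absurd hv h⟩
    · obtain ⟨i, hi⟩ := Function.ne_iff.1 hv
      exact ⟨i, fun _ => hi⟩
  choose c hc using hsep
  have h1 := hpoly (∏ v ∈ S.erase v0, (X (c v) - C (v (c v))))
  rw [sum_eq_single v0] at h1
  · have h2 : eval v0 (∏ v ∈ S.erase v0, (X (c v) - C (v (c v)))) ≠ 0 := by
      rw [map_prod]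
      rw [prod_ne_zero_iff]
      intro v hv
      rw [map_sub, eval_X, eval_C]
      exact sub_ne_zero.2 (Ne.symm (hc v (mem_erase.1 hv).1))
    have h3 := (mul_eq_zero.1 h1).resolve_right h2
    simp only [w'] at h3
    rw [dif_pos hv0] at h3
    exact h3
  · intro v hv hne
    have : eval v (∏ v ∈ S.erase v0, (X (c v) - C (v (c v)))) = 0 := by
      rw [map_prod]
      refine prod_eq_zero (mem_erase.2 ⟨hne, hv⟩) ?_
      rw [map_sub, eval_X, eval_C, sub_self]
    rw [this, mul_zero]
  · intro h
    exact absurd hv0 h

end Pool.Agent.R840.EC
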