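import Pool.Agent.R840.EC.Cert

set_option autoImplicit false

namespace Pool.Agent.R840.EC

open Finset MvPolynomial Module

variable {n d : ℕ}

theorem exists_lin (hd : 2 ≤ d) (T0 : Ten n d) (k : Fin d) (hfin : (eigenpoints T0 k).Finite) :
    ∃ l : Fin (n + 1) → ℂ, ∀ v : Fin (n + 1) → ℂ,
      (∀ i j, v i * contract T0 k v j = v j * contract T0 k v i) →
      ∑ j, l j * v j = 0 → v = 0 := by
  have h1 : ∏ P ∈ hfin.toFinset, lin P.rep ≠ 0 := by
    rw [prod_ne_zero_iff]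
    intro P _
    exact lin_ne_zero P.rep_nonzero
  have h2 : ∃ l : Fin (n + 1) → ℂ, eval l (∏ P ∈ hfin.toFinset, lin P.rep) ≠ 0 := by
    by_contra hcon
    push Not at hcon
    apply h1
    apply MvPolynomial.funext
    intro l
    rw [hcon l, map_zero]
  obtain ⟨l, hl⟩ := h2
  rw [map_prod, prod_ne_zero_iff] at hl
  refine ⟨l, fun v hv h0 => ?_⟩
  by_contra hv0
  have hmem : Projectivization.mk ℂ v hv0 ∈ hfin.toFinset := by
    rw [Set.Finite.mem_toFinset, mk_mem_eigenpoints hd]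
    exact hv
  have h3 := hl _ hmem
  apply h3
  obtain ⟨a, ha⟩ := Projectivization.exists_smul_eq_mk_rep ℂ v hv0
  rw [eval_lin, ← ha]
  have h4 : ∀ j, (a • v) j * l j = (a : ℂ) * (l j * v j) := by
    intro j
    show (a : ℂ) * v j * l j = _
    ring
  simp_rw [h4]
  rw [← mul_sum, h0, mul_zero]

theorem exists_certs (hd : 3 ≤ d) (T0 : Ten n d) (hfin : ∀ k, (eigenpoints T0 k).Finite) :
    ∃ (l : Fin d → Fin (n + 1) → ℂ) (g : MvPolynomial (Fin d → Fin (n + 1)) ℂ),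
      eval T0 g ≠ 0 ∧ ∀ k, Cert k (l k) g := by
  have h1 : ∀ k, ∃ (l : Fin (n + 1) → ℂ) (g : MvPolynomial (Fin d → Fin (n + 1)) ℂ),
      eval T0 g ≠ 0 ∧ Cert k l g := by
    intro k
    obtain ⟨l, hl⟩ := exists_lin (by omega) T0 k (hfin k)
    obtain ⟨g, hg1, hg2⟩ := exists_cert hd T0 k l hl
    exact ⟨l, g, hg1, hg2⟩
  choose l g hg1 hg2 using h1
  refine ⟨l, ∏ k, g k, ?_, fun k => ?_⟩
  · rw [map_prod, prod_ne_zero_iff]
    exact fun k _ => hg1 k
  · rw [← mul_prod_erase univ g (mem_univ k)]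
    exact (hg2 k).mul _

theorem finite_cover (n : ℕ) (hd : 3 ≤ d) :
    ∃ t : Finset (MvPolynomial (Fin d → Fin (n + 1)) ℂ),
      (∀ g ∈ t, ∃ l : Fin d → Fin (n + 1) → ℂ, ∀ k, Cert k (l k) g) ∧
      ∀ T0 : Ten n d, (∀ k, (eigenpoints T0 k).Finite) → ∃ g ∈ t, eval T0 g ≠ 0 := by
  set G : Set (MvPolynomial (Fin d → Fin (n + 1)) ℂ) :=
    {g | ∃ l : Fin d → Fin (n + 1) → ℂ, ∀ k, Cert k (l k) g} with hG
  have hfg : (Submodule.span (MvPolynomial (Fin d → Fin (n + 1)) ℂ) G).FG :=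
    IsNoetherian.noetherian _
  obtain ⟨t, ht1, ht2⟩ := (Submodule.fg_span_iff_fg_span_finset_subset G).1 hfg
  refine ⟨t, fun g hg => ht1 hg, fun T0 hT0 => ?_⟩
  obtain ⟨l, g, hg1, hg2⟩ := exists_certs hd T0 hT0
  by_contra hcon
  push Not at hcon
  apply hg1
  have h1 : g ∈ Submodule.span (MvPolynomial (Fin d → Fin (n + 1)) ℂ) G :=
    Submodule.subset_span ⟨l, hg2⟩
  rw [ht2] at h1
  have h2 : Submodule.span (MvPolynomial (Fin d → Fin (n + 1)) ℂ)
      (t : Set (MvPolynomial (Fin d → Fin (n + 1)) ℂ)) ≤ RingHom.ker (eval T0) := by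
    rw [Submodule.span_le]
    intro g' hg'
    exact hcon g' hg'
  exact h2 h1

/-- affine slices of the space of tensors -/
noncomputable def slice {R : Type*} [CommRing R] [Algebra ℂ R] {r : ℕ}
    (e : Fin (r + 1) → Ten n d) (b : Fin (r + 1)) (θ : Fin r → R) : (Fin d → Fin (n + 1)) → R :=
  fun I => algebraMap ℂ R (e b I) + ∑ i, θ i * algebraMap ℂ R (e (b.succAbove i) I)

theorem map_slice {R S : Type*} [CommRing R] [Algebra ℂ R] [CommRing S] [Algebra ℂ S] {r : ℕ}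
    (φ : R →ₐ[ℂ] S) (e : Fin (r + 1) → Ten n d) (b : Fin (r + 1)) (θ : Fin r → R)
    (I : Fin d → Fin (n + 1)) :
    φ (slice e b θ I) = slice e b (fun i => φ (θ i)) I := by
  unfold slice
  rw [map_add, map_sum, AlgHom.commutes]
  congr 1
  refine sum_congr rfl fun i _ => ?_
  rw [map_mul, AlgHom.commutes]

theorem eig_congr {T T' κ : Ten n d} (hκ : κ ∈ kerL n d) {c : ℂ} (hc : c ≠ 0)
    (hT : T = κ + c • T') (k : Fin d) : eigenpoints T k = eigenpoints T' k := by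
  obtain ⟨h, hh⟩ := hκ
  have h1 : ∀ v j, contract T k v j = eval v (h k) * v j + c * contract T' k v j := by
    intro v j
    rw [hT, contract_add, contract_smul, ← eval_pc κ, hh k j, map_mul, eval_X]
  ext P
  unfold eigenpoints
  rw [Set.mem_ofPred_eq, Set.mem_ofPred_eq]
  simp only [h1]
  constructor
  · intro h2 i j
    apply mul_left_cancel₀ hc
    linear_combination h2 i j
  · intro h2 i j
    linear_combination c * h2 i j

theorem not_kerL (hn : 1 ≤ n) (hd : 3 ≤ d) {T : Ten n d} (hfin : ∀ k, (eigenpoints T k).Finite) :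
    T ∉ kerL n d := by
  rintro ⟨h, hh⟩
  obtain ⟨l, hl⟩ := exists_lin (by omega) T ⟨0, by omega⟩ (hfin _)
  have hker : LinearMap.ker (Fintype.linearCombination ℂ l : (Fin (n + 1) → ℂ) →ₗ[ℂ] ℂ) ≠ ⊥ := by
    apply LinearMap.ker_ne_bot_of_finrank_lt
    rw [Module.finrank_fin_fun, Module.finrank_self]
    omega
  rw [Submodule.ne_bot_iff] at hker
  obtain ⟨v, hv, hv0⟩ := hker
  apply hv0
  apply hl v
  · intro i j
    rw [← eval_pc, ← eval_pc, hh, hh, map_mul, map_mul, eval_X, eval_X]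
    ring
  · rw [LinearMap.mem_ker, Fintype.linearCombination_apply] at hv
    rw [← hv]
    refine sum_congr rfl fun j _ => ?_
    rw [smul_eq_mul, mul_comm]

theorem slices (hn : 1 ≤ n) (hd : 3 ≤ d) (r : ℕ)
    (hr : (r + 1) + finrank ℂ (kerL n d) = finrank ℂ (Ten n d)) :
    ∃ e : Fin (r + 1) → Ten n d, ∀ T : Ten n d, (∀ k, (eigenpoints T k).Finite) →
      ∃ (b : Fin (r + 1)) (θ : Fin r → ℂ), ∀ k, eigenpoints T k = eigenpoints (slice e b θ) k := by
  obtain ⟨W, hW⟩ := (kerL n d).exists_isCompl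
  have hWr : finrank ℂ W = r + 1 := by
    have := Submodule.finrank_add_eq_of_isCompl hW
    omega
  set B : Basis (Fin (r + 1)) ℂ W := Module.finBasisOfFinrankEq ℂ W hWr with hB
  refine ⟨fun i => (B i : Ten n d), fun T hT => ?_⟩
  have hTmem : T ∈ kerL n d ⊔ W := by
    rw [hW.sup_eq_top]
    exact Submodule.mem_top
  obtain ⟨κ, hκ, w, hw, hκw⟩ := Submodule.mem_sup.1 hTmem
  set x : Fin (r + 1) → ℂ := fun i => B.repr ⟨w, hw⟩ i with hx
  have hwx : w = ∑ i, x i • (B i : Ten n d) := by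
    have h1 := B.sum_repr ⟨w, hw⟩
    have h2 := congrArg (Submodule.subtype W) h1
    rw [map_sum] at h2
    rw [← show (Submodule.subtype W) ⟨w, hw⟩ = w from rfl, ← h2]
    rfl
  have hxne : ∃ b, x b ≠ 0 := by
    by_contra hcon
    push Not at hcon
    apply not_kerL hn hd hT
    have h1 : w = 0 := by
      rw [hwx]
      exact sum_eq_zero fun i _ => by rw [hcon i, zero_smul]
    rw [← hκw, h1, add_zero]
    exact hκ
  obtain ⟨b, hb⟩ := hxne
  refine ⟨b, fun i => x (b.succAbove i) / x b, fun k => ?_⟩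
  apply eig_congr hκ hb
  rw [← hκw, hwx]
  congr 1
  rw [Fin.sum_univ_succAbove _ b]
  funext I
  rw [Pi.add_apply, Finset.sum_apply, Pi.smul_apply, Pi.smul_apply]
  unfold slice
  rw [smul_eq_mul, smul_eq_mul, mul_add, mul_sum]
  congr 1
  refine sum_congr rfl fun i _ => ?_
  rw [Pi.smul_apply, smul_eq_mul]
  simp only [Algebra.algebraMap_self, RingHom.id_apply]
  field_simp

end Pool.Agent.R840.EC
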