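import Pool.Agent.R840.EC.Reps
import Pool.Agent.R840.EC.Dims

set_option autoImplicit false

namespace Pool.Agent.R840.EC

open Finset MvPolynomial

variable {n d : ℕ}

/-- the points of the `k`-th eigenscheme of `T` -/
def eigenpoints (T : (Fin d → Fin (n + 1)) → ℂ) (k : Fin d) :
    Set (Projectivization ℂ (Fin (n + 1) → ℂ)) :=
  {P | ∀ i j, P.rep i * contract T k P.rep j = P.rep j * contract T k P.rep i}

/-- `d`-tuples of cycles of degree `D_{n,d}` -/
abbrev Config (n d : ℕ) : Type :=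
  Fin d → Sym (Projectivization ℂ (Fin (n + 1) → ℂ)) (numEig n d)

/-- eigenscheme tuples of the tensors all of whose eigenschemes are reduced and finite -/
def reducedConfigs (n d : ℕ) : Set (Config n d) :=
  {X | ∃ T : (Fin d → Fin (n + 1)) → ℂ, ∀ k, (X k : Multiset (Projectivization ℂ (Fin (n + 1) → ℂ))).Nodup ∧
    ∀ P, P ∈ X k ↔ P ∈ eigenpoints T k}

/-- tuples of cycles supported on the eigenschemes of a tensor with finite eigenschemes -/
def finiteConfigs (n d : ℕ) : Set (Config n d) :=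
  {X | ∃ T : (Fin d → Fin (n + 1)) → ℂ, ∀ k, (eigenpoints T k).Finite ∧
    ∀ P, P ∈ X k → P ∈ eigenpoints T k}

/-- the Chow form of a family of points -/
noncomputable def chow {D : ℕ} (p : Fin D → Fin (n + 1) → ℂ) : MvPolynomial (Fin (n + 1)) ℂ :=
  ∏ i, ∑ j, C (p i j) * X j

/-- index set of the coordinates -/
abbrev Idx (n d : ℕ) : Type := Fin d × {a : Fin (n + 1) →₀ ℕ // a.degree = numEig n d}

/-- the multicone over a set of tuples of cycles -/
def cone (S : Set (Config n d)) : Set (Idx n d → ℂ) :=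
  {c | ∃ X ∈ S, ∃ p : Fin d → Fin (numEig n d) → Fin (n + 1) → ℂ, ∃ hp : ∀ k i, p k i ≠ 0,
    (∀ k, (X k : Multiset (Projectivization ℂ (Fin (n + 1) → ℂ))) =
      Multiset.map (fun i => Projectivization.mk ℂ (p k i) (hp k i)) univ.val) ∧
    ∀ x : Idx n d, c x = coeff x.2.1 (chow (p x.1))}

theorem mk_mem_eigenpoints (hd : 2 ≤ d) (T : (Fin d → Fin (n + 1)) → ℂ) (k : Fin d)
    (v : Fin (n + 1) → ℂ) (hv : v ≠ 0) :
    Projectivization.mk ℂ v hv ∈ eigenpoints T k ↔
      ∀ i j, v i * contract T k v j = v j * contract T k v i := by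
  set P := Projectivization.mk ℂ v hv with hP
  obtain ⟨a, ha⟩ := Projectivization.exists_smul_eq_mk_rep ℂ v hv
  have ha0 : (a : ℂ) ≠ 0 := a.ne_zero
  have hrep : P.rep = fun i => (a : ℂ) * v i := by
    rw [hP, ← ha]
    rfl
  unfold eigenpoints
  rw [Set.mem_ofPred_eq, hrep]
  simp only [contract_smul_vec]
  constructor
  · intro h i j
    have h1 := h i j
    have h2 : (a : ℂ) ^ d ≠ 0 := pow_ne_zero _ ha0
    have h3 : (a : ℂ) ^ d = a * (a : ℂ) ^ (d - 1) := by
      rw [← pow_succ', show d - 1 + 1 = d by omega]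
    apply mul_left_cancel₀ h2
    rw [h3]
    linear_combination h1
  · intro h i j
    linear_combination (a : ℂ) * (a : ℂ) ^ (d - 1) * h i j

theorem eigen_iff_exists {T : (Fin d → Fin (n + 1)) → ℂ} {k : Fin d}
    {v : Fin (n + 1) → ℂ} (hv : v ≠ 0)
    (h : ∀ i j, v i * contract T k v j = v j * contract T k v i) :
    ∃ l : ℂ, ∀ j, contract T k v j = l * v j := by
  obtain ⟨j0, hj0⟩ := Function.ne_iff.1 hv
  refine ⟨contract T k v j0 / v j0, fun j => ?_⟩
  have h1 : v j0 ≠ 0 := hj0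
  field_simp
  linear_combination h j0 j

theorem mk_eq_iff (v w : Fin (n + 1) → ℂ) (hv : v ≠ 0) (hw : w ≠ 0) :
    Projectivization.mk ℂ v hv = Projectivization.mk ℂ w hw ↔ ∀ i j, v i * w j = v j * w i := by
  rw [Projectivization.mk_eq_mk_iff]
  constructor
  · rintro ⟨a, ha⟩ i j
    rw [← ha]
    show (a : ℂ) * w i * w j = (a : ℂ) * w j * w i
    ring
  · intro h
    obtain ⟨j0, hj0⟩ := Function.ne_iff.1 hw
    have h1 : w j0 ≠ 0 := hj0
    have h2 : v j0 ≠ 0 := by
      intro h3
      apply hv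
      funext i
      have h4 := h i j0
      rw [h3, zero_mul] at h4
      exact (mul_eq_zero.1 h4).resolve_right h1
    refine ⟨Units.mk0 (v j0 / w j0) (div_ne_zero h2 h1), ?_⟩
    funext i
    show (v j0 / w j0) * w i = v i
    field_simp
    linear_combination -h i j0

end Pool.Agent.R840.EC
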