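import Pool.Agent.R840.EC.Grid

set_option autoImplicit false

namespace Pool.Agent.R840.EC

open Finset MvPolynomial

variable {n d : ℕ}

theorem ne_special_of_single (hd : 3 ≤ d) (i k l : Fin (n + 1)) (hkl : k ≠ l) :
    (Finsupp.single i d : Fin (n + 1) →₀ ℕ) ≠
      Finsupp.single k (d - 1) + Finsupp.single l 1 := by
  intro h
  have h1 := DFunLike.congr_fun h k
  simp only [Finsupp.add_apply, Finsupp.single_apply, if_true, if_neg hkl.symm] at h1
  split_ifs at h1 <;> omega

/-- a special exponent minus two different units -/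
theorem special_imp (hd : 3 ≤ d) {i j k l : Fin (n + 1)} (hij : i ≠ j)
    {a : Fin (n + 1) →₀ ℕ}
    (h : Finsupp.single i 1 + (Finsupp.single j 1 + a) =
      Finsupp.single k (d - 1) + Finsupp.single l 1) :
    a = Finsupp.single i (d - 2) ∨ a = Finsupp.single j (d - 2) := by
  have hi := DFunLike.congr_fun h i
  have hj := DFunLike.congr_fun h j
  simp only [Finsupp.add_apply, Finsupp.single_apply, if_true, if_neg hij, if_neg hij.symm] at hi hj
  have hval : ∀ m, a m = (if k = m then d - 1 else 0) + (if l = m then 1 else 0)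
      - (if i = m then 1 else 0) - (if j = m then 1 else 0) := by
    intro m
    have := DFunLike.congr_fun h m
    simp only [Finsupp.add_apply, Finsupp.single_apply] at this
    omega
  by_cases h1 : k = i
  · have h2 : l = j := by
      by_contra h2
      rw [if_neg h2] at hj
      have : k ≠ j := by rw [h1]; exact hij
      rw [if_neg this] at hj
      omega
    left
    subst h1 h2
    ext m
    rw [hval m, Finsupp.single_apply]
    split_ifs <;> omega
  · have h2 : l = i := by
      by_contra h2
      rw [if_neg h1, if_neg h2] at hi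
      omega
    have h3 : k = j := by
      by_contra h3
      have : l ≠ j := by rw [h2]; exact hij
      rw [if_neg h3, if_neg this] at hj
      omega
    right
    subst h2 h3
    ext m
    rw [hval m, Finsupp.single_apply]
    split_ifs <;> omega

theorem fermat_unweighted (hn : 1 ≤ n) (hd : 3 ≤ d)
    (γ : Fin (n + 1) → MvPolynomial (Fin (n + 1)) ℂ)
    (hγ : ∀ j, (γ j).IsHomogeneous (d - 1))
    (hv : ∀ a : Fin (n + 1) → ℂ, (∀ i, a i ^ (d - 1) = a i) →
      ∀ i j, a i * eval a (γ j) = a j * eval a (γ i)) :
    ∃ (α : ℂ) (h : MvPolynomial (Fin (n + 1)) ℂ), ∀ j, γ j = C α * X j ^ (d - 1) + h * X j := by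
  classical
  have hPh : ∀ i j, (X i * γ j - X j * γ i).IsHomogeneous d := by
    intro i j
    have h1 := (isHomogeneous_X ℂ i).mul (hγ j)
    have h2 := (isHomogeneous_X ℂ j).mul (hγ i)
    rw [show 1 + (d - 1) = d by omega] at h1 h2
    exact h1.sub h2
  have hPv : ∀ i j, ∀ a : Fin (n + 1) → ℂ, (∀ i, a i ^ (d - 1) = a i) →
      eval a (X i * γ j - X j * γ i) = 0 := by
    intro i j a ha
    rw [map_sub, map_mul, map_mul, eval_X, eval_X, hv a ha i j, sub_self]
  -- coefficient extraction
  have hc1 : ∀ i j (b : Fin (n + 1) →₀ ℕ), b j = 0 →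
      coeff (Finsupp.single i 1 + b) (X i * γ j - X j * γ i) =
        coeff b (γ j) - (if i = j then coeff b (γ i) else 0) := by
    intro i j b hb
    rw [coeff_sub, coeff_X_mul]
    congr 1
    by_cases hij : i = j
    · subst hij
      rw [if_pos rfl, coeff_X_mul]
    · rw [if_neg hij, coeff_X_mul', if_neg]
      rw [Finsupp.mem_support_iff, not_not, Finsupp.add_apply, Finsupp.single_apply, if_neg hij, hb]
      rfl
  have step1a : ∀ j l, j ≠ l → coeff (Finsupp.single l (d - 1)) (γ j) = 0 := by
    intro j l hjl
    have h1 := hc1 l j (Finsupp.single l (d - 1)) (by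
      rw [Finsupp.single_apply, if_neg hjl.symm])
    rw [if_neg hjl.symm, sub_zero] at h1
    rw [← h1]
    apply coeff_nonspecial hd (hPh l j) (hPv l j)
    intro k m hkm h
    apply ne_special_of_single hd l k m hkm
    rw [← h, ← Finsupp.single_add]
    congr 1
    omega
  have step1b : ∀ j k l, j ≠ k → j ≠ l → k ≠ l →
      coeff (Finsupp.single k (d - 2) + Finsupp.single l 1) (γ j) = 0 := by
    intro j k l hjk hjl hkl
    have h1 := coeff_special hd (hPh k j) (hPv k j) hkl
    have e1 : (Finsupp.single k (d - 1) + Finsupp.single l 1 : Fin (n + 1) →₀ ℕ) =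
        Finsupp.single k 1 + (Finsupp.single k (d - 2) + Finsupp.single l 1) := by
      rw [← add_assoc, ← Finsupp.single_add]
      congr 2
      omega
    have e2 : (Finsupp.single l (d - 1) + Finsupp.single k 1 : Fin (n + 1) →₀ ℕ) =
        Finsupp.single k 1 + Finsupp.single l (d - 1) := add_comm _ _
    rw [e1, e2, hc1, hc1] at h1
    · simp only [if_neg hjk.symm, sub_zero] at h1
      rw [step1a j l hjl, add_zero] at h1
      exact h1
    · rw [Finsupp.single_apply, if_neg hjl.symm]
    · rw [Finsupp.add_apply, Finsupp.single_apply, Finsupp.single_apply, if_neg hjk.symm,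
        if_neg hjl.symm]
      rfl
  have step1 : ∀ j (a : Fin (n + 1) →₀ ℕ), a j = 0 → coeff a (γ j) = 0 := by
    intro j a haj
    by_cases hdeg : a.degree = d - 1
    · have hex : ∃ i, a i ≠ 0 := by
        by_contra hcon
        push Not at hcon
        have : a = 0 := by
          ext i
          exact hcon i
        rw [this, map_zero] at hdeg
        omega
      obtain ⟨i, hi⟩ := hex
      have hij : i ≠ j := by
        rintro rfl
        exact hi haj
      have h1 := hc1 i j a haj
      rw [if_neg hij, sub_zero] at h1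
      by_cases hsp : ∃ k l, k ≠ l ∧ Finsupp.single i 1 + a =
          Finsupp.single k (d - 1) + Finsupp.single l 1
      · obtain ⟨k, l, hkl, hb⟩ := hsp
        have hval : ∀ m, a m = (if k = m then d - 1 else 0) + (if l = m then 1 else 0)
            - (if i = m then 1 else 0) := by
          intro m
          have := DFunLike.congr_fun hb m
          simp only [Finsupp.add_apply, Finsupp.single_apply] at this
          omega
        have hik : i = k := by
          by_contra hik
          have h2 := hval i
          rw [if_neg (Ne.symm hik), if_pos rfl] at h2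
          split_ifs at h2 <;> omega
        subst hik
        have hjl : j ≠ l := by
          rintro rfl
          have h2 := hval j
          simp only [if_neg hij, if_true] at h2
          omega
        have ha : a = Finsupp.single i (d - 2) + Finsupp.single l 1 := by
          ext m
          rw [hval m, Finsupp.add_apply, Finsupp.single_apply, Finsupp.single_apply]
          split_ifs <;> omega
        rw [ha]
        exact step1b j i l hij.symm hjl hkl
      · push Not at hsp
        rw [← h1]
        exact coeff_nonspecial hd (hPh i j) (hPv i j) _ (fun k l hkl => hsp k l hkl)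
    · exact (hγ j).coeff_eq_zero hdeg
  -- divide
  set h : Fin (n + 1) → MvPolynomial (Fin (n + 1)) ℂ :=
    fun j => divMonomial (γ j) (Finsupp.single j 1) with hh
  have step2 : ∀ j, γ j = X j * h j := by
    intro j
    have h1 := divMonomial_add_modMonomial (γ j) (Finsupp.single j 1)
    have h2 : modMonomial (γ j) (Finsupp.single j 1) = 0 := by
      ext m
      rw [coeff_zero]
      by_cases hm : Finsupp.single j 1 ≤ m
      · exact coeff_modMonomial_of_le _ hm
      · rw [coeff_modMonomial_of_not_le _ hm]
        apply step1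
        by_contra hne
        apply hm
        rw [Finsupp.single_le_iff]
        omega
    rw [h2, add_zero] at h1
    exact h1.symm
  have hcoef : ∀ j a, coeff a (h j) = coeff (Finsupp.single j 1 + a) (γ j) := by
    intro j a
    rw [hh]
    exact coeff_divMonomial _ _ _
  have hhom : ∀ j a, a.degree ≠ d - 2 → coeff a (h j) = 0 := by
    intro j a ha
    rw [hcoef]
    apply (hγ j).coeff_eq_zero
    rw [map_add, Finsupp.degree_single]
    omega
  have step3 : ∀ i j, i ≠ j → ∀ a, coeff (Finsupp.single i 1 + (Finsupp.single j 1 + a))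
      (X i * γ j - X j * γ i) = coeff a (h j) - coeff a (h i) := by
    intro i j hij a
    rw [coeff_sub, coeff_X_mul, hcoef j a, add_left_comm, coeff_X_mul, hcoef i a]
  have step3a : ∀ i j, i ≠ j → ∀ a, a ≠ Finsupp.single i (d - 2) → a ≠ Finsupp.single j (d - 2) →
      coeff a (h j) = coeff a (h i) := by
    intro i j hij a h1 h2
    have h3 := step3 i j hij a
    rw [coeff_nonspecial hd (hPh i j) (hPv i j)] at h3
    · exact (sub_eq_zero.1 h3.symm)
    · intro k l hkl hb
      rcases special_imp hd hij hb with h4 | h4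
      · exact h1 h4
      · exact h2 h4
  have step3b : ∀ i j, i ≠ j →
      (coeff (Finsupp.single i (d - 2)) (h j) - coeff (Finsupp.single i (d - 2)) (h i)) +
      (coeff (Finsupp.single j (d - 2)) (h j) - coeff (Finsupp.single j (d - 2)) (h i)) = 0 := by
    intro i j hij
    rw [← step3 i j hij, ← step3 i j hij, ← coeff_special hd (hPh i j) (hPv i j) hij]
    have hd1 : 1 + (d - 2) = d - 1 := by omega
    congr 2
    · rw [add_left_comm, ← Finsupp.single_add, hd1, add_comm (Finsupp.single j 1)]
    · rw [← Finsupp.single_add, hd1, add_comm (Finsupp.single i 1)]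
  -- conclusion
  have h10 : (1 : Fin (n + 1)) ≠ 0 := by
    intro hcon
    have := congrArg Fin.val hcon
    simp at this
    omega
  set α : ℂ := coeff (Finsupp.single 0 (d - 2)) (h 0) - coeff (Finsupp.single 0 (d - 2)) (h 1)
    with hα
  refine ⟨α, h 0 - C α * X 0 ^ (d - 2), ?_⟩
  have hXcoef : ∀ (i : Fin (n + 1)) a, coeff a (C α * X i ^ (d - 2)) =
      if a = Finsupp.single i (d - 2) then α else 0 := by
    intro i a
    rw [coeff_C_mul, coeff_X_pow]
    by_cases hc : a = Finsupp.single i (d - 2)
    · rw [if_pos hc, if_pos hc.symm, mul_one]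
    · rw [if_neg hc, if_neg (Ne.symm hc), mul_zero]
  have hkey : ∀ j, h j = h 0 - C α * X 0 ^ (d - 2) + C α * X j ^ (d - 2) := by
    intro j
    by_cases hj : j = 0
    · subst hj
      ring
    · ext a
      rw [coeff_add, coeff_sub, hXcoef, hXcoef]
      have hd2 : d - 2 ≠ 0 := by omega
      by_cases ha0 : a = Finsupp.single 0 (d - 2)
      · have haj : a ≠ Finsupp.single j (d - 2) := by
          rw [ha0]
          intro hcon
          exact hj ((Finsupp.single_left_inj hd2).1 hcon).symm
        rw [if_pos ha0, if_neg haj, add_zero, hα, ha0]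
        by_cases hj1 : j = 1
        · rw [hj1]; ring
        · have := step3a 1 j (Ne.symm hj1) (Finsupp.single 0 (d - 2))
            (fun hcon => h10 ((Finsupp.single_left_inj hd2).1 hcon).symm)
            (fun hcon => hj ((Finsupp.single_left_inj hd2).1 hcon).symm)
          rw [this]; ring
      · by_cases haj : a = Finsupp.single j (d - 2)
        · rw [if_neg ha0, if_pos haj, sub_zero, haj]
          have h1 := step3b 0 j (Ne.symm hj)
          have h2 : coeff (Finsupp.single 0 (d - 2)) (h j) = coeff (Finsupp.single 0 (d - 2)) (h 1) := by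
            by_cases hj1 : j = 1
            · rw [hj1]
            · exact step3a 1 j (Ne.symm hj1) (Finsupp.single 0 (d - 2))
                (fun hcon => h10 ((Finsupp.single_left_inj hd2).1 hcon).symm)
                (fun hcon => hj ((Finsupp.single_left_inj hd2).1 hcon).symm)
          rw [h2] at h1
          rw [hα]
          linear_combination h1
        · rw [if_neg ha0, if_neg haj, sub_zero, add_zero]
          exact step3a 0 j (Ne.symm hj) a ha0 haj
  intro j
  rw [step2 j, hkey j]
  have : (X j : MvPolynomial (Fin (n + 1)) ℂ) ^ (d - 1) = X j ^ (d - 2) * X j := by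
    rw [← pow_succ]
    congr 1
    omega
  rw [this]
  ring

/-- The weighted version: `β` are the scaling factors of the grid. -/
theorem fermat_weighted (hn : 1 ≤ n) (hd : 3 ≤ d) (β : Fin (n + 1) → ℂ) (hβ : ∀ j, β j ≠ 0)
    (γ : Fin (n + 1) → MvPolynomial (Fin (n + 1)) ℂ)
    (hγ : ∀ j, (γ j).IsHomogeneous (d - 1))
    (hv : ∀ v : Fin (n + 1) → ℂ, (∀ i, v i ^ (d - 1) = β i ^ (d - 2) * v i) →
      ∀ i j, v i * eval v (γ j) = v j * eval v (γ i)) :
    ∃ (c : ℂ) (h : MvPolynomial (Fin (n + 1)) ℂ), ∀ j,
      γ j = C (c * (β j ^ (d - 2))⁻¹) * X j ^ (d - 1) + h * X j := by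
  set s : MvPolynomial (Fin (n + 1)) ℂ →ₐ[ℂ] MvPolynomial (Fin (n + 1)) ℂ :=
    aeval (fun i => C (β i) * X i) with hs
  set s' : MvPolynomial (Fin (n + 1)) ℂ →ₐ[ℂ] MvPolynomial (Fin (n + 1)) ℂ :=
    aeval (fun i => C (β i)⁻¹ * X i) with hs'
  have hss : ∀ p, s' (s p) = p := by
    intro p
    have : s'.comp s = AlgHom.id ℂ _ := by
      apply algHom_ext
      intro i
      rw [AlgHom.comp_apply, hs, aeval_X, map_mul, algHom_C, hs', aeval_X, ← mul_assoc,
        ← algebraMap_eq, ← map_mul, mul_inv_cancel₀ (hβ i), map_one, one_mul, AlgHom.id_apply]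
    have h2 := DFunLike.congr_fun this p
    simpa using h2
  obtain ⟨α, h, hαh⟩ := fermat_unweighted hn hd (fun j => C (β j)⁻¹ * s (γ j)) (by
    intro j
    have h1 := (hγ j).aeval (fun i => C (β i) * X i) (fun i => by
      have := (isHomogeneous_C (Fin (n + 1)) (β i)).mul (isHomogeneous_X ℂ i)
      simpa using this)
    rw [one_mul] at h1
    have h2 := (isHomogeneous_C (Fin (n + 1)) (β j)⁻¹).mul h1
    rw [zero_add] at h2
    exact h2) (by
    intro a ha i j
    have hev : ∀ p, eval a (s p) = eval (fun i => β i * a i) p := by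
      intro p
      induction p using MvPolynomial.induction_on with
      | C r => rw [algHom_C, algebraMap_eq, eval_C, eval_C]
      | add p q hp hq => rw [map_add, map_add, hp, hq, map_add]
      | mul_X p i hp => rw [map_mul, map_mul, hp, hs, aeval_X, map_mul, map_mul, eval_C, eval_X, eval_X]
    simp only [map_mul, eval_C, hev]
    have h1 := hv (fun i => β i * a i) (by
      intro i
      rw [mul_pow, ha i, show d - 1 = d - 2 + 1 by omega, pow_succ]
      ring) i j
    have hi := hβ i
    have hj := hβ j
    field_simp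
    linear_combination h1)
  refine ⟨α, s' h, fun j => ?_⟩
  have h1 : γ j = s' (C (β j) * (C (β j)⁻¹ * s (γ j))) := by
    rw [← mul_assoc, ← C_mul, mul_inv_cancel₀ (hβ j), C_1, one_mul, hss]
  rw [h1, hαh j, map_mul, map_add, map_mul, map_mul, map_pow, algHom_C, algHom_C]
  have h2 : s' (X j) = C (β j)⁻¹ * X j := by rw [hs', aeval_X]
  rw [h2, algebraMap_eq]
  have h3 : (C (β j) * C (β j)⁻¹ : MvPolynomial (Fin (n + 1)) ℂ) = 1 := by
    rw [← C_mul, mul_inv_cancel₀ (hβ j), C_1]
  have h4 : (C (α * (β j ^ (d - 2))⁻¹) : MvPolynomial (Fin (n + 1)) ℂ) =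
      C α * (C (β j)⁻¹) ^ (d - 2) := by
    rw [C_mul, ← inv_pow, C_pow]
  rw [h4, mul_pow, show d - 1 = d - 2 + 1 by omega, pow_succ (C (β j)⁻¹)]
  linear_combination (C α * (C (β j)⁻¹) ^ (d - 2) * X j ^ (d - 2 + 1) + s' h * X j) * h3

end Pool.Agent.R840.EC
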