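import Pool.Agent.R840.EC.Alg

set_option autoImplicit false

namespace Pool.Agent.R840.EC

open Finset MvPolynomial Module

variable {n d r : ℕ}

/-- variables -/
abbrev Var (n d r : ℕ) : Type := Option (Fin r ⊕ (Fin d × Fin (numEig n d) × Fin (n + 1)))

section natural

variable {R S : Type*} [CommRing R] [CommRing S] [Algebra ℂ R] [Algebra ℂ S]

/-- the parameters -/
def vth {R : Type*} (z : Var n d r → R) : Fin r → R := fun i => z (some (Sum.inl i))

/-- the points -/
def vp {R : Type*} (z : Var n d r → R) (k : Fin d) (i : Fin (numEig n d)) (j : Fin (n + 1)) : R :=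
  z (some (Sum.inr (k, i, j)))

/-- the minor equations -/
noncomputable def mnP (e : Fin (r + 1) → Ten n d) (b : Fin (r + 1)) (k : Fin d)
    (i : Fin (numEig n d)) (j j' : Fin (n + 1)) (z : Var n d r → R) : R :=
  vp z k i j * contract (slice e b (vth z)) k (vp z k i) j' -
    vp z k i j' * contract (slice e b (vth z)) k (vp z k i) j

/-- the open condition -/
noncomputable def dlP (e : Fin (r + 1) → Ten n d) (b : Fin (r + 1))
    (g : MvPolynomial (Fin d → Fin (n + 1)) ℂ) (l : Fin d → Fin (n + 1) → ℂ)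
    (z : Var n d r → R) : R :=
  z none * (aeval (slice e b (vth z)) g *
    ∏ k, ∏ i, ∑ j, algebraMap ℂ R (l k j) * vp z k i j) - 1

/-- the Chow coordinates -/
noncomputable def chP (z : Var n d r → R) (x : Idx n d) : R := coeff x.2.1 (chowR (vp z x.1))

theorem nat_slice (φ : R →ₐ[ℂ] S) (e : Fin (r + 1) → Ten n d) (b : Fin (r + 1))
    (z : Var n d r → R) (I : Fin d → Fin (n + 1)) :
    φ (slice e b (vth z) I) = slice e b (vth fun v => φ (z v)) I :=
  map_slice φ e b (vth z) I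

theorem nat_contract (φ : R →ₐ[ℂ] S) (T : (Fin d → Fin (n + 1)) → R) (k : Fin d)
    (v : Fin (n + 1) → R) (j : Fin (n + 1)) :
    φ (contract T k v j) = contract (fun I => φ (T I)) k (fun i => φ (v i)) j :=
  map_contract (φ : R →+* S) T k v j

theorem nat_mnP (φ : R →ₐ[ℂ] S) (e : Fin (r + 1) → Ten n d) (b : Fin (r + 1)) (k : Fin d)
    (i : Fin (numEig n d)) (j j' : Fin (n + 1)) (z : Var n d r → R) :
    φ (mnP e b k i j j' z) = mnP e b k i j j' (fun v => φ (z v)) := by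
  unfold mnP
  rw [map_sub, map_mul, map_mul, nat_contract, nat_contract]
  simp only [nat_slice]
  rfl

theorem nat_dlP (φ : R →ₐ[ℂ] S) (e : Fin (r + 1) → Ten n d) (b : Fin (r + 1))
    (g : MvPolynomial (Fin d → Fin (n + 1)) ℂ) (l : Fin d → Fin (n + 1) → ℂ)
    (z : Var n d r → R) :
    φ (dlP e b g l z) = dlP e b g l (fun v => φ (z v)) := by
  unfold dlP
  rw [map_sub, map_mul, map_mul, map_one, comp_aeval_apply, map_prod]
  simp only [nat_slice, map_prod, map_sum, map_mul, AlgHom.commutes]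
  rfl

theorem nat_chP (φ : R →ₐ[ℂ] S) (z : Var n d r → R) (x : Idx n d) :
    φ (chP z x) = chP (fun v => φ (z v)) x := by
  unfold chP
  have h := coeff_map (φ : R →+* S) (chowR (vp z x.1)) x.2.1
  rw [map_chowR] at h
  exact h.symm

end natural

theorem exists_good (hn : 1 ≤ n) (hd : 3 ≤ d) {S : Set (Config n d)}
    (hS : S ⊆ finiteConfigs n d) (r : ℕ)
    (hr : (r + 1) + finrank ℂ (kerL n d) = finrank ℂ (Ten n d)) {R' : ℕ}
    (f : Fin R' → MvPolynomial (Idx n d) ℂ)
    (hf : ∀ Q : MvPolynomial (Fin R') ℂ, Q ≠ 0 → ∃ c ∈ cone S, eval (fun l => eval c (f l)) Q ≠ 0) :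
    ∃ (e : Fin (r + 1) → Ten n d) (b : Fin (r + 1)) (g : MvPolynomial (Fin d → Fin (n + 1)) ℂ)
      (l : Fin d → Fin (n + 1) → ℂ), (∀ k, Cert k (l k) g) ∧
      ∀ Q : MvPolynomial (Fin R') ℂ, Q ≠ 0 → ∃ z : Var n d r → ℂ,
        (∀ k i j j', mnP e b k i j j' z = 0) ∧ dlP e b g l z = 0 ∧
        eval (fun l => eval (chP z) (f l)) Q ≠ 0 := by
  obtain ⟨e, he⟩ := slices hn hd r hr
  obtain ⟨t, ht1, ht2⟩ := finite_cover n hd
  choose lg hlg using ht1
  by_contra hcon
  have h1 : ∀ (b : Fin (r + 1)) (g : t), ∃ Q : MvPolynomial (Fin R') ℂ, Q ≠ 0 ∧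
      ∀ z : Var n d r → ℂ, (∀ k i j j', mnP e b k i j j' z = 0) →
        dlP e b g.1 (lg g.1 g.2) z = 0 → eval (fun l => eval (chP z) (f l)) Q = 0 := by
    intro b g
    by_contra hno
    push Not at hno
    exact hcon ⟨e, b, g.1, lg g.1 g.2, hlg g.1 g.2, hno⟩
  choose Q hQ0 hQ using h1
  have hprod : ∏ b, ∏ g : t, Q b g ≠ 0 := by
    rw [prod_ne_zero_iff]
    intro b _
    rw [prod_ne_zero_iff]
    intro g _
    exact hQ0 b g
  obtain ⟨c, ⟨X, hX, p, hp, hXp, hc⟩, hc2⟩ := hf _ hprod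
  obtain ⟨T, hT⟩ := hS hX
  obtain ⟨b, θ, hbθ⟩ := he T fun k => (hT k).1
  have hfin : ∀ k, (eigenpoints (slice e b θ) k).Finite := by
    intro k
    rw [← hbθ k]
    exact (hT k).1
  obtain ⟨g, hg, hgne⟩ := ht2 _ hfin
  have hmin : ∀ k i j j', p k i j * contract (slice e b θ) k (p k i) j' =
      p k i j' * contract (slice e b θ) k (p k i) j := by
    intro k i
    rw [← mk_mem_eigenpoints (by omega) _ k (p k i) (hp k i), ← hbθ k]
    apply (hT k).2
    show _ ∈ (X k : Multiset (Projectivization ℂ (Fin (n + 1) → ℂ)))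
    rw [hXp k, Multiset.mem_map]
    exact ⟨i, Finset.mem_def.1 (mem_univ i), rfl⟩
  have hne : ∀ k i, ∑ j, algebraMap ℂ ℂ (lg g hg k j) * p k i j ≠ 0 := by
    intro k i
    exact (hlg g hg k ℂ ℂ (slice e b θ) (p k i) hgne (hp k i) (hmin k i)).1
  set w : ℂ := aeval (slice e b θ) g *
    ∏ k, ∏ i, ∑ j, algebraMap ℂ ℂ (lg g hg k j) * p k i j with hw
  have hw0 : w ≠ 0 := by
    refine mul_ne_zero hgne ?_
    rw [prod_ne_zero_iff]
    intro k _
    rw [prod_ne_zero_iff]
    intro i _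
    exact hne k i
  set z : Var n d r → ℂ := fun v =>
    match v with
    | none => w⁻¹
    | some (Sum.inl i) => θ i
    | some (Sum.inr x) => p x.1 x.2.1 x.2.2 with hz
  have hzth : vth z = θ := rfl
  have hzp : vp z = p := rfl
  have h2 := hQ b ⟨g, hg⟩ z (by
    intro k i j j'
    unfold mnP
    rw [hzth, hzp, hmin k i j j', sub_self]) (by
    unfold dlP
    rw [hzth, hzp]
    show w⁻¹ * w - 1 = 0
    rw [inv_mul_cancel₀ hw0, sub_self])
  apply hc2
  have hcz : chP z = c := by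
    funext x
    rw [hc x]
    rfl
  rw [hcz] at h2
  rw [map_prod]
  refine prod_eq_zero (mem_univ b) ?_
  rw [map_prod]
  exact prod_eq_zero (mem_univ (⟨g, hg⟩ : t)) h2

end Pool.Agent.R840.EC
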