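import Pool.Agent.R840.EC.Basic

set_option autoImplicit false

namespace Pool.Agent.R840.EC

open Finset MvPolynomial

variable {n d : ℕ}

/-- the exponent `b` reduced modulo the relation `a ^ (d - 1) = a` -/
def red (d b : ℕ) : ℕ := if b = 0 then 0 else (b - 1) % (d - 2) + 1

theorem red_zero (d : ℕ) : red d 0 = 0 := by simp [red]

theorem red_lt (hd : 3 ≤ d) (b : ℕ) : red d b < d - 1 := by
  unfold red
  split_ifs
  · omega
  · have := Nat.mod_lt (b - 1) (show 0 < d - 2 by omega)
    omega

theorem pow_red (hd : 3 ≤ d) {a : ℂ} (ha : a ^ (d - 1) = a) (b : ℕ) : a ^ red d b = a ^ b := by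
  unfold red
  split_ifs with hb
  · rw [hb]
  · by_cases h0 : a = 0
    · rw [h0, zero_pow (by omega), zero_pow hb]
    · have h1 : a ^ (d - 2) = 1 := by
        have : a ^ (d - 2) * a = 1 * a := by
          rw [← pow_succ, show d - 2 + 1 = d - 1 by omega, ha, one_mul]
        exact mul_right_cancel₀ h0 this
      have h2 : b = (d - 2) * ((b - 1) / (d - 2)) + ((b - 1) % (d - 2) + 1) := by
        have := Nat.div_add_mod (b - 1) (d - 2)
        omega
      have h3 : a ^ b = a ^ ((d - 2) * ((b - 1) / (d - 2)) + ((b - 1) % (d - 2) + 1)) :=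
        congrArg (fun t => a ^ t) h2
      rw [h3, pow_add a ((d - 2) * ((b - 1) / (d - 2))), pow_mul, h1, one_pow, one_mul]

theorem red_eq_imp (hd : 3 ≤ d) {x y : ℕ} (h : red d x = red d y) (hxy : y < x) :
    1 ≤ y ∧ d - 1 ≤ x := by
  unfold red at h
  have hx : x ≠ 0 := by omega
  rw [if_neg hx] at h
  split_ifs at h with hy
  have h3 : (x - 1) % (d - 2) = (y - 1) % (d - 2) := by omega
  have h4 : (y - 1) ≡ (x - 1) [MOD (d - 2)] := h3.symm
  have h5 := (Nat.modEq_iff_dvd' (show y - 1 ≤ x - 1 by omega)).1 h4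
  have h6 := Nat.le_of_dvd (by omega) h5
  omega

/-- the grid `{0} ∪ μ_{d-2}` -/
noncomputable def grid (d : ℕ) : Finset ℂ := insert 0 (Polynomial.nthRootsFinset (d - 2) 1)

theorem mem_grid (hd : 3 ≤ d) {a : ℂ} : a ∈ grid d ↔ a ^ (d - 1) = a := by
  unfold grid
  rw [mem_insert, Polynomial.mem_nthRootsFinset (by omega)]
  constructor
  · rintro (h | h)
    · rw [h, zero_pow (by omega)]
    · rw [show d - 1 = d - 2 + 1 by omega, pow_succ, h, one_mul]
  · intro h
    by_cases h0 : a = 0
    · exact Or.inl h0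
    · right
      have : a ^ (d - 2) * a = 1 * a := by
        rw [← pow_succ, show d - 2 + 1 = d - 1 by omega, h, one_mul]
      exact mul_right_cancel₀ h0 this

theorem card_grid (hd : 3 ≤ d) : #(grid d) = d - 1 := by
  unfold grid
  rw [card_insert_of_notMem, (Complex.isPrimitiveRoot_exp (d - 2) (by omega)).card_nthRootsFinset]
  · omega
  · rw [Polynomial.mem_nthRootsFinset (by omega), zero_pow (by omega)]
    exact zero_ne_one

/-- reduced exponent vector -/
noncomputable def redF (d : ℕ) (b : Fin (n + 1) →₀ ℕ) : Fin (n + 1) →₀ ℕ :=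
  b.mapRange (red d) (red_zero d)

theorem coeff_sum_zero (hd : 3 ≤ d) {P : MvPolynomial (Fin (n + 1)) ℂ}
    (hP : ∀ a : Fin (n + 1) → ℂ, (∀ i, a i ^ (d - 1) = a i) → eval a P = 0)
    (c : Fin (n + 1) →₀ ℕ) :
    ∑ b ∈ P.support with redF d b = c, coeff b P = 0 := by
  set Q : MvPolynomial (Fin (n + 1)) ℂ := ∑ b ∈ P.support, monomial (redF d b) (coeff b P) with hQ
  have hQ0 : Q = 0 := by
    refine eq_zero_of_eval_zero_at_prod_finset Q (fun _ => grid d) ?_ ?_
    · intro i
      rw [card_grid hd]
      refine lt_of_le_of_lt (degreeOf_sum_le i P.support _) ?_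
      rw [Finset.sup_lt_iff (by show 0 < d - 1; omega)]
      intro b hb
      refine lt_of_le_of_lt (degreeOf_le_iff.2 ?_) (red_lt hd (b i))
      intro e he
      have := support_monomial_subset he
      rw [mem_singleton] at this
      rw [this]
      simp [redF]
    · intro x hx
      have hx' : ∀ i, x i ^ (d - 1) = x i := fun i => (mem_grid hd).1 (hx i)
      rw [← hP x hx', hQ, map_sum, eval_eq]
      refine sum_congr rfl fun b _ => ?_
      rw [eval_monomial]
      congr 1
      rw [Finsupp.prod_fintype _ _ (fun i => pow_zero _)]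
      refine Eq.symm ?_
      rw [← Finset.prod_subset (Finset.subset_univ b.support)]
      · refine prod_congr rfl fun i _ => ?_
        simp [redF, pow_red hd (hx' i)]
      · intro i _ hi
        rw [Finsupp.notMem_support_iff] at hi
        simp [redF, hi, red_zero]
  have h1 := congrArg (coeff c) hQ0
  rw [hQ, coeff_sum, coeff_zero] at h1
  simp_rw [coeff_monomial] at h1
  rw [← h1, sum_filter]

theorem red_pair (hd : 3 ≤ d) {b b' : Fin (n + 1) →₀ ℕ} (hb : ∑ j, b j = d)
    (hb' : ∑ j, b' j = d) (h : redF d b = redF d b') (hne : b ≠ b') :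
    ∃ k l, k ≠ l ∧ b = Finsupp.single k (d - 1) + Finsupp.single l 1 ∧
      b' = Finsupp.single l (d - 1) + Finsupp.single k 1 := by
  have hr : ∀ i, red d (b i) = red d (b' i) := fun i => by
    have := DFunLike.congr_fun h i
    simpa [redF] using this
  have h1 : ∃ k, b' k < b k := by
    by_contra hcon
    push Not at hcon
    have hlt : ∑ j, b j < ∑ j, b' j := by
      refine sum_lt_sum (fun j _ => hcon j) ?_
      by_contra hc2
      push Not at hc2
      apply hne
      ext j
      exact le_antisymm (hcon j) (hc2 j (mem_univ j))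
    omega
  have h2 : ∃ l, b l < b' l := by
    by_contra hcon
    push Not at hcon
    have hlt : ∑ j, b' j < ∑ j, b j := by
      refine sum_lt_sum (fun j _ => hcon j) ?_
      by_contra hc2
      push Not at hc2
      apply hne
      ext j
      exact le_antisymm (hc2 j (mem_univ j)) (hcon j)
    omega
  obtain ⟨k, hk⟩ := h1
  obtain ⟨l, hl⟩ := h2
  obtain ⟨hk1, hk2⟩ := red_eq_imp hd (hr k) hk
  obtain ⟨hl1, hl2⟩ := red_eq_imp hd (hr l).symm hl
  have hkl : k ≠ l := by
    rintro rfl
    omega
  have split : ∀ c : Fin (n + 1) →₀ ℕ, ∑ j, c j = c k + (c l + ∑ j ∈ (univ.erase k).erase l, c j) := by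
    intro c
    rw [← add_sum_erase univ _ (mem_univ k), ← add_sum_erase (univ.erase k) _
      (mem_erase.2 ⟨hkl.symm, mem_univ l⟩)]
  have e1 := split b
  have e2 := split b'
  have z1 : ∀ j, j ≠ k → j ≠ l → b j = 0 := by
    have h0 : ∑ j ∈ (univ.erase k).erase l, b j = 0 := by omega
    intro j hj1 hj2
    exact (sum_eq_zero_iff.1 h0) j (mem_erase.2 ⟨hj2, mem_erase.2 ⟨hj1, mem_univ j⟩⟩)
  have z2 : ∀ j, j ≠ k → j ≠ l → b' j = 0 := by
    have h0 : ∑ j ∈ (univ.erase k).erase l, b' j = 0 := by omega
    intro j hj1 hj2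
    exact (sum_eq_zero_iff.1 h0) j (mem_erase.2 ⟨hj2, mem_erase.2 ⟨hj1, mem_univ j⟩⟩)
  refine ⟨k, l, hkl, ?_, ?_⟩
  · ext j
    rw [Finsupp.add_apply, Finsupp.single_apply, Finsupp.single_apply]
    by_cases hjk : j = k
    · subst hjk
      rw [if_pos rfl, if_neg hkl.symm]
      omega
    · by_cases hjl : j = l
      · subst hjl
        rw [if_neg hkl, if_pos rfl]
        omega
      · rw [if_neg (Ne.symm hjk), if_neg (Ne.symm hjl), z1 j hjk hjl]
        rfl
  · ext j
    rw [Finsupp.add_apply, Finsupp.single_apply, Finsupp.single_apply]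
    by_cases hjk : j = k
    · subst hjk
      rw [if_neg hkl.symm, if_pos rfl]
      omega
    · by_cases hjl : j = l
      · subst hjl
        rw [if_pos rfl, if_neg hkl]
        omega
      · rw [if_neg (Ne.symm hjl), if_neg (Ne.symm hjk), z2 j hjk hjl]
        rfl

theorem redF_swap (hd : 3 ≤ d) {k l : Fin (n + 1)} (hkl : k ≠ l) :
    redF d (Finsupp.single k (d - 1) + Finsupp.single l 1) =
      redF d (Finsupp.single l (d - 1) + Finsupp.single k 1) := by
  have h1 : red d (d - 1) = 1 := by
    unfold red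
    rw [if_neg (by omega), show d - 1 - 1 = d - 2 by omega, Nat.mod_self]
  have h2 : red d 1 = 1 := by
    unfold red
    simp
  ext j
  simp only [redF, Finsupp.mapRange_apply, Finsupp.add_apply, Finsupp.single_apply]
  by_cases hjk : k = j
  · subst hjk
    rw [if_pos rfl, if_neg hkl.symm, if_neg hkl.symm, if_pos rfl]
    simp [h1, h2]
  · by_cases hjl : l = j
    · subst hjl
      rw [if_neg hjk, if_pos rfl, if_pos rfl, if_neg hjk]
      simp [h1, h2]
    · rw [if_neg hjk, if_neg hjl, if_neg hjl, if_neg hjk]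

/-- coefficient of a form vanishing on the grid, at an exponent which is not of the shape
`(d - 1) e_k + e_l` -/
theorem coeff_nonspecial (hd : 3 ≤ d) {P : MvPolynomial (Fin (n + 1)) ℂ}
    (hh : P.IsHomogeneous d)
    (hP : ∀ a : Fin (n + 1) → ℂ, (∀ i, a i ^ (d - 1) = a i) → eval a P = 0)
    (b : Fin (n + 1) →₀ ℕ)
    (hb : ∀ k l, k ≠ l → b ≠ Finsupp.single k (d - 1) + Finsupp.single l 1) :
    coeff b P = 0 := by
  by_contra hne
  have hdeg : ∀ c, coeff c P ≠ 0 → ∑ j, c j = d := by
    intro c hc
    by_contra hne'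
    exact hc (hh.coeff_eq_zero (by rwa [Finsupp.degree_eq_sum]))
  have hs := coeff_sum_zero hd hP (redF d b)
  rw [sum_eq_single b] at hs
  · exact hne hs
  · intro c hc hcb
    rw [mem_filter, mem_support_iff] at hc
    exfalso
    obtain ⟨k, l, hkl, h1, h2⟩ := red_pair hd (hdeg b hne) (hdeg c hc.1) hc.2.symm hcb.symm
    exact hb k l hkl h1
  · intro hc
    rw [mem_filter, mem_support_iff] at hc
    exact absurd ⟨hne, rfl⟩ hc

theorem coeff_special (hd : 3 ≤ d) {P : MvPolynomial (Fin (n + 1)) ℂ}
    (hh : P.IsHomogeneous d)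
    (hP : ∀ a : Fin (n + 1) → ℂ, (∀ i, a i ^ (d - 1) = a i) → eval a P = 0)
    {k l : Fin (n + 1)} (hkl : k ≠ l) :
    coeff (Finsupp.single k (d - 1) + Finsupp.single l 1) P +
      coeff (Finsupp.single l (d - 1) + Finsupp.single k 1) P = 0 := by
  have hdeg : ∀ c, coeff c P ≠ 0 → ∑ j, c j = d := by
    intro c hc
    by_contra hne'
    exact hc (hh.coeff_eq_zero (by rwa [Finsupp.degree_eq_sum]))
  set b := (Finsupp.single k (d - 1) + Finsupp.single l 1 : Fin (n + 1) →₀ ℕ) with hb
  set b' := (Finsupp.single l (d - 1) + Finsupp.single k 1 : Fin (n + 1) →₀ ℕ) with hb'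
  have hbb : b ≠ b' := by
    intro h
    have := DFunLike.congr_fun h k
    rw [hb, hb'] at this
    simp only [Finsupp.add_apply, Finsupp.single_apply, if_true, if_neg hkl.symm] at this
    omega
  have hs := coeff_sum_zero hd hP (redF d b)
  have key : ∑ c ∈ P.support with redF d c = redF d b, coeff c P = ∑ c ∈ {b, b'}, coeff c P := by
    refine Finset.sum_subset_zero_on_sdiff ?_ ?_ (fun _ _ => rfl)
    · intro c hc
      rw [mem_filter, mem_support_iff] at hc
      rw [mem_insert, mem_singleton]
      by_contra hcon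
      push Not at hcon
      have hdc := hdeg c hc.1
      have hdb : ∑ j, b j = d := by
        have : ∑ j, b j = b.degree := (Finsupp.degree_eq_sum b).symm
        rw [this, hb, map_add, Finsupp.degree_single, Finsupp.degree_single]
        omega
      obtain ⟨k', l', _, h1, h2⟩ := red_pair hd hdc hdb hc.2 hcon.1
      have hk' : l' = k := by
        have := DFunLike.congr_fun h2 l'
        rw [hb] at this
        simp only [Finsupp.add_apply, Finsupp.single_apply, if_true] at this
        by_contra hne
        rw [if_neg (Ne.symm hne)] at this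
        split_ifs at this <;> omega
      have hl' : k' = l := by
        have := DFunLike.congr_fun h2 l
        rw [hb, hk'] at this
        simp only [Finsupp.add_apply, Finsupp.single_apply, if_neg hkl, if_true] at this
        by_contra hne
        rw [if_neg hne] at this
        omega
      exact hcon.2 (by rw [h1, hb', hk', hl'])
    · intro c hc
      rw [mem_sdiff, mem_filter, mem_support_iff, mem_insert, mem_singleton] at hc
      by_contra hne
      apply hc.2
      refine ⟨hne, ?_⟩
      rcases hc.1 with h | h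
      · rw [h]
      · rw [h, hb', hb, redF_swap hd hkl]
  rw [key, sum_pair hbb] at hs
  exact hs

end Pool.Agent.R840.EC
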