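import Pool.Agent.R840.EC.Theta

set_option autoImplicit false

namespace Pool.Agent.R840.EC

open Finset MvPolynomial Module

variable {n d m : ℕ}

/-- the quadratic form -/
noncomputable def qf (n : ℕ) : MvPolynomial (Fin (n + 1)) ℂ := ∑ i, X i * X i

theorem qf_ne_zero (n : ℕ) : qf n ≠ 0 := by
  intro h
  have h1 := congrArg (eval (Pi.single 0 1 : Fin (n + 1) → ℂ)) h
  rw [qf, map_sum, map_zero] at h1
  simp only [map_mul, eval_X] at h1
  rw [Fin.sum_univ_succ] at h1
  simp at h1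

theorem qf_homogeneous (n : ℕ) : (qf n).IsHomogeneous 2 := by
  unfold qf
  exact IsHomogeneous.sum _ _ _ fun i _ => (isHomogeneous_X ℂ i).mul (isHomogeneous_X ℂ i)

theorem pderiv_qf (j : Fin (n + 1)) : pderiv j (qf n) = 2 * X j := by
  unfold qf
  rw [map_sum, sum_eq_single j]
  · rw [pderiv_mul, pderiv_X_self]
    ring
  · intro i _ hi
    rw [pderiv_mul, pderiv_X_of_ne hi, zero_mul, mul_zero, add_zero]
  · intro h
    exact absurd (mem_univ _) h

theorem homogeneous_of_X_mul {p : MvPolynomial (Fin (n + 1)) ℂ} {e : ℕ} (j : Fin (n + 1))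
    (h : (X j * p).IsHomogeneous (e + 1)) : p.IsHomogeneous e := by
  intro a ha
  have h1 : coeff (Finsupp.single j 1 + a) (X j * p) ≠ 0 := by rwa [coeff_X_mul]
  have h2 := h h1
  rw [map_add] at h2
  have h3 : Finsupp.weight (1 : Fin (n + 1) → ℕ) (Finsupp.single j 1) = 1 := by
    rw [Finsupp.weight_single]
    rfl
  rw [h3] at h2
  omega

theorem zero_of_X_mul_homogeneous_zero {p : MvPolynomial (Fin (n + 1)) ℂ} (j : Fin (n + 1))
    (h : (X j * p).IsHomogeneous 0) : p = 0 := by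
  by_contra hp
  obtain ⟨a, ha⟩ := exists_coeff_ne_zero hp
  have h1 : coeff (Finsupp.single j 1 + a) (X j * p) ≠ 0 := by rwa [coeff_X_mul]
  have h2 := h h1
  rw [map_add] at h2
  have h3 : Finsupp.weight (1 : Fin (n + 1) → ℕ) (Finsupp.single j 1) = 1 := by
    rw [Finsupp.weight_single]
    rfl
  rw [h3] at h2
  omega

/-- a form whose gradient is radial -/
theorem radial (hn : 1 ≤ n) {h : MvPolynomial (Fin (n + 1)) ℂ} {e : ℕ}
    (hq : ∀ j, (e : MvPolynomial (Fin (n + 1)) ℂ) * h * X j = qf n * pderiv j h) :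
    ∃ h', ∀ j, pderiv j h = X j * h' := by
  have hcross : ∀ i j, X i * pderiv j h = X j * pderiv i h := by
    intro i j
    apply mul_left_cancel₀ (qf_ne_zero n)
    linear_combination X j * hq i - X i * hq j
  have h10 : (1 : Fin (n + 1)) ≠ 0 := by
    intro hcon
    have := congrArg Fin.val hcon
    simp at this
    omega
  have hdiv : ∀ i, ∃ p, pderiv i h = X i * p := by
    intro i
    have hex : ∃ j, j ≠ i := by
      by_cases hi : i = 0
      · exact ⟨1, by rw [hi]; exact h10⟩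
      · exact ⟨0, fun h => hi h.symm⟩
    obtain ⟨j, hji⟩ := hex
    have h1 : X i ∣ X j * pderiv i h := ⟨pderiv j h, (hcross i j).symm⟩
    rw [X_dvd_mul_iff] at h1
    rcases h1 with h1 | h1
    · rw [X_dvd_X] at h1
      exact absurd h1.symm hji
    · exact h1
  choose p hp using hdiv
  refine ⟨p 0, fun j => ?_⟩
  by_cases hj : j = 0
  · rw [hj]; exact hp 0
  · rw [hp j]
    congr 1
    have h1 := hcross j 0
    rw [hp 0, hp j] at h1
    have h2 : X j * X 0 * p 0 = X j * X 0 * p j := by linear_combination h1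
    exact (mul_left_cancel₀ (mul_ne_zero (X_ne_zero j) (X_ne_zero 0)) h2).symm

theorem sol_space (hn : 1 ≤ n) : ∀ (e : ℕ) (h : MvPolynomial (Fin (n + 1)) ℂ),
    h.IsHomogeneous e →
    (∀ j, (e : MvPolynomial (Fin (n + 1)) ℂ) * h * X j = qf n * pderiv j h) →
    ∃ c : ℂ, h = C c * qf n ^ (e / 2) ∧ (Odd e → h = 0) := by
  intro e
  induction e using Nat.strong_induction_on with
  | _ e ih =>
    intro h hh hq
    rcases Nat.lt_or_ge e 2 with he | he
    · interval_cases e
      · rw [← totalDegree_zero_iff_isHomogeneous, totalDegree_eq_zero_iff_eq_C] at hh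
        refine ⟨coeff 0 h, ?_, fun h => absurd h (by decide)⟩
        rw [hh]
        simp
      · obtain ⟨h', hh'⟩ := radial hn hq
        have h1 : (X 0 * h').IsHomogeneous 0 := by
          rw [← hh' 0]
          exact IsHomogeneous.pderiv hh
        have h2 := zero_of_X_mul_homogeneous_zero 0 h1
        have h3 := hq 0
        rw [hh' 0, h2, mul_zero, mul_zero] at h3
        have h4 : h = 0 := by
          rcases mul_eq_zero.1 h3 with h5 | h5
          · simpa using h5
          · exact absurd h5 (X_ne_zero 0)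
        refine ⟨0, ?_, fun _ => h4⟩
        rw [h4]
        simp
    · obtain ⟨e, rfl⟩ : ∃ e', e = e' + 2 := ⟨e - 2, by omega⟩
      obtain ⟨h', hh'⟩ := radial hn hq
      have h1 : h'.IsHomogeneous e := by
        apply homogeneous_of_X_mul 0
        rw [← hh' 0]
        have := IsHomogeneous.pderiv (i := (0 : Fin (n + 1))) hh
        simpa using this
      have h2 : ((e + 2 : ℕ) : MvPolynomial (Fin (n + 1)) ℂ) * h = qf n * h' := by
        have h3 := hq 0
        rw [hh' 0] at h3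
        apply mul_right_cancel₀ (X_ne_zero (R := ℂ) (0 : Fin (n + 1)))
        linear_combination h3
      have h3 : ∀ j, (e : MvPolynomial (Fin (n + 1)) ℂ) * h' * X j = qf n * pderiv j h' := by
        intro j
        have h4 := congrArg (pderiv j) h2
        rw [pderiv_mul, pderiv_mul, pderiv_qf, hh' j] at h4
        have h5 : pderiv j ((e + 2 : ℕ) : MvPolynomial (Fin (n + 1)) ℂ) = 0 := by
          have : ((e + 2 : ℕ) : MvPolynomial (Fin (n + 1)) ℂ) = C ((e + 2 : ℕ) : ℂ) :=
            (map_natCast C (e + 2)).symm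
          rw [this, pderiv_C]
        rw [h5] at h4
        push_cast at h4
        linear_combination h4
      obtain ⟨c, hc1, hc2⟩ := ih e (by omega) h' h1 h3
      have h0 : ((e + 2 : ℕ) : ℂ) ≠ 0 := by exact_mod_cast (by omega : e + 2 ≠ 0)
      have h6 : h = C (((e + 2 : ℕ) : ℂ)⁻¹) * (qf n * h') := by
        rw [← h2, ← mul_assoc]
        have : ((e + 2 : ℕ) : MvPolynomial (Fin (n + 1)) ℂ) = C ((e + 2 : ℕ) : ℂ) :=
          (map_natCast C (e + 2)).symm
        rw [this, ← C_mul, inv_mul_cancel₀ h0, C_1, one_mul]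
      refine ⟨((e + 2 : ℕ) : ℂ)⁻¹ * c, ?_, ?_⟩
      · rw [h6, hc1, C_mul, show (e + 2) / 2 = e / 2 + 1 by omega, pow_succ]
        ring
      · intro ho
        have : Odd e := by
          rcases ho with ⟨r, hr⟩
          exact ⟨r - 1, by omega⟩
        rw [h6, hc2 this, mul_zero, mul_zero]

/-- tensors whose contractions are radial -/
def kerL (n d : ℕ) : Submodule ℂ (Ten n d) where
  carrier := {T | ∃ h : Fin d → MvPolynomial (Fin (n + 1)) ℂ, ∀ k j, pc T k j = h k * X j}
  add_mem' := by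
    rintro T T' ⟨h, hh⟩ ⟨h', hh'⟩
    refine ⟨fun k => h k + h' k, fun k j => ?_⟩
    rw [pc_add, hh, hh', add_mul]
  zero_mem' := by
    refine ⟨0, fun k j => ?_⟩
    have := pc_smul (0 : ℂ) (0 : Ten n d) k j
    simpa using this
  smul_mem' := by
    rintro c T ⟨h, hh⟩
    refine ⟨fun k => C c * h k, fun k j => ?_⟩
    rw [pc_smul, hh, mul_assoc]

theorem mem_kerL {T : Ten n d} : T ∈ kerL n d ↔
    ∃ h : Fin d → MvPolynomial (Fin (n + 1)) ℂ, ∀ k j, pc T k j = h k * X j := Iff.rfl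

theorem kerG_le_kerL : kerG n d ≤ kerL n d := by
  intro T hT
  exact ⟨0, fun k j => by rw [hT k j]; simp⟩

theorem kerL_struct (hd : 3 ≤ d) {T : Ten n d} {h : Fin d → MvPolynomial (Fin (n + 1)) ℂ}
    (hh : ∀ k j, pc T k j = h k * X j) :
    ∃ h0 : MvPolynomial (Fin (n + 1)) ℂ, (∀ k, h k = h0) ∧ h0.IsHomogeneous (d - 2) ∧
      ∀ j, ((d - 2 : ℕ) : MvPolynomial (Fin (n + 1)) ℂ) * h0 * X j = qf n * pderiv j h0 := by
  have h1 : ∀ k, h k * qf n = pfull T := by
    intro k
    rw [← sum_X_mul_pc T k, qf, mul_sum]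
    refine sum_congr rfl fun j _ => ?_
    rw [hh k j]
    ring
  set k0 : Fin d := ⟨0, by omega⟩ with hk0
  have h2 : ∀ k, h k = h k0 := fun k =>
    mul_right_cancel₀ (qf_ne_zero n) ((h1 k).trans (h1 k0).symm)
  refine ⟨h k0, h2, ?_, ?_⟩
  · apply homogeneous_of_X_mul 0
    rw [show d - 2 + 1 = d - 1 by omega, mul_comm, ← hh]
    exact pc_homogeneous T k0 0
  · intro j
    have h3 := pderiv_pfull T j
    simp_rw [hh, h2] at h3
    rw [← h1 k0, pderiv_mul, pderiv_qf, sum_const, card_univ, Fintype.card_fin, nsmul_eq_mul] at h3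
    have h4 : (d : MvPolynomial (Fin (n + 1)) ℂ) = ((d - 2 : ℕ) : MvPolynomial (Fin (n + 1)) ℂ) + 2 := by
      have : d = (d - 2) + 2 := by omega
      exact_mod_cast congrArg (Nat.cast : ℕ → MvPolynomial (Fin (n + 1)) ℂ) this
    rw [h4] at h3
    linear_combination -h3

/-- for even `d` there is a tensor whose contractions are `q^{(d-2)/2} x` -/
theorem exists_radial (e : ℕ) : ∃ T : Ten n (2 * e + 1 + 1), ∀ k j, pc T k j = qf n ^ e * X j := by
  have hF : (qf n ^ (e + 1)).IsHomogeneous (2 * e + 1 + 1) := by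
    have := (qf_homogeneous n).pow (e + 1)
    rwa [show 2 * (e + 1) = 2 * e + 1 + 1 by ring] at this
  obtain ⟨T, hT⟩ := theta_surjective n (2 * e + 1) (⟨qf n ^ (e + 1), hF⟩, 0)
  refine ⟨T, fun k j => ?_⟩
  have h1 : pfullH T = ⟨qf n ^ (e + 1), hF⟩ := by
    rw [← theta_fst, hT]
  have h2 : pcH T k - grd n (2 * e + 1) (pfullH T) = 0 := by
    rw [← theta_snd, hT]
    rfl
  have h3 := congrArg Subtype.val (congrFun h2 j)
  have h4 : pc T k j = ((2 * e + 1 + 1 : ℕ) : ℂ)⁻¹ • pderiv j (qf n ^ (e + 1)) := by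
    have h5 : pc T k j - ((2 * e + 1 + 1 : ℕ) : ℂ)⁻¹ • pderiv j (pfull T) = 0 := h3
    have h6 : pfull T = qf n ^ (e + 1) := congrArg Subtype.val h1
    rw [h6] at h5
    exact sub_eq_zero.1 h5
  have h0 : ((2 * e + 1 + 1 : ℕ) : ℂ) ≠ 0 := by exact_mod_cast Nat.succ_ne_zero (2 * e + 1)
  rw [h4, pderiv_pow, pderiv_qf, smul_eq_C_mul]
  have h7 : (C (((2 * e + 1 + 1 : ℕ) : ℂ)⁻¹) : MvPolynomial (Fin (n + 1)) ℂ) *
      ((2 * e + 1 + 1 : ℕ) : MvPolynomial (Fin (n + 1)) ℂ) = 1 := by
    have : ((2 * e + 1 + 1 : ℕ) : MvPolynomial (Fin (n + 1)) ℂ) = C ((2 * e + 1 + 1 : ℕ) : ℂ) :=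
      (map_natCast C (2 * e + 1 + 1)).symm
    rw [this, ← C_mul, inv_mul_cancel₀ h0, C_1]
  rw [Nat.add_sub_cancel]
  have h8 : ((2 * e + 1 + 1 : ℕ) : MvPolynomial (Fin (n + 1)) ℂ) =
      ((e + 1 : ℕ) : MvPolynomial (Fin (n + 1)) ℂ) * 2 := by
    push_cast
    ring
  rw [h8] at h7
  linear_combination (qf n ^ e * X j) * h7

/-- the `(0,0)` contraction as a linear map -/
noncomputable def psi (n d : ℕ) (k0 : Fin d) : Ten n d →ₗ[ℂ] MvPolynomial (Fin (n + 1)) ℂ where
  toFun T := pc T k0 0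
  map_add' T T' := pc_add T T' k0 0
  map_smul' c T := by rw [pc_smul, RingHom.id_apply, smul_eq_C_mul]

theorem finrank_kerL (hn : 1 ≤ n) (hd : 3 ≤ d) :
    finrank ℂ (kerL n d) = finrank ℂ (kerG n d) + if Even d then 1 else 0 := by
  set k0 : Fin d := ⟨0, by omega⟩ with hk0
  have h1 := LinearMap.finrank_range_add_finrank_ker ((psi n d k0).domRestrict (kerL n d))
  have hker : LinearMap.ker ((psi n d k0).domRestrict (kerL n d)) =
      (kerG n d).comap (kerL n d).subtype := by
    ext ⟨T, hT⟩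
    rw [LinearMap.mem_ker, Submodule.mem_comap, LinearMap.domRestrict_apply]
    obtain ⟨h, hh⟩ := hT
    obtain ⟨h0, hh0, _, _⟩ := kerL_struct hd hh
    constructor
    · intro hp
      have h2 : h k0 * X 0 = 0 := by
        rw [← hh]
        exact hp
      have h3 : h0 = 0 := by
        rw [← hh0 k0]
        exact (mul_eq_zero.1 h2).resolve_right (X_ne_zero 0)
      show T ∈ kerG n d
      intro k j
      rw [hh, hh0, h3, zero_mul]
    · intro hp
      exact hp k0 0
  have hk : finrank ℂ (LinearMap.ker ((psi n d k0).domRestrict (kerL n d))) =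
      finrank ℂ (kerG n d) := by
    rw [hker]
    exact (Submodule.comapSubtypeEquivOfLe (kerG_le_kerL (n := n) (d := d))).finrank_eq
  rw [hk] at h1
  have hr : finrank ℂ (LinearMap.range ((psi n d k0).domRestrict (kerL n d))) =
      if Even d then 1 else 0 := by
    have hmem : ∀ x ∈ LinearMap.range ((psi n d k0).domRestrict (kerL n d)),
        ∃ c : ℂ, x = c • (qf n ^ ((d - 2) / 2) * X 0) ∧ (Odd (d - 2) → x = 0) := by
      rintro x ⟨⟨T, hT⟩, rfl⟩
      obtain ⟨h, hh⟩ := hT
      obtain ⟨h0, hh0, hh1, hh2⟩ := kerL_struct hd hh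
      obtain ⟨c, hc1, hc2⟩ := sol_space hn (d - 2) h0 hh1 hh2
      have h3 : (psi n d k0).domRestrict (kerL n d) ⟨T, ⟨h, hh⟩⟩ = h0 * X 0 := by
        show pc T k0 0 = _
        rw [hh, hh0]
      refine ⟨c, ?_, ?_⟩
      · rw [h3, hc1, smul_eq_C_mul, mul_assoc]
      · intro ho
        rw [h3, hc2 ho, zero_mul]
    split_ifs with hev
    · obtain ⟨e, rfl⟩ : ∃ e, d = 2 * e + 1 + 1 := by
        obtain ⟨r, hr⟩ := hev
        exact ⟨r - 1, by omega⟩
      have heq : LinearMap.range ((psi n (2 * e + 1 + 1) k0).domRestrict (kerL n (2 * e + 1 + 1))) =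
          Submodule.span ℂ {qf n ^ e * X 0} := by
        apply le_antisymm
        · intro x hx
          obtain ⟨c, hc, _⟩ := hmem x hx
          rw [hc, show (2 * e + 1 + 1 - 2) / 2 = e by omega]
          exact Submodule.smul_mem _ _ (Submodule.mem_span_singleton_self _)
        · rw [Submodule.span_singleton_le_iff_mem]
          obtain ⟨T, hT⟩ := exists_radial (n := n) e
          exact ⟨⟨T, ⟨fun _ => qf n ^ e, fun k j => hT k j⟩⟩, hT k0 0⟩
      rw [heq]
      exact finrank_span_singleton (mul_ne_zero (pow_ne_zero _ (qf_ne_zero n)) (X_ne_zero 0))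
    · have heq : LinearMap.range ((psi n d k0).domRestrict (kerL n d)) = ⊥ := by
        rw [eq_bot_iff]
        intro x hx
        obtain ⟨c, _, hc⟩ := hmem x hx
        rw [Submodule.mem_bot]
        apply hc
        rw [Nat.not_even_iff_odd] at hev
        obtain ⟨r, hr⟩ := hev
        exact ⟨r - 1, by omega⟩
      rw [heq, finrank_bot]
  rw [hr] at h1
  omega

/-- The number of parameters. -/
theorem rank_formula (hn : 1 ≤ n) (hd : 3 ≤ d) (ρ : ℕ)
    (hρ : ρ + finrank ℂ (kerL n d) = finrank ℂ (Ten n d)) :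
    ρ + (if Even d then 1 else 0) + (d - 2) * (n + d).choose n =
      (d - 1) * ((n + 1) * (n + d - 1).choose n) := by
  obtain ⟨m, rfl⟩ : ∃ m, d = m + 1 := ⟨d - 1, by omega⟩
  have h1 := finrank_kerL hn hd
  have h2 := finrank_kerG n m
  have h3 := finrank_Y n m
  have h4 : m * (n + (m + 1)).choose n =
      (m + 1 - 2) * (n + (m + 1)).choose n + (n + (m + 1)).choose n := by
    obtain ⟨r, rfl⟩ : ∃ r, m = r + 1 := ⟨m - 1, by omega⟩
    simp only [show r + 1 + 1 - 2 = r by omega]
    ring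
  rw [show n + (m + 1) - 1 = n + m by omega, show m + 1 - 1 = m by omega]
  omega

end Pool.Agent.R840.EC
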