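import Pool.Agent.R840.EC.Near
import Pool.Agent.R840.EC.KerLam

set_option autoImplicit false

namespace Pool.Agent.R840.EC

open Finset MvPolynomial Module

variable {n d : ℕ}

/-- linear form -/
noncomputable def lin (a : Fin (n + 1) → ℂ) : MvPolynomial (Fin (n + 1)) ℂ := ∑ j, C (a j) * X j

theorem eval_lin (a z : Fin (n + 1) → ℂ) : eval z (lin a) = ∑ j, a j * z j := by
  unfold lin
  rw [map_sum]
  refine sum_congr rfl fun j _ => ?_
  rw [map_mul, eval_C, eval_X]

theorem lin_ne_zero {a : Fin (n + 1) → ℂ} (ha : a ≠ 0) : lin a ≠ 0 := by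
  intro h
  apply ha
  funext j
  have h1 := congrArg (eval (Pi.single j 1 : Fin (n + 1) → ℂ)) h
  rw [eval_lin, map_zero, sum_eq_single j] at h1
  · simpa using h1
  · intro i _ hi
    rw [Pi.single_eq_of_ne hi, mul_zero]
  · intro h
    exact absurd (mem_univ _) h

theorem avoid {ι : Type*} (s : Finset ι) (a : ι → Fin (n + 1) → ℂ) (ha : ∀ i ∈ s, a i ≠ 0)
    (b : Fin (n + 1) → ℂ)
    (h : ∀ z : Fin (n + 1) → ℂ, (∑ j, b j * z j) * ∏ i ∈ s, (∑ j, a i j * z j) = 0) : b = 0 := by
  by_contra hb
  have h1 : lin b * ∏ i ∈ s, lin (a i) = 0 := by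
    apply MvPolynomial.funext
    intro z
    rw [map_mul, map_prod, map_zero, eval_lin]
    simp_rw [eval_lin]
    exact h z
  rcases mul_eq_zero.1 h1 with h2 | h2
  · exact lin_ne_zero hb h2
  · rw [prod_eq_zero_iff] at h2
    obtain ⟨i, hi, h3⟩ := h2
    exact lin_ne_zero (ha i hi) h3

/-- derivative of the evaluations of the Chow forms -/
noncomputable def LL (hd : 3 ≤ d) :
    (Ten n d × (Fin d → ℂ)) →ₗ[ℂ] (Fin d × (Fin (n + 1) → ℂ) → ℂ) where
  toFun x := fun z => x.2 z.1 * (∏ i, ∑ j, pt hd i j * z.2 j) +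
    ∑ i, (∑ j, br' hd z.1 i x.1 j * z.2 j) * ∏ i' ∈ univ.erase i, ∑ j, pt hd i' j * z.2 j
  map_add' x x' := by
    funext z
    simp only [Prod.fst_add, Prod.snd_add, Pi.add_apply, map_add, add_mul, sum_add_distrib]
    ring
  map_smul' c x := by
    funext z
    simp only [Prod.smul_fst, Prod.smul_snd, Pi.smul_apply, map_smul, smul_eq_mul,
      RingHom.id_apply, mul_add, mul_sum, sum_mul]
    congr 1
    · ring
    · refine sum_congr rfl fun i _ => sum_congr rfl fun j _ => ?_
      ring

theorem LL_apply (hd : 3 ≤ d) (x : Ten n d × (Fin d → ℂ)) (z : Fin d × (Fin (n + 1) → ℂ)) :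
    LL hd x z = x.2 z.1 * (∏ i, ∑ j, pt hd i j * z.2 j) +
    ∑ i, (∑ j, br' hd z.1 i x.1 j * z.2 j) * ∏ i' ∈ univ.erase i, ∑ j, pt hd i' j * z.2 j := rfl

theorem ker_LL_prop (hd : 3 ≤ d) (x : Ten n d × (Fin d → ℂ)) (hx : LL hd x = 0) (k : Fin d)
    (i : Fin (numEig n d)) : ∃ m : ℂ, ∀ j, br' hd k i x.1 j = m * pt hd i j := by
  obtain ⟨j0, hj0⟩ := Function.ne_iff.1 (pt_ne_zero hd i)
  have hp0 : pt hd i j0 ≠ 0 := hj0
  -- the projection of a vector
  have key : ∀ (a z : Fin (n + 1) → ℂ),
      ∑ j, a j * (pt hd i j0 * z j - if j = j0 then ∑ l, pt hd i l * z l else 0) =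
        ∑ j, (pt hd i j0 * a j - a j0 * pt hd i j) * z j := by
    intro a z
    have h1 : ∀ j, a j * (pt hd i j0 * z j - if j = j0 then ∑ l, pt hd i l * z l else 0) =
        pt hd i j0 * a j * z j - if j = j0 then a j0 * ∑ l, pt hd i l * z l else 0 := by
      intro j
      split_ifs with h
      · rw [h]; ring
      · ring
    simp_rw [h1]
    rw [sum_sub_distrib, sum_ite_eq' univ j0, if_pos (mem_univ _), mul_sum, ← sum_sub_distrib]
    refine sum_congr rfl fun j _ => ?_
    ring
  have h0 : (fun j => pt hd i j0 * br' hd k i x.1 j - br' hd k i x.1 j0 * pt hd i j) = 0 := by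
    apply avoid (univ.erase i)
      (fun i' j => pt hd i j0 * pt hd i' j - pt hd i' j0 * pt hd i j)
    · intro i' hi' h
      obtain ⟨j, j', hjj⟩ := pt_indep hd (mem_erase.1 hi').1
      apply hjj
      have h1 := congrFun h j
      have h2 := congrFun h j'
      simp only [Pi.zero_apply] at h1 h2
      apply mul_left_cancel₀ hp0
      linear_combination pt hd i j' * h1 - pt hd i j * h2
    · intro z
      set y : Fin (n + 1) → ℂ := fun j =>
        pt hd i j0 * z j - if j = j0 then ∑ l, pt hd i l * z l else 0 with hy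
      have h1 := congrFun hx (k, y)
      rw [LL_apply] at h1
      simp only [Pi.zero_apply] at h1
      have h2 : ∀ a : Fin (n + 1) → ℂ, ∑ j, a j * y j =
          ∑ j, (pt hd i j0 * a j - a j0 * pt hd i j) * z j := fun a => key a z
      have h3 : ∑ j, pt hd i j * y j = 0 := by
        rw [h2]
        refine sum_eq_zero fun j _ => ?_
        ring
      rw [prod_eq_zero (mem_univ i) h3, mul_zero, zero_add, sum_eq_single i] at h1
      · rw [h2] at h1
        rw [← h1]
        congr 1
        refine prod_congr rfl fun i' _ => ?_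
        rw [h2]
      · intro i' _ hi'
        rw [prod_eq_zero (mem_erase.2 ⟨fun h => hi' h.symm, mem_univ i⟩) h3, mul_zero]
      · intro h
        exact absurd (mem_univ _) h
  refine ⟨br' hd k i x.1 j0 / pt hd i j0, fun j => ?_⟩
  have h1 := congrFun h0 j
  simp only [Pi.zero_apply] at h1
  field_simp
  linear_combination h1

theorem cc_pt (hd : 3 ≤ d) (i : Fin (numEig n d)) (j : Fin (n + 1)) :
    cc hd i j * pt hd i j = ((d - 2 : ℕ) : ℂ) * pt hd i j := by
  unfold cc
  have h := pt_eq hd i j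
  have h1 : pt hd i j ^ (d - 1) = pt hd i j ^ (d - 1 - 1) * pt hd i j := by
    rw [← pow_succ, show d - 1 - 1 + 1 = d - 1 by omega]
  rw [h1] at h
  have h4 : ((d - 1 : ℕ) : ℂ) = ((d - 2 : ℕ) : ℂ) + 1 := by
    have : d - 1 = (d - 2) + 1 := by omega
    exact_mod_cast congrArg (Nat.cast : ℕ → ℂ) this
  rw [h4]
  linear_combination (((d - 2 : ℕ) : ℂ) + 1) * h

theorem ker_LL_eigen (hd : 3 ≤ d) (x : Ten n d × (Fin d → ℂ)) (hx : LL hd x = 0) (k : Fin d)
    (i : Fin (numEig n d)) (j j' : Fin (n + 1)) :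
    pt hd i j * contract x.1 k (pt hd i) j' = pt hd i j' * contract x.1 k (pt hd i) j := by
  obtain ⟨m, hm⟩ := ker_LL_prop hd x hx k i
  have h1 : ∀ j, contract x.1 k (pt hd i) j = -(m * ((d - 2 : ℕ) : ℂ)) * pt hd i j := by
    intro j
    have h2 := br'_eq hd k i x.1 j
    rw [hm j] at h2
    have h3 := cc_pt hd i j
    linear_combination h2 - m * h3
  rw [h1, h1]
  ring

theorem pc_T0 (k : Fin d) (j : Fin (n + 1)) : pc (T0 n d) k j = C (alp n d j) * X j ^ (d - 1) := by
  apply MvPolynomial.funext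
  intro v
  rw [eval_pc]
  unfold T0
  rw [contract_diag]
  simp

theorem ker_LL (hn : 1 ≤ n) (hd : 3 ≤ d) (x : Ten n d × (Fin d → ℂ)) (hx : LL hd x = 0) :
    ∃ c : ℂ, x.1 - c • T0 n d ∈ kerL n d := by
  have hw : ∀ k : Fin d, ∃ (c : ℂ) (h : MvPolynomial (Fin (n + 1)) ℂ), ∀ j,
      pc x.1 k j = C (c * (bet n j ^ (d - 2))⁻¹) * X j ^ (d - 1) + h * X j := by
    intro k
    apply fermat_weighted hn hd (bet n) bet_ne_zero (fun j => pc x.1 k j)
      (fun j => pc_homogeneous x.1 k j)
    intro v hv i j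
    rw [eval_pc, eval_pc]
    by_cases hv0 : v = 0
    · rw [hv0]
      simp
    · set a : Fin (n + 1) → ℂ := fun j => (bet n j)⁻¹ * v j with ha
      have ha1 : ∀ j, a j ^ (d - 1) = a j := by
        intro j
        have hb := bet_ne_zero (n := n) j
        rw [ha]
        simp only
        rw [mul_pow, hv j, show d - 1 = d - 2 + 1 by omega, pow_succ]
        have hb3 : ((bet n j)⁻¹) ^ (d - 2) * bet n j ^ (d - 2) = 1 := by
          rw [← mul_pow, inv_mul_cancel₀ hb, one_pow]
        linear_combination ((bet n j)⁻¹ * v j) * hb3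
      have ha0 : a ≠ 0 := by
        intro h
        apply hv0
        funext j
        have h1 : (bet n j)⁻¹ * v j = 0 := congrFun h j
        exact (mul_eq_zero.1 h1).resolve_left (inv_ne_zero (bet_ne_zero j))
      obtain ⟨r, hr, c, hc⟩ := exists_rep hd ha1 ha0
      obtain ⟨i0, hi0⟩ := rep_surj hd hr
      have hvp : v = fun j => c * pt hd i0 j := by
        funext j
        have h1 : (bet n j)⁻¹ * v j = c * r j := congrFun hc j
        unfold pt
        rw [hi0]
        have hb := bet_ne_zero (n := n) j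
        field_simp at h1
        linear_combination h1
      rw [hvp]
      simp only [contract_smul_vec]
      linear_combination c * c ^ (d - 1) * ker_LL_eigen hd x hx k i0 i j
  choose c h hch using hw
  have hcomm : ∀ k k', c k = c k' := by
    -- evaluate the full contraction at an isotropic vector
    set v : Fin (n + 1) → ℂ := fun j => if j = 0 then 1 else if j = 1 then Complex.I else 0 with hv
    have h10 : (1 : Fin (n + 1)) ≠ 0 := by
      intro hcon
      have := congrArg Fin.val hcon
      simp at this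
      omega
    have hsum : ∀ f : Fin (n + 1) → ℂ, (∀ j, j ≠ 0 → j ≠ 1 → f j = 0) → ∑ j, f j = f 0 + f 1 := by
      intro f hf
      rw [← sum_subset (subset_univ ({0, 1} : Finset (Fin (n + 1))))]
      · rw [sum_pair h10.symm]
      · intro j _ hj
        rw [mem_insert, mem_singleton] at hj
        push Not at hj
        exact hf j hj.1 hj.2
    have hv0 : v 0 = 1 := by rw [hv]; simp
    have hv1 : v 1 = Complex.I := by rw [hv]; simp [h10]
    have hvj : ∀ j, j ≠ 0 → j ≠ 1 → v j = 0 := by
      intro j h1 h2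
      rw [hv]
      simp [h1, h2]
    have hfull : ∀ k, full x.1 v = c k * (alp n d 0 + alp n d 1 * Complex.I ^ d) := by
      intro k
      rw [← sum_mul_contract x.1 k v]
      have h1 : ∀ j, v j * contract x.1 k v j =
          c k * (alp n d j * v j ^ d) + eval v (h k) * (v j * v j) := by
        intro j
        rw [← eval_pc, hch k j]
        simp only [map_add, map_mul, eval_C, map_pow, eval_X]
        have h2 : v j ^ d = v j * v j ^ (d - 1) := by
          rw [← pow_succ', show d - 1 + 1 = d by omega]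
        rw [h2]
        unfold alp
        ring
      simp_rw [h1]
      rw [sum_add_distrib, ← mul_sum, ← mul_sum]
      rw [hsum (fun j => alp n d j * v j ^ d), hsum (fun j => v j * v j)]
      · rw [hv0, hv1, Complex.I_mul_I]
        simp
      · intro j h1 h2
        rw [hvj j h1 h2, mul_zero]
      · intro j h1 h2
        rw [hvj j h1 h2, zero_pow (by omega), mul_zero]
    have hne : alp n d 0 + alp n d 1 * Complex.I ^ d ≠ 0 := by
      intro hcon
      have h1 : alp n d 1 = 1 := by
        unfold alp bet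
        rw [if_neg h10]
        simp
      have h0 : alp n d 0 = ((2 : ℂ) ^ (d - 2))⁻¹ := by
        unfold alp bet
        rw [if_pos rfl]
      rw [h1, h0, one_mul] at hcon
      have h2 : ‖((2 : ℂ) ^ (d - 2))⁻¹‖ = ‖Complex.I ^ d‖ := by
        rw [eq_neg_of_add_eq_zero_left hcon, norm_neg]
      rw [norm_inv, norm_pow, norm_pow, Complex.norm_I, one_pow] at h2
      have h3 : ‖(2 : ℂ)‖ = 2 := by simp
      rw [h3] at h2
      have h4 : (2 : ℝ) ^ (d - 2) = 1 := by
        rw [← inv_inv ((2 : ℝ) ^ (d - 2)), h2, inv_one]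
      have h5 : (1 : ℝ) < 2 ^ (d - 2) := one_lt_pow₀ (by norm_num) (by omega)
      linarith
    intro k k'
    have h1 := hfull k
    rw [hfull k'] at h1
    exact (mul_right_cancel₀ hne h1).symm
  refine ⟨c ⟨0, by omega⟩, h, fun k j => ?_⟩
  have h1 : pc (x.1 - c ⟨0, by omega⟩ • T0 n d) k j =
      pc x.1 k j - C (c ⟨0, by omega⟩) * pc (T0 n d) k j := by
    rw [sub_eq_add_neg, ← neg_smul, pc_add, pc_smul, C_neg]
    ring
  rw [h1, hch k j, pc_T0, hcomm k ⟨0, by omega⟩, C_mul]
  unfold alp
  ring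

theorem finrank_ker_LL (hn : 1 ≤ n) (hd : 3 ≤ d) :
    finrank ℂ (LinearMap.ker (LL (n := n) hd)) ≤ finrank ℂ (kerL n d) + 1 := by
  have hle : ∀ x ∈ LinearMap.ker (LL (n := n) hd),
      (LinearMap.fst ℂ (Ten n d) (Fin d → ℂ)) x ∈ kerL n d ⊔ Submodule.span ℂ {T0 n d} := by
    intro x hx
    rw [LinearMap.mem_ker] at hx
    obtain ⟨c, hc⟩ := ker_LL hn hd x hx
    rw [Submodule.mem_sup]
    refine ⟨_, hc, c • T0 n d, Submodule.smul_mem _ _ (Submodule.mem_span_singleton_self _), ?_⟩
    rw [sub_add_cancel]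
    rfl
  have h1 : finrank ℂ (LinearMap.ker (LL (n := n) hd)) ≤
      finrank ℂ (kerL n d ⊔ Submodule.span ℂ {T0 n d} : Submodule ℂ (Ten n d)) := by
    apply LinearMap.finrank_le_finrank_of_injective
      (f := (LinearMap.fst ℂ (Ten n d) (Fin d → ℂ)).restrict hle)
    rw [← LinearMap.ker_eq_bot, LinearMap.ker_eq_bot']
    rintro ⟨⟨δ, s⟩, hx⟩ hf
    have hδ : δ = 0 := congrArg Subtype.val hf
    subst hδ
    rw [LinearMap.mem_ker] at hx
    have hs : s = 0 := by
      funext k
      by_contra hsk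
      have h2 : (fun _ : Fin (n + 1) => s k) = 0 := by
        exfalso
        have h3 : ∏ i, lin (pt (n := n) hd i) = 0 := by
          apply MvPolynomial.funext
          intro z
          have h4 := congrFun hx (k, z)
          rw [LL_apply] at h4
          simp only [map_zero, Pi.zero_apply, zero_mul, sum_const_zero, add_zero] at h4
          rw [map_prod, map_zero]
          simp_rw [eval_lin]
          exact (mul_eq_zero.1 h4).resolve_left hsk
        rw [prod_eq_zero_iff] at h3
        obtain ⟨i, _, h5⟩ := h3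
        exact lin_ne_zero (pt_ne_zero hd i) h5
      exact hsk (congrFun h2 0)
    subst hs
    rfl
  refine h1.trans ((Submodule.finrank_add_le_finrank_add_finrank _ _).trans ?_)
  have h2 : finrank ℂ (Submodule.span ℂ {T0 n d}) ≤ 1 := by
    refine (finrank_span_le_card _).trans ?_
    simp
  omega

end Pool.Agent.R840.EC
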