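import Mathlib

set_option autoImplicit false

namespace Pool.Agent.R840.EC

open MvPolynomial

theorem ringKrullDim_of_integral {A B : Type} [CommRing A] [CommRing B] [Algebra A B]
    [Algebra.IsIntegral A B] (hinj : Function.Injective (algebraMap A B)) :
    ringKrullDim B = ringKrullDim A := by
  apply le_antisymm
  · apply Order.krullDim_le_of_strictMono
      (fun P : PrimeSpectrum B => PrimeSpectrum.comap (algebraMap A B) P)
    intro P Q h
    exact Ideal.IsIntegral.comap_lt_comap h
  · refine iSup_le fun l => ?_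
    obtain ⟨P, _, hP, hPc⟩ := Ideal.exists_ideal_over_prime_of_isIntegral
      (RelSeries.head l).asIdeal (⊥ : Ideal B) (by
        rw [← RingHom.ker_eq_comap_bot, (RingHom.injective_iff_ker_eq_bot _).1 hinj]
        exact bot_le)
    have hlo : P.LiesOver (RelSeries.head l).asIdeal := ⟨hPc.symm⟩
    obtain ⟨L, hL, _⟩ := Ideal.exists_ltSeries_of_hasGoingUp l P
    rw [← hL]
    exact Order.LTSeries.length_le_krullDim L

theorem krull_of_indep {A : Type} [CommRing A] [Algebra ℂ A] [Algebra.FiniteType ℂ A]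
    [Nontrivial A] (m : ℕ) (h1 : ∃ x : Fin m → A, AlgebraicIndependent ℂ x)
    (h2 : ∀ (R' : ℕ) (x : Fin R' → A), AlgebraicIndependent ℂ x → R' ≤ m) :
    ringKrullDim A = m := by
  obtain ⟨s, g, hg, hgi⟩ := exists_integral_inj_algHom_of_fg ℂ A
  have hs1 : s ≤ m := by
    apply h2 s (fun i => g (X i))
    have : AlgebraicIndependent ℂ (fun i : Fin s => (X i : MvPolynomial (Fin s) ℂ)) :=
      algebraicIndependent_X (Fin s) ℂ
    exact this.map' hg
  have hs2 : m ≤ s := by
    obtain ⟨x, hx⟩ := h1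
    set M : Submonoid A := Submonoid.map (aeval x : MvPolynomial (Fin m) ℂ →ₐ[ℂ] A)
      (nonZeroDivisors (MvPolynomial (Fin m) ℂ)) with hM
    have hdisj : Disjoint ((⊥ : Ideal A) : Set A) M := by
      rw [Set.disjoint_left]
      rintro _ h0 ⟨Q, hQ1, rfl⟩
      apply nonZeroDivisors.ne_zero hQ1
      exact (algebraicIndependent_iff.1 hx) Q h0
    obtain ⟨P, hprime, _, hpd⟩ := Ideal.exists_le_prime_disjoint ⊥ M hdisj
    set g' : MvPolynomial (Fin s) ℂ →ₐ[ℂ] A ⧸ P := (Ideal.Quotient.mkₐ ℂ P).comp g with hg'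
    have hx' : AlgebraicIndependent ℂ (fun i => Ideal.Quotient.mkₐ ℂ P (x i)) := by
      rw [algebraicIndependent_iff]
      intro Q hQ
      by_contra hQ0
      rw [← comp_aeval_apply] at hQ
      have hmem : aeval x Q ∈ P := Ideal.Quotient.eq_zero_iff_mem.1 hQ
      exact Set.disjoint_left.1 hpd hmem ⟨Q, mem_nonZeroDivisors_of_ne_zero hQ0, rfl⟩
    set Y : Set (A ⧸ P) := Set.range fun i : Fin s => g' (X i) with hY
    have hrange : ∀ q, g' q ∈ Algebra.adjoin ℂ Y := by
      intro q
      induction q using MvPolynomial.induction_on with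
      | C r => rw [← algebraMap_eq, AlgHom.commutes]; exact Subalgebra.algebraMap_mem _ _
      | add p q hp hq => rw [map_add]; exact Subalgebra.add_mem _ hp hq
      | mul_X p i hp =>
        rw [map_mul]
        exact Subalgebra.mul_mem _ hp (Algebra.subset_adjoin ⟨i, rfl⟩)
    have hint : Algebra.IsAlgebraic (Algebra.adjoin ℂ Y) (A ⧸ P) := by
      constructor
      intro y
      obtain ⟨a, rfl⟩ := Ideal.Quotient.mk_surjective y
      obtain ⟨p, hp, hp0⟩ := hgi a
      apply IsIntegral.isAlgebraic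
      refine ⟨p.map (g'.codRestrict (Algebra.adjoin ℂ Y) hrange : MvPolynomial (Fin s) ℂ →+*
        Algebra.adjoin ℂ Y), hp.map _, ?_⟩
      rw [Polynomial.eval₂_map]
      have h3 := congrArg (Ideal.Quotient.mk P) hp0
      rw [Polynomial.hom_eval₂, map_zero] at h3
      exact h3
    have h4 := Algebra.IsAlgebraic.trdeg_le_cardinalMk ℂ Y
    have h5 := hx'.cardinalMk_le_trdeg
    have h6 : Cardinal.mk Y ≤ (s : Cardinal) := by
      have := Cardinal.mk_range_le (f := fun i : Fin s => g' (X i))
      simpa using this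
    have h7 := h5.trans (h4.trans h6)
    rw [Cardinal.mk_fin] at h7
    exact_mod_cast h7
  have hms : m = s := le_antisymm hs2 hs1
  let _ : Algebra (MvPolynomial (Fin s) ℂ) A := g.toRingHom.toAlgebra
  have : Algebra.IsIntegral (MvPolynomial (Fin s) ℂ) A := ⟨hgi⟩
  rw [ringKrullDim_of_integral (A := MvPolynomial (Fin s) ℂ) (B := A) hg,
    MvPolynomial.ringKrullDim_of_isNoetherianRing, ringKrullDim_eq_zero_of_field, hms]
  simp

end Pool.Agent.R840.EC
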