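import Pool.Agent.R840.EC.Jac

set_option autoImplicit false

namespace Pool.Agent.R840.EC

open Finset MvPolynomial Module Filter Topology

variable {n d : ℕ}

/-- selecting evaluations -/
theorem select {E X : Type} [AddCommGroup E] [Module ℂ E] [FiniteDimensional ℂ E]
    (L : E →ₗ[ℂ] (X → ℂ)) (R : ℕ) (hR : R + finrank ℂ (LinearMap.ker L) ≤ finrank ℂ E) :
    ∃ x : Fin R → X, Function.Surjective (fun (e : E) (l : Fin R) => L e (x l)) := by
  set Φ : X → Dual ℂ E := fun x => (LinearMap.proj x).comp L with hΦ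
  set W : Submodule ℂ (Dual ℂ E) := Submodule.span ℂ (Set.range Φ) with hW
  have hco : W.dualCoannihilator = LinearMap.ker L := by
    ext e
    rw [Submodule.mem_dualCoannihilator, LinearMap.mem_ker]
    constructor
    · intro h
      funext x
      exact h (Φ x) (Submodule.subset_span ⟨x, rfl⟩)
    · intro h φ hφ
      have : W ≤ LinearMap.ker (Dual.eval ℂ E e) := by
        rw [hW, Submodule.span_le]
        rintro _ ⟨x, rfl⟩
        show Φ x e = 0
        show L e x = 0
        rw [h]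
        rfl
      exact this hφ
  have h1 := Subspace.finrank_add_finrank_dualCoannihilator_eq W
  rw [hco] at h1
  have hle : R ≤ finrank ℂ W := by omega
  obtain ⟨f, hf1, _, hf3⟩ := Submodule.exists_fun_fin_finrank_span_eq ℂ (Set.range Φ)
  choose x hx using hf1
  refine ⟨fun l => x (Fin.castLE hle l), ?_⟩
  set g : Fin R → Dual ℂ E := fun l => f (Fin.castLE hle l) with hg
  have hgi : LinearIndependent ℂ g := hf3.comp _ (Fin.castLE_injective hle)
  have hsurj : Function.Surjective (LinearMap.pi g) := by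
    rw [← LinearMap.range_eq_top]
    by_contra hcon
    obtain ⟨φ, hφ0, hφ⟩ := (LinearMap.range (LinearMap.pi g)).exists_le_ker_of_lt_top
      (lt_top_iff_ne_top.2 hcon)
    have h2 : ∑ l, φ (Pi.single l 1) • g l = 0 := by
      ext e
      have h3 : LinearMap.pi g e ∈ LinearMap.ker φ := hφ ⟨e, rfl⟩
      rw [LinearMap.mem_ker] at h3
      rw [LinearMap.sum_apply, LinearMap.zero_apply, ← h3]
      have h4 : LinearMap.pi g e = ∑ l, (g l e) • (Pi.single l (1 : ℂ) : Fin R → ℂ) := by
        funext l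
        rw [Finset.sum_apply, sum_eq_single l]
        · simp
        · intro l' _ hl'
          simp [hl'.symm]
        · intro h
          exact absurd (mem_univ _) h
      rw [h4, map_sum]
      refine sum_congr rfl fun l _ => ?_
      rw [map_smul, LinearMap.smul_apply, smul_eq_mul, smul_eq_mul, mul_comm]
    have h5 := Fintype.linearIndependent_iff.1 hgi _ h2
    apply hφ0
    apply LinearMap.pi_ext'
    intro l
    ext
    simpa using h5 l
  intro w
  obtain ⟨e, he⟩ := hsurj w
  refine ⟨e, ?_⟩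
  funext l
  have h6 : g l e = w l := congrFun he l
  rw [← h6, hg]
  simp only
  rw [← hx]
  rfl

noncomputable instance degFintype (n m : ℕ) : Fintype {a : Fin (n + 1) →₀ ℕ // a.degree = m} :=
  Fintype.subtype ((univ : Finset (Fin (n + 1))).finsuppAntidiag m) (by
    intro a
    rw [Finset.mem_finsuppAntidiag, Finsupp.degree_eq_sum]
    simp)

theorem eval_homog {m : ℕ} {P : MvPolynomial (Fin (n + 1)) ℂ} (hP : P.IsHomogeneous m)
    (y : Fin (n + 1) → ℂ) :
    eval y P = ∑ a : {a : Fin (n + 1) →₀ ℕ // a.degree = m}, coeff a.1 P * ∏ j, y j ^ a.1 j := by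
  rw [eval_eq']
  have h1 : ∀ a ∈ P.support, a.degree = m := by
    intro a ha
    have h3 := hP (mem_support_iff.1 ha)
    have e : a.degree = Finsupp.weight (1 : Fin (n + 1) → ℕ) a := by
      rw [Finsupp.degree_eq_weight_one]
      rfl
    rw [e]
    exact h3
  have h2 : ∑ a : {a : Fin (n + 1) →₀ ℕ // a.degree = m}, coeff a.1 P * ∏ j, y j ^ a.1 j =
      ∑ a ∈ (univ : Finset (Fin (n + 1))).finsuppAntidiag m, coeff a P * ∏ j, y j ^ a j := by
    apply Finset.sum_bij (fun (a : {a : Fin (n + 1) →₀ ℕ // a.degree = m}) _ => a.1)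
    · intro a _
      rw [Finset.mem_finsuppAntidiag]
      refine ⟨?_, fun _ _ => mem_univ _⟩
      rw [← Finsupp.degree_eq_sum]
      exact a.2
    · intro a _ b _ h
      exact Subtype.ext h
    · intro a ha
      rw [Finset.mem_finsuppAntidiag] at ha
      refine ⟨⟨a, ?_⟩, mem_univ _, rfl⟩
      rw [Finsupp.degree_eq_sum]
      exact ha.1
    · intro a _
      rfl
  rw [h2]
  apply sum_subset
  · intro a ha
    rw [Finset.mem_finsuppAntidiag]
    refine ⟨?_, fun _ _ => mem_univ _⟩
    rw [← Finsupp.degree_eq_sum]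
    exact h1 a ha
  · intro a _ ha
    rw [notMem_support_iff.1 ha, zero_mul]

theorem chow_homogeneous {D : ℕ} (p : Fin D → Fin (n + 1) → ℂ) : (chow p).IsHomogeneous D := by
  unfold chow
  have h := IsHomogeneous.prod (univ : Finset (Fin D)) (fun i => ∑ j, C (p i j) * X j)
    (fun _ => 1) (fun i _ => IsHomogeneous.sum _ _ _ fun j _ => by
      have := (isHomogeneous_C (Fin (n + 1)) (p i j)).mul (isHomogeneous_X ℂ j)
      simpa using this)
  simpa using h

theorem eval_chow {D : ℕ} (p : Fin D → Fin (n + 1) → ℂ) (y : Fin (n + 1) → ℂ) :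
    eval y (chow p) = ∏ i, ∑ j, p i j * y j := by
  unfold chow
  rw [map_prod]
  refine prod_congr rfl fun i _ => ?_
  rw [map_sum]
  refine sum_congr rfl fun j _ => ?_
  rw [map_mul, eval_C, eval_X]

theorem eval_aeval {σ τ : Type*} (F : τ → MvPolynomial σ ℂ) (c : σ → ℂ) (Q : MvPolynomial τ ℂ) :
    aeval c (aeval F Q) = eval (fun l => eval c (F l)) Q := by
  induction Q using MvPolynomial.induction_on with
  | C r => simp
  | add p q hp hq => rw [map_add, map_add, hp, hq, map_add]
  | mul_X p i hp => rw [map_mul, map_mul, hp, aeval_X, map_mul, eval_X]; rfl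

/-- evaluation of the `k`-th Chow form at `y`, as a linear function of the coefficients -/
noncomputable def evF (z : Fin d × (Fin (n + 1) → ℂ)) : MvPolynomial (Idx n d) ℂ :=
  ∑ a : {a : Fin (n + 1) →₀ ℕ // a.degree = numEig n d}, C (∏ j, z.2 j ^ a.1 j) * X (z.1, a)

theorem evF_eval (z : Fin d × (Fin (n + 1) → ℂ)) (c : Idx n d → ℂ)
    (p : Fin d → Fin (numEig n d) → Fin (n + 1) → ℂ)
    (hc : ∀ x : Idx n d, c x = coeff x.2.1 (chow (p x.1))) :
    eval c (evF z) = ∏ i, ∑ j, p z.1 i j * z.2 j := by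
  rw [← eval_chow, eval_homog (chow_homogeneous _)]
  unfold evF
  rw [map_sum]
  refine sum_congr rfl fun a _ => ?_
  rw [map_mul, eval_C, eval_X, hc, mul_comm]

/-- the evaluation map -/
noncomputable def Psi (hd : 3 ≤ d) (z : Fin d × (Fin (n + 1) → ℂ))
    (x : Ten n d × (Fin d → ℂ)) : ℂ :=
  x.2 z.1 * ∏ i, ∑ j, br hd z.1 i x.1 j * z.2 j

/-- the linear map `LL` at a point as a continuous linear map -/
noncomputable def LLc (hd : 3 ≤ d) (z : Fin d × (Fin (n + 1) → ℂ)) :
    (Ten n d × (Fin d → ℂ)) →L[ℂ] ℂ :=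
  LinearMap.toContinuousLinearMap ((LinearMap.proj z).comp (LL hd))

theorem LLc_apply (hd : 3 ≤ d) (z : Fin d × (Fin (n + 1) → ℂ)) (x : Ten n d × (Fin d → ℂ)) :
    LLc hd z x = LL hd x z := rfl

theorem Psi_strict (hd : 3 ≤ d) (z : Fin d × (Fin (n + 1) → ℂ)) :
    HasStrictFDerivAt (Psi (n := n) hd z) (LLc hd z) (T0 n d, fun _ => 1) := by
  set x0 : Ten n d × (Fin d → ℂ) := (T0 n d, fun _ => 1) with hx0
  have h1 : ∀ (i : Fin (numEig n d)) (j : Fin (n + 1)), HasStrictFDerivAt
      (fun x : Ten n d × (Fin d → ℂ) => br hd z.1 i x.1 j * z.2 j)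
      ((z.2 j) • (((ContinuousLinearMap.proj (R := ℂ) (φ := fun _ : Fin (n + 1) => ℂ) j).comp
        (br' hd z.1 i)).comp (ContinuousLinearMap.fst ℂ (Ten n d) (Fin d → ℂ)))) x0 := by
    intro i j
    have h2 : HasStrictFDerivAt (fun x : Ten n d × (Fin d → ℂ) => br hd z.1 i x.1)
        ((br' hd z.1 i).comp (ContinuousLinearMap.fst ℂ (Ten n d) (Fin d → ℂ))) x0 :=
      HasStrictFDerivAt.comp x0 (br_strict hd z.1 i) hasStrictFDerivAt_fst
    have h3 : HasStrictFDerivAt (fun x : Ten n d × (Fin d → ℂ) => br hd z.1 i x.1 j)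
        (((ContinuousLinearMap.proj (R := ℂ) (φ := fun _ : Fin (n + 1) => ℂ) j).comp
        (br' hd z.1 i)).comp (ContinuousLinearMap.fst ℂ (Ten n d) (Fin d → ℂ))) x0 :=
      hasStrictFDerivAt_pi'.1 h2 j
    exact h3.mul_const (z.2 j)
  have h2 : ∀ i : Fin (numEig n d), HasStrictFDerivAt
      (fun x : Ten n d × (Fin d → ℂ) => ∑ j, br hd z.1 i x.1 j * z.2 j)
      (∑ j, (z.2 j) • (((ContinuousLinearMap.proj (R := ℂ) (φ := fun _ : Fin (n + 1) => ℂ) j).comp
        (br' hd z.1 i)).comp (ContinuousLinearMap.fst ℂ (Ten n d) (Fin d → ℂ)))) x0 := fun i =>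
    HasStrictFDerivAt.fun_sum (u := univ) (fun j _ => h1 i j)
  have h3 := HasStrictFDerivAt.finsetProd (u := (univ : Finset (Fin (numEig n d))))
    (fun i _ => h2 i)
  have h4 : HasStrictFDerivAt (fun x : Ten n d × (Fin d → ℂ) => x.2 z.1)
      ((ContinuousLinearMap.proj (R := ℂ) (φ := fun _ : Fin d => ℂ) z.1).comp
        (ContinuousLinearMap.snd ℂ (Ten n d) (Fin d → ℂ))) x0 :=
    ((ContinuousLinearMap.proj (R := ℂ) (φ := fun _ : Fin d => ℂ) z.1).comp
        (ContinuousLinearMap.snd ℂ (Ten n d) (Fin d → ℂ))).hasStrictFDerivAt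
  have h5 := h4.mul h3
  refine h5.congr_fderiv ?_
  refine ContinuousLinearMap.ext fun x => ?_
  rw [LLc_apply, LL_apply]
  simp only [_root_.add_apply, _root_.smul_apply, _root_.sum_apply, ContinuousLinearMap.comp_apply,
    ContinuousLinearMap.proj_apply, ContinuousLinearMap.coe_fst', ContinuousLinearMap.coe_snd',
    smul_eq_mul, hx0, br_base, one_mul]
  rw [add_comm]
  congr 1
  · ring
  · refine sum_congr rfl fun i _ => ?_
    rw [mul_comm]
    congr 1
    refine sum_congr rfl fun j _ => ?_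
    ring

theorem numEig_ne (n d : ℕ) : numEig n d ≠ 0 := (numEig_pos n d).ne'

/-- points of the cone near the base point -/
theorem cone_point (hd : 3 ≤ d) {S : Set (Config n d)} (hS : reducedConfigs n d ⊆ S)
    {T : Ten n d} (hT : Good hd T) (s : Fin d → ℂ) (hs : ∀ k, s k ≠ 0) :
    ∃ c ∈ cone S, ∀ z : Fin d × (Fin (n + 1) → ℂ), eval c (evF z) = Psi hd z (T, s) := by
  set i0 : Fin (numEig n d) := ⟨0, numEig_pos n d⟩ with hi0
  set p : Fin d → Fin (numEig n d) → Fin (n + 1) → ℂ := fun k i j =>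
    (if i = i0 then s k else 1) * br hd k i T j with hp
  have hw : ∀ (k : Fin d) (i : Fin (numEig n d)), (if i = i0 then s k else 1) ≠ 0 := by
    intro k i
    split_ifs
    · exact hs k
    · exact one_ne_zero
  have hp0 : ∀ k i, p k i ≠ 0 := by
    intro k i h
    obtain ⟨j, hj⟩ := Function.ne_iff.1 (hT.2.2.1 k i)
    have h1 : (if i = i0 then s k else 1) * br hd k i T j = 0 := congrFun h j
    exact mul_ne_zero (hw k i) hj h1
  refine ⟨fun x => coeff x.2.1 (chow (p x.1)), ⟨cyc hd hT, hS (cyc_mem hd hT), p, hp0, ?_,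
    fun x => rfl⟩, fun z => ?_⟩
  · intro k
    show Multiset.map (fun i => Projectivization.mk ℂ (br hd k i T) (hT.2.2.1 k i))
      (univ : Finset (Fin (numEig n d))).val = _
    apply Multiset.map_congr rfl
    intro i _
    rw [mk_eq_iff]
    intro j j'
    rw [hp]
    simp only
    ring
  · rw [evF_eval z _ p (fun x => rfl)]
    unfold Psi
    rw [hp]
    simp only
    have h1 : ∀ i : Fin (numEig n d), ∑ j, (if i = i0 then s z.1 else 1) * br hd z.1 i T j * z.2 j =
        (if i = i0 then s z.1 else 1) * ∑ j, br hd z.1 i T j * z.2 j := by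
      intro i
      rw [mul_sum]
      refine sum_congr rfl fun j _ => ?_
      ring
    simp_rw [h1]
    rw [prod_mul_distrib, prod_ite_eq' univ i0, if_pos (mem_univ _)]

theorem lower_bound (hn : 1 ≤ n) (hd : 3 ≤ d) {S : Set (Config n d)}
    (hS : reducedConfigs n d ⊆ S) (R : ℕ)
    (hR : R + (finrank ℂ (kerL n d) + 1) ≤ finrank ℂ (Ten n d) + d) :
    ∃ x : Fin R → MvPolynomial (Idx n d) ℂ ⧸ vanishingIdeal ℂ (cone S),
      AlgebraicIndependent ℂ x := by
  have hE : finrank ℂ (Ten n d × (Fin d → ℂ)) = finrank ℂ (Ten n d) + d := by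
    rw [Module.finrank_prod, Module.finrank_fin_fun]
  have hk := finrank_ker_LL hn hd
  obtain ⟨z, hz⟩ := select (LL (n := n) hd) R (by rw [hE]; omega)
  refine ⟨fun l => Ideal.Quotient.mk _ (evF (z l)), ?_⟩
  rw [algebraicIndependent_iff]
  intro Q hQ
  have hQ1 : aeval (fun l => evF (z l)) Q ∈ vanishingIdeal ℂ (cone S) := by
    rw [← Ideal.Quotient.eq_zero_iff_mem, ← hQ]
    have := MvPolynomial.aeval_unique ((Ideal.Quotient.mkₐ ℂ (vanishingIdeal ℂ (cone S))).comp
      (aeval (fun l => evF (z l))))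
    have h2 := DFunLike.congr_fun this Q
    rw [AlgHom.comp_apply] at h2
    rw [← Ideal.Quotient.mkₐ_eq_mk ℂ, h2]
    congr 2
    funext l
    simp
  have hQ2 : ∀ c ∈ cone S, eval (fun l => eval c (evF (z l))) Q = 0 := by
    intro c hc
    have h1 := hQ1 c hc
    rw [← h1, eval_aeval]
  -- open image
  set x0 : Ten n d × (Fin d → ℂ) := (T0 n d, fun _ => 1) with hx0
  set Ψ : Ten n d × (Fin d → ℂ) → (Fin R → ℂ) := fun x l => Psi hd (z l) x with hΨ
  have hst : HasStrictFDerivAt Ψ (ContinuousLinearMap.pi fun l => LLc hd (z l)) x0 :=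
    hasStrictFDerivAt_pi.2 fun l => Psi_strict hd (z l)
  have hrange : (ContinuousLinearMap.pi fun l => LLc hd (z l)).range = ⊤ := by
    rw [LinearMap.range_eq_top]
    intro w
    obtain ⟨e, he⟩ := hz w
    exact ⟨e, he⟩
  have hmap := hst.map_nhds_eq_of_surj hrange
  have hev : ∀ᶠ x in 𝓝 x0, Good hd x.1 ∧ ∀ k, x.2 k ≠ 0 := by
    have e1 : ∀ᶠ x in 𝓝 x0, Good hd x.1 :=
      (continuous_fst.tendsto x0).eventually (eventually_good hd)
    have e2 : ∀ᶠ x in 𝓝 x0, ∀ k, x.2 k ≠ 0 := by
      rw [eventually_all]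
      intro k
      have hc : ContinuousAt (fun x : Ten n d × (Fin d → ℂ) => x.2 k) x0 :=
        ((continuous_apply k).comp continuous_snd).continuousAt
      exact hc.eventually_ne (by show (1 : ℂ) ≠ 0; exact one_ne_zero)
    exact e1.and e2
  have hev2 : ∀ᶠ w in 𝓝 (Ψ x0), eval w Q = 0 := by
    rw [← hmap, eventually_map]
    filter_upwards [hev] with x hx
    obtain ⟨c, hc, hcz⟩ := cone_point hd hS hx.1 x.2 hx.2
    have h1 := hQ2 c hc
    have h2 : (fun l => eval c (evF (z l))) = Ψ x := by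
      funext l
      rw [hcz]
    rw [h2] at h1
    exact h1
  rw [Metric.eventually_nhds_iff_ball] at hev2
  obtain ⟨ε, hε, hball⟩ := hev2
  apply MvPolynomial.funext_set (fun l => Metric.ball (Ψ x0 l) ε)
  · intro l
    exact infinite_of_mem_nhds (Ψ x0 l) (Metric.ball_mem_nhds _ hε)
  · intro w hw
    rw [map_zero]
    apply hball
    rw [← ball_pi _ hε] at hw
    exact hw

end Pool.Agent.R840.EC
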