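import Pool.Agent.R840.EC.Upper
import Pool.Agent.R840.EC.Krull

set_option autoImplicit false

namespace Pool.Agent.R840.EC

open Finset MvPolynomial Module

variable {n d : ℕ}

instance idxFintype (n d : ℕ) : Finite (Idx n d) := by
  unfold Idx
  infer_instance

theorem exists_rho (hn : 1 ≤ n) (hd : 3 ≤ d) :
    ∃ r : ℕ, (r + 1) + finrank ℂ (kerL n d) = finrank ℂ (Ten n d) := by
  have hgood : Good hd (T0 n d) := (eventually_good hd).self_of_nhds
  obtain ⟨T, hT⟩ := cyc_mem hd hgood
  have hfin : ∀ k, (eigenpoints T k).Finite := by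
    intro k
    have h1 : eigenpoints T k = {P | P ∈ (cyc hd hgood k : Multiset _)} := by
      ext P
      exact ((hT k).2 P).symm
    rw [h1]
    exact Multiset.finite_toSet _
  have hne : kerL n d ≠ ⊤ := by
    intro h
    apply not_kerL hn hd hfin
    rw [h]
    exact Submodule.mem_top
  have hlt := Submodule.finrank_lt hne
  exact ⟨finrank ℂ (Ten n d) - finrank ℂ (kerL n d) - 1, by omega⟩

/-- The dimension of the eigencompatibility variety. -/
theorem main (hn : 1 ≤ n) (hd : 3 ≤ d) (S : Set (Config n d))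
    (hS1 : reducedConfigs n d ⊆ S) (hS2 : S ⊆ finiteConfigs n d) :
    ∃ e : ℕ,
      ringKrullDim (MvPolynomial (Idx n d) ℂ ⧸ vanishingIdeal ℂ (cone S)) =
        ((e + d : ℕ) : WithBot ℕ∞) ∧
      (e : ℤ) = (d - 1) * (n + 1) * (n + d - 1).choose n - (d - 2) * (n + d).choose n - 1 -
        if Even d then 1 else 0 := by
  obtain ⟨r, hr⟩ := exists_rho hn hd
  refine ⟨r, ?_, ?_⟩
  · obtain ⟨x, hx⟩ := lower_bound hn hd hS1 (r + d) (by omega)
    have hnt : Nontrivial (MvPolynomial (Idx n d) ℂ ⧸ vanishingIdeal ℂ (cone S)) := by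
      by_contra hcon
      rw [not_nontrivial_iff_subsingleton] at hcon
      have h1 := hx.algebraMap_injective
      exact zero_ne_one (h1 (Subsingleton.elim (algebraMap ℂ _ 0) (algebraMap ℂ _ 1)))
    exact krull_of_indep (r + d) ⟨x, hx⟩ fun R' y hy => upper_bound hn hd hS2 r hr y hy
  · have h1 := rank_formula hn hd (r + 1) hr
    have h2 : ((d - 1 : ℕ) : ℤ) = (d : ℤ) - 1 := by
      rw [Nat.cast_sub (by omega)]
      simp
    have h3 : ((d - 2 : ℕ) : ℤ) = (d : ℤ) - 2 := by
      rw [Nat.cast_sub (by omega)]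
      simp
    have h4 := congrArg (Nat.cast : ℕ → ℤ) h1
    push_cast at h4
    rw [h2, h3] at h4
    linear_combination h4

end Pool.Agent.R840.EC
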