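import Pool.Agent.R840.EC.Defs
import Pool.Agent.R840.EC.Branch

set_option autoImplicit false

namespace Pool.Agent.R840.EC

open Finset MvPolynomial Filter Topology

variable {n d : ℕ}

/-- chosen branches of eigenvectors -/
noncomputable def br (hd : 3 ≤ d) (k : Fin d) (i : Fin (numEig n d)) :
    Ten n d → Fin (n + 1) → ℂ := (exists_branch hd k i).choose

/-- their derivatives -/
noncomputable def br' (hd : 3 ≤ d) (k : Fin d) (i : Fin (numEig n d)) :
    Ten n d →L[ℂ] (Fin (n + 1) → ℂ) := (exists_branch hd k i).choose_spec.choose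

theorem br_base (hd : 3 ≤ d) (k : Fin d) (i : Fin (numEig n d)) :
    br hd k i (T0 n d) = pt hd i := (exists_branch hd k i).choose_spec.choose_spec.1

theorem br_strict (hd : 3 ≤ d) (k : Fin d) (i : Fin (numEig n d)) :
    HasStrictFDerivAt (br hd k i) (br' hd k i) (T0 n d) :=
  (exists_branch hd k i).choose_spec.choose_spec.2.1

theorem br_event (hd : 3 ≤ d) (k : Fin d) (i : Fin (numEig n d)) :
    ∀ᶠ T in 𝓝 (T0 n d), ∀ j, contract T k (br hd k i T) j = br hd k i T j :=
  (exists_branch hd k i).choose_spec.choose_spec.2.2.1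

theorem br'_eq (hd : 3 ≤ d) (k : Fin d) (i : Fin (numEig n d)) (δ : Ten n d) (j : Fin (n + 1)) :
    cc hd i j * br' hd k i δ j + contract δ k (pt hd i) j = 0 :=
  (exists_branch hd k i).choose_spec.choose_spec.2.2.2 δ j

/-- the radius -/
noncomputable def eps (n d : ℕ) : ℝ := ((2 : ℝ) ^ (d - 2))⁻¹ / (2 * (n + 1 : ℝ) ^ d)

theorem eps_pos (n d : ℕ) : 0 < eps n d := by
  unfold eps
  positivity

theorem norm_alp (j : Fin (n + 1)) : ((2 : ℝ) ^ (d - 2))⁻¹ ≤ ‖alp n d j‖ := by
  unfold alp bet
  rw [norm_inv, norm_pow]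
  split_ifs
  · simp
  · rw [norm_one, one_pow, inv_one]
    apply inv_le_one_of_one_le₀
    exact one_le_pow₀ (by norm_num)

theorem eps_lt (j : Fin (n + 1)) : (n + 1 : ℝ) ^ d * eps n d < ‖alp n d j‖ := by
  refine lt_of_lt_of_le ?_ (norm_alp j)
  unfold eps
  have h1 : (0 : ℝ) < (n + 1 : ℝ) ^ d := by positivity
  have h2 : (0 : ℝ) < ((2 : ℝ) ^ (d - 2))⁻¹ := by positivity
  have h3 : (n + 1 : ℝ) ^ d * (((2 : ℝ) ^ (d - 2))⁻¹ / (2 * (n + 1 : ℝ) ^ d)) =
      ((2 : ℝ) ^ (d - 2))⁻¹ / 2 := by
    field_simp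
  rw [h3]
  linarith

/-- the good tensors near the base tensor -/
def Good (hd : 3 ≤ d) (T : Ten n d) : Prop :=
  Close (alp n d) (eps n d) T ∧
  (∀ k i j, contract T k (br hd k i T) j = br hd k i T j) ∧
  (∀ k i, br hd k i T ≠ 0) ∧
  ∀ k i i', i ≠ i' → ∃ j j', br hd k i T j * br hd k i' T j' ≠ br hd k i T j' * br hd k i' T j

theorem br_continuousAt (hd : 3 ≤ d) (k : Fin d) (i : Fin (numEig n d)) (j : Fin (n + 1)) :
    ContinuousAt (fun T => br hd k i T j) (T0 n d) :=
  (continuous_apply j).continuousAt.comp (br_strict hd k i).continuousAt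

theorem eventually_good (hd : 3 ≤ d) : ∀ᶠ T in 𝓝 (T0 n d), Good hd T := by
  have h1 : ∀ᶠ T in 𝓝 (T0 n d), Close (alp n d) (eps n d) T := by
    filter_upwards [Metric.closedBall_mem_nhds (T0 n d) (eps_pos n d)] with T hT I
    rw [mem_closedBall_iff_norm] at hT
    exact (norm_le_pi_norm (T - T0 n d) I).trans hT
  have h2 : ∀ᶠ T in 𝓝 (T0 n d), ∀ k i j, contract T k (br hd k i T) j = br hd k i T j := by
    rw [eventually_all]
    intro k
    rw [eventually_all]
    intro i
    exact br_event hd k i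
  have h3 : ∀ᶠ T in 𝓝 (T0 n d), ∀ k i, br hd k i T ≠ 0 := by
    rw [eventually_all]
    intro k
    rw [eventually_all]
    intro i
    obtain ⟨j, hj⟩ := Function.ne_iff.1 (pt_ne_zero hd i)
    have h4 : (fun T => br hd k i T j) (T0 n d) ≠ 0 := by
      show br hd k i (T0 n d) j ≠ 0
      rw [br_base]
      exact hj
    filter_upwards [(br_continuousAt hd k i j).eventually_ne h4] with T hT h5
    apply hT
    rw [h5]
    rfl
  have h4 : ∀ᶠ T in 𝓝 (T0 n d), ∀ k i i', i ≠ i' →
      ∃ j j', br hd k i T j * br hd k i' T j' ≠ br hd k i T j' * br hd k i' T j := by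
    rw [eventually_all]
    intro k
    rw [eventually_all]
    intro i
    rw [eventually_all]
    intro i'
    by_cases hii : i = i'
    · exact Eventually.of_forall fun T h => absurd hii h
    · obtain ⟨j, j', hjj⟩ := pt_indep hd hii
      have hc1 : ContinuousAt (fun T => br hd k i T j * br hd k i' T j') (T0 n d) :=
        (br_continuousAt hd k i j).mul (br_continuousAt hd k i' j')
      have hc2 : ContinuousAt (fun T => br hd k i T j' * br hd k i' T j) (T0 n d) :=
        (br_continuousAt hd k i j').mul (br_continuousAt hd k i' j)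
      have hc : ContinuousAt (fun T => br hd k i T j * br hd k i' T j' -
          br hd k i T j' * br hd k i' T j) (T0 n d) := hc1.sub hc2
      have h0 : (fun T => br hd k i T j * br hd k i' T j' -
          br hd k i T j' * br hd k i' T j) (T0 n d) ≠ 0 := by
        show br hd k i (T0 n d) j * br hd k i' (T0 n d) j' -
          br hd k i (T0 n d) j' * br hd k i' (T0 n d) j ≠ 0
        rw [br_base, br_base]
        exact sub_ne_zero.2 hjj
      filter_upwards [hc.eventually_ne h0] with T hT _
      exact ⟨j, j', sub_ne_zero.1 hT⟩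
  filter_upwards [h1, h2, h3, h4] with T a b c e
  exact ⟨a, b, c, e⟩

theorem good_eigen (hd : 3 ≤ d) {T : Ten n d} (hT : Good hd T) (k : Fin d)
    (w : Fin (n + 1) → ℂ) (hw : w ≠ 0)
    (hww : ∀ i j, w i * contract T k w j = w j * contract T k w i) :
    ∃ i, ∀ j j', w j * br hd k i T j' = w j' * br hd k i T j := by
  obtain ⟨hcl, hfix, hne, hind⟩ := hT
  obtain ⟨l, hl⟩ := eigen_iff_exists hw hww
  have hl0 : l ≠ 0 := by
    rintro rfl
    apply hw
    apply no_zero (by omega) hcl eps_lt k
    intro j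
    rw [hl j, zero_mul]
  obtain ⟨c, hc⟩ := IsAlgClosed.exists_pow_nat_eq (l⁻¹) (n := d - 2) (by omega)
  have hc0 : c ≠ 0 := by
    rintro rfl
    rw [zero_pow (by omega)] at hc
    exact inv_ne_zero hl0 hc.symm
  set w' : Fin (n + 1) → ℂ := fun i => c * w i with hw'
  have hw'fix : ∀ j, contract T k w' j = w' j := by
    intro j
    rw [hw', contract_smul_vec, hl j, show d - 1 = d - 2 + 1 by omega, pow_succ, hc]
    field_simp
  classical
  set Z := Polynomial.nthRootsFinset (d - 2) (1 : ℂ) with hZ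
  have hZcard : #Z = d - 2 :=
    (Complex.isPrimitiveRoot_exp (d - 2) (by omega)).card_nthRootsFinset
  have hZmem : ∀ z, z ∈ Z ↔ z ^ (d - 2) = 1 := fun z =>
    Polynomial.mem_nthRootsFinset (by omega) 1
  have hZ0 : ∀ z ∈ Z, z ≠ 0 := by
    intro z hz h0
    rw [hZmem, h0, zero_pow (by omega)] at hz
    exact zero_ne_one hz
  set f : Fin (numEig n d) × ℂ → (Fin (n + 1) → ℂ) := fun x => fun j => x.2 * br hd k x.1 T j with hf
  set S1 := ((univ : Finset (Fin (numEig n d))) ×ˢ Z).image f with hS1
  have hinj : Set.InjOn f (((univ : Finset (Fin (numEig n d))) ×ˢ Z : Finset _) :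
      Set (Fin (numEig n d) × ℂ)) := by
    rintro ⟨i, z⟩ h1 ⟨i', z'⟩ h2 h
    rw [mem_coe, mem_product] at h1 h2
    have hz := hZ0 z h1.2
    have hz' := hZ0 z' h2.2
    have hcoord : ∀ j, z * br hd k i T j = z' * br hd k i' T j := fun j => congrFun h j
    have hii : i = i' := by
      by_contra hcon
      obtain ⟨j, j', hjj⟩ := hind k i i' hcon
      apply hjj
      apply mul_left_cancel₀ hz
      linear_combination br hd k i' T j' * hcoord j - br hd k i' T j * hcoord j'
    subst hii
    obtain ⟨j, hj⟩ := Function.ne_iff.1 (hne k i)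
    have h3 := mul_right_cancel₀ hj (hcoord j)
    rw [h3]
  have hS1card : #S1 = numEig n d * (d - 2) := by
    rw [hS1, card_image_of_injOn hinj, card_product, card_univ, Fintype.card_fin, hZcard]
  have h0S1 : (0 : Fin (n + 1) → ℂ) ∉ S1 := by
    rw [hS1, mem_image]
    rintro ⟨⟨i, z⟩, h1, h2⟩
    rw [mem_product] at h1
    obtain ⟨j, hj⟩ := Function.ne_iff.1 (hne k i)
    have h3 : z * br hd k i T j = 0 := congrFun h2 j
    exact mul_ne_zero (hZ0 z h1.2) hj h3
  have hSfix : ∀ v ∈ insert 0 S1, ∀ j, contract T k v j = v j := by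
    intro v hv j
    rw [mem_insert] at hv
    rcases hv with rfl | hv
    · have := contract_smul_vec T k 0 (0 : Fin (n + 1) → ℂ) j
      rw [zero_pow (by omega), zero_mul] at this
      simp only [Pi.zero_apply, mul_zero] at this
      exact this
    · rw [hS1, mem_image] at hv
      obtain ⟨⟨i, z⟩, h1, rfl⟩ := hv
      rw [mem_product, hZmem] at h1
      rw [hf]
      simp only
      rw [contract_smul_vec, hfix k i j, show d - 1 = d - 2 + 1 by omega, pow_succ, h1.2, one_mul]
  have hmem : w' ∈ insert 0 S1 := by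
    by_contra hcon
    have h1 := card_le hd hcl eps_lt k (insert w' (insert 0 S1)) (by
      intro v hv
      rw [mem_insert] at hv
      rcases hv with rfl | hv
      · exact hw'fix
      · exact hSfix v hv)
    rw [card_insert_of_notMem hcon, card_insert_of_notMem h0S1, hS1card] at h1
    have h2 := numEig_mul (n := n) hd
    rw [← h2, mul_comm] at h1
    omega
  rw [mem_insert] at hmem
  rcases hmem with h0 | h1
  · exfalso
    apply hw
    funext i
    have h2 : c * w i = 0 := congrFun h0 i
    exact (mul_eq_zero.1 h2).resolve_left hc0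
  · rw [hS1, mem_image] at h1
    obtain ⟨⟨i, z⟩, h2, h3⟩ := h1
    rw [mem_product] at h2
    refine ⟨i, fun j j' => ?_⟩
    have hz := hZ0 z h2.2
    have hcoord : ∀ j, z * br hd k i T j = c * w j := fun j => congrFun h3 j
    apply mul_left_cancel₀ hz
    linear_combination w j * hcoord j' - w j' * hcoord j

/-- the tuple of cycles of a good tensor -/
noncomputable def cyc (hd : 3 ≤ d) {T : Ten n d} (hT : Good hd T) : Config n d :=
  fun k => ⟨Multiset.map (fun i => Projectivization.mk ℂ (br hd k i T) (hT.2.2.1 k i))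
    (univ : Finset (Fin (numEig n d))).val, by simp⟩

theorem cyc_mem (hd : 3 ≤ d) {T : Ten n d} (hT : Good hd T) : cyc hd hT ∈ reducedConfigs n d := by
  refine ⟨T, fun k => ⟨?_, fun P => ?_⟩⟩
  · show (Multiset.map (fun i => Projectivization.mk ℂ (br hd k i T) (hT.2.2.1 k i))
      (univ : Finset (Fin (numEig n d))).val).Nodup
    apply Multiset.Nodup.map _ (nodup _)
    intro i i' h
    by_contra hcon
    obtain ⟨j, j', hjj⟩ := hT.2.2.2 k i i' hcon
    exact hjj ((mk_eq_iff _ _ _ _).1 h j j')
  · show P ∈ (Multiset.map (fun i => Projectivization.mk ℂ (br hd k i T) (hT.2.2.1 k i))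
      (univ : Finset (Fin (numEig n d))).val) ↔ _
    rw [Multiset.mem_map]
    constructor
    · rintro ⟨i, _, rfl⟩
      rw [mk_mem_eigenpoints (by omega)]
      intro j j'
      rw [hT.2.1 k i j, hT.2.1 k i j']
      ring
    · induction P using Projectivization.ind with
      | h v hv =>
        intro hP
        rw [mk_mem_eigenpoints (by omega)] at hP
        obtain ⟨i, hi⟩ := good_eigen hd hT k v hv hP
        refine ⟨i, Finset.mem_def.1 (mem_univ i), ?_⟩
        rw [mk_eq_iff]
        intro j j'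
        linear_combination -hi j j'

end Pool.Agent.R840.EC
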