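import Pool.Agent.R840.EC.Dims

set_option autoImplicit false

namespace Pool.Agent.R840.EC

open Finset MvPolynomial Module

variable {n d m : ℕ}

/-- content of a word -/
noncomputable def cont (I : Fin d → Fin (n + 1)) : Fin (n + 1) →₀ ℕ :=
  ∑ l, Finsupp.single (I l) 1

/-- content of a word with the `k`-th letter removed -/
noncomputable def cont' (I : Fin d → Fin (n + 1)) (k : Fin d) : Fin (n + 1) →₀ ℕ :=
  ∑ l ∈ univ.erase k, Finsupp.single (I l) 1

theorem cont_eq (I : Fin d → Fin (n + 1)) (k : Fin d) :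
    cont I = Finsupp.single (I k) 1 + cont' I k := by
  unfold cont cont'
  rw [add_sum_erase univ (fun l => Finsupp.single (I l) 1) (mem_univ k)]

theorem prod_X_eq (I : Fin d → Fin (n + 1)) (s : Finset (Fin d)) :
    ∏ l ∈ s, (X (I l) : MvPolynomial (Fin (n + 1)) ℂ) =
      monomial (∑ l ∈ s, Finsupp.single (I l) 1) 1 := by
  rw [monomial_sum_one]
  rfl

theorem coeff_pfull (T : Ten n d) (b : Fin (n + 1) →₀ ℕ) :
    coeff b (pfull T) = ∑ I, if cont I = b then T I else 0 := by
  unfold pfull full
  rw [coeff_sum]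
  refine sum_congr rfl fun I _ => ?_
  rw [prod_X_eq, C_mul_monomial, mul_one, coeff_monomial]
  rfl

theorem coeff_pc (T : Ten n d) (k : Fin d) (j : Fin (n + 1)) (b : Fin (n + 1) →₀ ℕ) :
    coeff b (pc T k j) = ∑ I, if I k = j then (if cont' I k = b then T I else 0) else 0 := by
  unfold pc contract
  rw [coeff_sum]
  refine sum_congr rfl fun I _ => ?_
  split_ifs with h1 h2
  · rw [prod_X_eq, C_mul_monomial, mul_one, coeff_monomial]
    exact if_pos h2
  · rw [prod_X_eq, C_mul_monomial, mul_one, coeff_monomial]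
    exact if_neg h2
  · rw [coeff_zero]

/-- first pairing identity -/
theorem pair_full (T : Ten n d) (U : MvPolynomial (Fin (n + 1)) ℂ) :
    ∑ I, T I * coeff (cont I) U = ∑ b ∈ U.support, coeff b U * coeff b (pfull T) := by
  simp_rw [coeff_pfull, mul_sum]
  rw [sum_comm]
  refine sum_congr rfl fun I _ => ?_
  by_cases h : cont I ∈ U.support
  · rw [sum_eq_single (cont I)]
    · rw [if_pos rfl, mul_comm]
    · intro b _ hb
      rw [if_neg (Ne.symm hb), mul_zero]
    · intro h'
      exact absurd h h'
  · rw [notMem_support_iff.1 h, mul_zero]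
    refine (sum_eq_zero fun b hb => ?_).symm
    rw [if_neg, mul_zero]
    rintro rfl
    exact h hb

theorem pair_pc (T : Ten n d) (k : Fin d) (B : Fin (n + 1) → MvPolynomial (Fin (n + 1)) ℂ) :
    ∑ I, T I * coeff (cont' I k) (B (I k)) =
      ∑ j, ∑ b ∈ (B j).support, coeff b (B j) * coeff b (pc T k j) := by
  simp_rw [coeff_pc, mul_sum]
  have h1 : ∀ j, ∑ b ∈ (B j).support, ∑ I, coeff b (B j) *
      (if I k = j then (if cont' I k = b then T I else 0) else 0) =
      ∑ I, if I k = j then T I * coeff (cont' I k) (B j) else 0 := by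
    intro j
    rw [sum_comm]
    refine sum_congr rfl fun I _ => ?_
    by_cases hj : I k = j
    · simp_rw [if_pos hj]
      by_cases h : cont' I k ∈ (B j).support
      · rw [sum_eq_single (cont' I k)]
        · rw [if_pos rfl, mul_comm]
        · intro b _ hb
          rw [if_neg (Ne.symm hb), mul_zero]
        · intro h'
          exact absurd h h'
      · rw [notMem_support_iff.1 h, mul_zero]
        refine sum_eq_zero fun b hb => ?_
        rw [if_neg, mul_zero]
        rintro rfl
        exact h hb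
    · simp_rw [if_neg hj, mul_zero, sum_const_zero]
  simp_rw [h1]
  rw [sum_comm]
  refine sum_congr rfl fun I _ => ?_
  rw [sum_ite_eq, if_pos (mem_univ _)]

theorem exists_word (b : Fin (n + 1) →₀ ℕ) (hb : b.degree = d) :
    ∃ I : Fin d → Fin (n + 1), cont I = b := by
  induction d generalizing b with
  | zero =>
    refine ⟨Fin.elim0, ?_⟩
    rw [Finsupp.degree_eq_zero_iff] at hb
    rw [hb]
    simp [cont]
  | succ d ih =>
    have hex : ∃ i, b i ≠ 0 := by
      by_contra hcon
      push Not at hcon
      have : b = 0 := by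
        ext i
        exact hcon i
      rw [this, map_zero] at hb
      omega
    obtain ⟨i, hi⟩ := hex
    have hle : Finsupp.single i 1 ≤ b := by
      rw [Finsupp.single_le_iff]
      omega
    have hsum : Finsupp.single i 1 + (b - Finsupp.single i 1) = b := add_tsub_cancel_of_le hle
    obtain ⟨I, hI⟩ := ih (b - Finsupp.single i 1) (by
      have := congrArg Finsupp.degree hsum
      rw [map_add, Finsupp.degree_single] at this
      omega)
    refine ⟨Fin.cons i I, ?_⟩
    unfold cont at hI ⊢
    rw [Fin.sum_univ_succ]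
    simp only [Fin.cons_zero, Fin.cons_succ]
    rw [hI, hsum]

theorem cont_comp (I : Fin d → Fin (n + 1)) (σ : Equiv.Perm (Fin d)) : cont (I ∘ σ) = cont I := by
  unfold cont
  exact Equiv.sum_comp σ (fun l => Finsupp.single (I l) 1)

theorem exists_pos (I : Fin d → Fin (n + 1)) (j : Fin (n + 1)) (hj : cont I j ≠ 0) :
    ∃ p, I p = j := by
  by_contra hcon
  push Not at hcon
  apply hj
  unfold cont
  rw [Finsupp.finsetSum_apply]
  refine sum_eq_zero fun l _ => ?_
  rw [Finsupp.single_apply, if_neg (hcon l)]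

/-- a word with prescribed content and two prescribed letters -/
theorem exists_word_two (b : Fin (n + 1) →₀ ℕ) (hb : b.degree = d) {k l : Fin d} (hkl : k ≠ l)
    {j j' : Fin (n + 1)} (hjj : j ≠ j') (hj : b j ≠ 0) (hj' : b j' ≠ 0) :
    ∃ I : Fin d → Fin (n + 1), cont I = b ∧ I k = j ∧ I l = j' := by
  obtain ⟨I0, h0⟩ := exists_word b hb
  obtain ⟨p, hp⟩ := exists_pos I0 j (by rwa [h0])
  set I1 := I0 ∘ Equiv.swap k p with hI1
  have h1 : cont I1 = b := by rw [hI1, cont_comp, h0]
  have h1k : I1 k = j := by simp [hI1, hp]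
  obtain ⟨p', hp'⟩ := exists_pos I1 j' (by rwa [h1])
  have hkp : k ≠ p' := by
    rintro rfl
    exact hjj (h1k.symm.trans hp')
  refine ⟨I1 ∘ Equiv.swap l p', ?_, ?_, ?_⟩
  · rw [cont_comp, h1]
  · simp only [Function.comp_apply]
    rw [Equiv.swap_apply_of_ne_of_ne hkl hkp, h1k]
  · simp [hp']

/-- the functional attached to a point of the model space -/
noncomputable def phi (n m : ℕ) : Y n m →ₗ[ℂ] Dual ℂ (Ten n (m + 1)) where
  toFun y :=
    { toFun := fun T => ∑ I, T I * (coeff (cont I) (y.1 : MvPolynomial (Fin (n + 1)) ℂ) +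
        ∑ k, coeff (cont' I k) ((y.2.1 k).1 (I k) : MvPolynomial (Fin (n + 1)) ℂ))
      map_add' := fun T T' => by
        simp only [Pi.add_apply, add_mul, sum_add_distrib]
      map_smul' := fun c T => by
        simp only [Pi.smul_apply, smul_eq_mul, RingHom.id_apply, mul_sum, mul_assoc] }
  map_add' y y' := by
    refine LinearMap.ext fun T => ?_
    simp only [LinearMap.coe_mk, AddHom.coe_mk, LinearMap.add_apply]
    rw [← sum_add_distrib]
    refine sum_congr rfl fun I _ => ?_
    rw [← mul_add]
    congr 1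
    have h1 : ((y + y').1 : MvPolynomial (Fin (n + 1)) ℂ) = y.1 + y'.1 := rfl
    have h2 : ∀ k, (((y + y').2.1 k).1 (I k) : MvPolynomial (Fin (n + 1)) ℂ) =
      (y.2.1 k).1 (I k) + (y'.2.1 k).1 (I k) := fun k => rfl
    rw [h1, coeff_add]
    simp_rw [h2, coeff_add, sum_add_distrib]
    ring
  map_smul' c y := by
    refine LinearMap.ext fun T => ?_
    simp only [LinearMap.coe_mk, AddHom.coe_mk, LinearMap.smul_apply, RingHom.id_apply, smul_eq_mul]
    rw [mul_sum]
    refine sum_congr rfl fun I _ => ?_
    rw [mul_left_comm]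
    congr 1
    have h1 : ((c • y).1 : MvPolynomial (Fin (n + 1)) ℂ) = c • (y.1 : MvPolynomial _ ℂ) := rfl
    have h2 : ∀ k, (((c • y).2.1 k).1 (I k) : MvPolynomial (Fin (n + 1)) ℂ) =
      c • ((y.2.1 k).1 (I k) : MvPolynomial _ ℂ) := fun k => rfl
    rw [h1, coeff_smul]
    simp_rw [h2, coeff_smul, smul_eq_mul]
    rw [mul_add, mul_sum]

theorem phi_apply (y : Y n m) (T : Ten n (m + 1)) :
    phi n m y T = ∑ I, T I * (coeff (cont I) (y.1 : MvPolynomial (Fin (n + 1)) ℂ) +
        ∑ k, coeff (cont' I k) ((y.2.1 k).1 (I k) : MvPolynomial (Fin (n + 1)) ℂ)) := rfl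

theorem phi_single (y : Y n m) (I : Fin (m + 1) → Fin (n + 1)) :
    phi n m y (Pi.single I 1) = coeff (cont I) (y.1 : MvPolynomial (Fin (n + 1)) ℂ) +
        ∑ k, coeff (cont' I k) ((y.2.1 k).1 (I k) : MvPolynomial (Fin (n + 1)) ℂ) := by
  rw [phi_apply, sum_eq_single I]
  · rw [Pi.single_eq_same, one_mul]
  · intro I' _ h
    rw [Pi.single_eq_of_ne h, zero_mul]
  · intro h
    exact absurd (mem_univ _) h

theorem phi_injective (n m : ℕ) : Function.Injective (phi n m) := by
  rw [injective_iff_map_eq_zero]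
  intro y hy
  obtain ⟨U, B⟩ := y
  have hword : ∀ I : Fin (m + 1) → Fin (n + 1),
      coeff (cont I) (U : MvPolynomial (Fin (n + 1)) ℂ) +
        ∑ k, coeff (cont' I k) ((B.1 k).1 (I k) : MvPolynomial (Fin (n + 1)) ℂ) = 0 := by
    intro I
    rw [← phi_single (U, B) I]
    have := congrArg (fun f => f (Pi.single I 1)) hy
    simpa using this
  -- the functions `t k j`
  set t : (Fin (n + 1) →₀ ℕ) → Fin (m + 1) → Fin (n + 1) → ℂ :=
    fun b k j => coeff b (X j * ((B.1 k).1 j : MvPolynomial (Fin (n + 1)) ℂ)) with ht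
  have hw2 : ∀ I : Fin (m + 1) → Fin (n + 1),
      coeff (cont I) (U : MvPolynomial (Fin (n + 1)) ℂ) + ∑ k, t (cont I) k (I k) = 0 := by
    intro I
    rw [← hword I]
    congr 1
    refine sum_congr rfl fun k _ => ?_
    rw [ht]
    simp only
    rw [cont_eq I k, coeff_X_mul]
  have hmu : ∀ b k, ∑ j, t b k j = 0 := by
    intro b k
    have h1 : mu n m (B.1 k).1 = 0 := (B.1 k).2
    have h2 := congrArg (fun p : H n (m + 1) => coeff b (p : MvPolynomial (Fin (n + 1)) ℂ)) h1
    simp only [mu_coe, coeff_sum] at h2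
    simpa using h2
  have hsum : ∀ b j, ∑ k, t b k j = 0 := by
    intro b j
    have h1 : sz (LinearMap.ker (mu n m)) m B.1 = 0 := B.2
    rw [sz_apply] at h1
    have h2 := congrArg (fun p : LinearMap.ker (mu n m) =>
      coeff b (X j * ((p.1 j : H n m) : MvPolynomial (Fin (n + 1)) ℂ))) h1
    simp only [ht]
    rw [← coeff_sum, ← mul_sum]
    simpa using h2
  have hzero : ∀ b : Fin (n + 1) →₀ ℕ, b.degree = m + 1 → ∀ k j, t b k j = 0 := by
    intro b hb k j
    have hout : ∀ k j, b j = 0 → t b k j = 0 := by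
      intro k j hbj
      rw [ht]
      simp only
      rw [coeff_X_mul', if_neg]
      rw [Finsupp.mem_support_iff, not_not]
      exact hbj
    by_cases hbj : b j = 0
    · exact hout k j hbj
    · have hdiff : ∀ k l, k ≠ l → ∀ j j', j ≠ j' → b j ≠ 0 → b j' ≠ 0 →
          t b k j - t b k j' = t b l j - t b l j' := by
        intro k l hkl j j' hjj hj hj'
        obtain ⟨I, hI, hIk, hIl⟩ := exists_word_two b hb hkl hjj hj hj'
        have e1 := hw2 I
        have e2 := hw2 (I ∘ Equiv.swap k l)
        rw [cont_comp, hI] at e2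
        rw [hI] at e1
        have s1 : ∀ f : Fin (m + 1) → ℂ, ∑ i, f i = f k + (f l + ∑ i ∈ (univ.erase k).erase l, f i) := by
          intro f
          rw [← add_sum_erase univ _ (mem_univ k), ← add_sum_erase (univ.erase k) _
            (mem_erase.2 ⟨hkl.symm, mem_univ l⟩)]
        rw [s1] at e1 e2
        have s2 : ∑ i ∈ (univ.erase k).erase l, t b i ((I ∘ Equiv.swap k l) i) =
            ∑ i ∈ (univ.erase k).erase l, t b i (I i) := by
          refine sum_congr rfl fun i hi => ?_
          rw [mem_erase, mem_erase] at hi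
          rw [Function.comp_apply, Equiv.swap_apply_of_ne_of_ne hi.2.1 hi.1]
        rw [s2] at e2
        simp only [Function.comp_apply, Equiv.swap_apply_left, Equiv.swap_apply_right] at e2
        rw [hIk, hIl] at e1 e2
        linear_combination e1 - e2
      have hconst : ∀ k j j', b j ≠ 0 → b j' ≠ 0 → t b k j = t b k j' := by
        intro k j j' hj hj'
        by_cases hjj : j = j'
        · rw [hjj]
        · have h1 : ∑ l, (t b l j - t b l j') = 0 := by
            rw [sum_sub_distrib, hsum, hsum, sub_zero]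
          have h2 : ∑ l : Fin (m + 1), (t b l j - t b l j') =
              ∑ l : Fin (m + 1), (t b k j - t b k j') := by
            refine sum_congr rfl fun l _ => ?_
            by_cases hkl : k = l
            · rw [hkl]
            · exact (hdiff k l hkl j j' hjj hj hj').symm
          rw [h2, sum_const, card_univ, Fintype.card_fin, nsmul_eq_mul] at h1
          have h0 : ((m + 1 : ℕ) : ℂ) ≠ 0 := by exact_mod_cast Nat.succ_ne_zero m
          have h3 := (mul_eq_zero.1 h1).resolve_left h0
          exact sub_eq_zero.1 h3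
      have h4 := hmu b k
      have h5 : ∑ j', t b k j' = ∑ j' ∈ univ.filter (fun j' => b j' ≠ 0), t b k j := by
        rw [sum_filter]
        refine sum_congr rfl fun j' _ => ?_
        split_ifs with hb'
        · exact hconst k j' j hb' hbj
        · exact hout k j' (not_not.1 hb')
      rw [h5, sum_const, nsmul_eq_mul] at h4
      have h6 : ((univ.filter (fun j' => b j' ≠ 0)).card : ℂ) ≠ 0 := by
        rw [Nat.cast_ne_zero]
        exact Finset.card_ne_zero_of_mem (mem_filter.2 ⟨mem_univ j, hbj⟩)
      exact (mul_eq_zero.1 h4).resolve_left h6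
  have hB : B = 0 := by
    refine Subtype.ext (funext fun k => Subtype.ext (funext fun j => Subtype.ext ?_))
    show ((B.1 k).1 j : MvPolynomial (Fin (n + 1)) ℂ) = 0
    have h1 : X j * ((B.1 k).1 j : MvPolynomial (Fin (n + 1)) ℂ) = 0 := by
      ext b
      rw [coeff_zero]
      by_cases hb : b.degree = m + 1
      · exact hzero b hb k j
      · have hh : (X j * ((B.1 k).1 j : MvPolynomial (Fin (n + 1)) ℂ)).IsHomogeneous (1 + m) :=
          (isHomogeneous_X ℂ j).mul ((B.1 k).1 j).2
        exact hh.coeff_eq_zero (by omega)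
    exact (mul_eq_zero.1 h1).resolve_left (X_ne_zero j)
  have hU : U = 0 := by
    refine Subtype.ext ?_
    show (U : MvPolynomial (Fin (n + 1)) ℂ) = 0
    ext b
    rw [coeff_zero]
    by_cases hb : b.degree = m + 1
    · obtain ⟨I, hI⟩ := exists_word b hb
      have h1 := hw2 I
      rw [hI] at h1
      simp_rw [hzero b hb] at h1
      simpa using h1
    · exact U.2.coeff_eq_zero hb
  rw [hB, hU]
  rfl

/-- the tensors all of whose contractions vanish -/
def kerG (n d : ℕ) : Submodule ℂ (Ten n d) where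
  carrier := {T | ∀ k j, pc T k j = 0}
  add_mem' := by
    intro T T' h h' k j
    rw [pc_add, h k j, h' k j, add_zero]
  zero_mem' := by
    intro k j
    have := pc_smul (0 : ℂ) (0 : Ten n d) k j
    simpa using this
  smul_mem' := by
    intro c T h k j
    rw [pc_smul, h k j, mul_zero]

theorem mem_kerG {T : Ten n d} : T ∈ kerG n d ↔ ∀ k j, pc T k j = 0 := Iff.rfl

theorem phi_mem (y : Y n m) : phi n m y ∈ (kerG n (m + 1)).dualAnnihilator := by
  rw [Submodule.mem_dualAnnihilator]
  intro T hT
  have hpf : pfull T = 0 := by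
    rw [← sum_X_mul_pc T 0]
    refine sum_eq_zero fun j _ => ?_
    rw [hT 0 j, mul_zero]
  rw [phi_apply]
  simp_rw [mul_add, sum_add_distrib, mul_sum]
  rw [pair_full, hpf, sum_comm]
  simp only [coeff_zero, mul_zero, sum_const_zero, zero_add]
  refine sum_eq_zero fun k _ => ?_
  rw [pair_pc T k (fun j => ((y.2.1 k).1 j : MvPolynomial (Fin (n + 1)) ℂ))]
  refine sum_eq_zero fun j _ => sum_eq_zero fun b _ => ?_
  rw [hT k j, coeff_zero, mul_zero]

theorem finrank_Y_le (n m : ℕ) :
    finrank ℂ (Y n m) + finrank ℂ (kerG n (m + 1)) ≤ finrank ℂ (Ten n (m + 1)) := by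
  have h1 := Subspace.finrank_add_finrank_dualAnnihilator_eq (kerG n (m + 1))
  have h2 : finrank ℂ (Y n m) ≤ finrank ℂ (kerG n (m + 1)).dualAnnihilator := by
    have := LinearMap.finrank_le_finrank_of_injective
      (f := (phi n m).codRestrict (kerG n (m + 1)).dualAnnihilator (fun y => phi_mem y)) (by
        intro y y' h
        exact phi_injective n m (congrArg Subtype.val h))
    exact this
  omega

end Pool.Agent.R840.EC
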