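import Pool.Agent.R840.EC.Count

set_option autoImplicit false

namespace Pool.Agent.R840.EC

open Finset MvPolynomial

variable {n d : ℕ}

/-- `D_{n,d} = 1 + (d-1) + … + (d-1)^n` -/
def numEig (n d : ℕ) : ℕ := ∑ i ∈ range (n + 1), (d - 1) ^ i

theorem numEig_mul (hd : 3 ≤ d) : (d - 2) * numEig n d + 1 = (d - 1) ^ (n + 1) := by
  have h2 : (d - 1 - 1) * numEig n d = (d - 1) ^ (n + 1) - 1 := by
    unfold numEig
    have h3 : ((∑ i ∈ range (n + 1), (d - 1) ^ i) * (d - 1 - 1)) = (d - 1) ^ (n + 1) - 1 := by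
      zify [show 1 ≤ d - 1 by omega, Nat.one_le_pow (n + 1) (d - 1) (by omega)]
      exact geom_sum_mul (((d - 1 : ℕ) : ℤ)) (n + 1)
    rw [mul_comm]
    exact h3
  have h5 : 1 ≤ (d - 1) ^ (n + 1) := Nat.one_le_pow _ _ (by omega)
  rw [show d - 1 - 1 = d - 2 by omega] at h2
  omega

theorem numEig_pos (n d : ℕ) : 0 < numEig n d := by
  unfold numEig
  rw [sum_range_succ']
  simp

/-- the piece of the set of representatives with first nonzero coordinate `i` -/
noncomputable def piece (n d : ℕ) (i : Fin (n + 1)) : Finset (Fin (n + 1) → ℂ) :=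
  Fintype.piFinset (fun j => if j < i then {0} else if j = i then {1} else grid d)

theorem mem_piece {i : Fin (n + 1)} {a : Fin (n + 1) → ℂ} :
    a ∈ piece n d i ↔ (∀ j, j < i → a j = 0) ∧ a i = 1 ∧ ∀ j, i < j → a j ∈ grid d := by
  unfold piece
  rw [Fintype.mem_piFinset]
  constructor
  · intro h
    refine ⟨fun j hj => ?_, ?_, fun j hj => ?_⟩
    · have := h j
      rw [if_pos hj] at this
      simpa using this
    · have := h i
      rw [if_neg (lt_irrefl i), if_pos rfl] at this
      simpa using this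
    · have := h j
      rw [if_neg (not_lt.2 hj.le), if_neg (ne_of_gt hj)] at this
      exact this
  · rintro ⟨h1, h2, h3⟩ j
    rcases lt_trichotomy j i with hj | hj | hj
    · rw [if_pos hj, h1 j hj]
      simp
    · rw [if_neg (by rw [hj]; exact lt_irrefl i), if_pos hj, hj, h2]
      simp
    · rw [if_neg (not_lt.2 hj.le), if_neg (ne_of_gt hj)]
      exact h3 j hj

theorem card_piece (hd : 3 ≤ d) (i : Fin (n + 1)) : #(piece n d i) = (d - 1) ^ (n - (i : ℕ)) := by
  unfold piece
  rw [Fintype.card_piFinset]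
  have h1 : ∀ j : Fin (n + 1), #(if j < i then ({0} : Finset ℂ) else if j = i then {1} else grid d) =
      if i < j then d - 1 else 1 := by
    intro j
    rcases lt_trichotomy j i with hj | hj | hj
    · rw [if_pos hj, if_neg (not_lt.2 hj.le), card_singleton]
    · rw [if_neg (by rw [hj]; exact lt_irrefl i), if_pos hj, if_neg (by rw [hj]; exact lt_irrefl i),
        card_singleton]
    · rw [if_neg (not_lt.2 hj.le), if_neg (ne_of_gt hj), if_pos hj, card_grid hd]
  simp_rw [h1]
  rw [prod_ite, prod_const, prod_const_one, mul_one]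
  congr 1
  have h2 : (univ.filter (fun j : Fin (n + 1) => i < j)) = Finset.Ioi i := by
    ext j
    simp
  rw [h2, Fin.card_Ioi]
  omega

/-- representatives of the eigenvectors of the Fermat tensor -/
noncomputable def Rset (n d : ℕ) : Finset (Fin (n + 1) → ℂ) :=
  univ.biUnion (fun i => piece n d i)

theorem mem_Rset {a : Fin (n + 1) → ℂ} : a ∈ Rset n d ↔ ∃ i, a ∈ piece n d i := by
  unfold Rset
  simp

theorem card_Rset (hd : 3 ≤ d) : #(Rset n d) = numEig n d := by
  unfold Rset
  rw [card_biUnion]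
  · simp_rw [card_piece hd]
    unfold numEig
    rw [Fin.sum_univ_eq_sum_range (fun i => (d - 1) ^ (n - i)) (n + 1)]
    have := Finset.sum_range_reflect (fun i => (d - 1) ^ i) (n + 1)
    simpa using this
  · intro i _ i' _ hii
    rw [Function.onFun, Finset.disjoint_left]
    intro a ha ha'
    rw [mem_piece] at ha ha'
    rcases lt_or_gt_of_ne hii with h | h
    · have h1 := ha'.1 i h
      rw [ha.2.1] at h1
      exact one_ne_zero h1
    · have h1 := ha.1 i' h
      rw [ha'.2.1] at h1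
      exact one_ne_zero h1

theorem Rset_ne_zero {a : Fin (n + 1) → ℂ} (ha : a ∈ Rset n d) : a ≠ 0 := by
  obtain ⟨i, hi⟩ := mem_Rset.1 ha
  rw [mem_piece] at hi
  rintro rfl
  exact zero_ne_one hi.2.1

theorem Rset_grid (hd : 3 ≤ d) {a : Fin (n + 1) → ℂ} (ha : a ∈ Rset n d) (j : Fin (n + 1)) :
    a j ^ (d - 1) = a j := by
  obtain ⟨i, hi⟩ := mem_Rset.1 ha
  rw [mem_piece] at hi
  rcases lt_trichotomy j i with hj | hj | hj
  · rw [hi.1 j hj, zero_pow (by omega)]
  · rw [hj, hi.2.1, one_pow]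
  · exact (mem_grid hd).1 (hi.2.2 j hj)

theorem Rset_inj {a b : Fin (n + 1) → ℂ} (ha : a ∈ Rset n d) (hb : b ∈ Rset n d)
    (hab : ∀ i j, a i * b j = a j * b i) : a = b := by
  obtain ⟨i, hi⟩ := mem_Rset.1 ha
  obtain ⟨i', hi'⟩ := mem_Rset.1 hb
  rw [mem_piece] at hi hi'
  have hii : i = i' := by
    rcases lt_trichotomy i i' with h | h | h
    · have h1 := hi'.1 i h
      have h2 := hab i i'
      rw [hi.2.1, hi'.2.1, h1, mul_zero, one_mul] at h2
      exact absurd h2 one_ne_zero
    · exact h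
    · have h1 := hi.1 i' h
      have h2 := hab i i'
      rw [hi.2.1, hi'.2.1, h1, zero_mul, one_mul] at h2
      exact absurd h2 one_ne_zero
  subst hii
  funext j
  have h2 := hab i j
  rw [hi.2.1, hi'.2.1, one_mul, mul_one] at h2
  exact h2.symm

theorem exists_rep (hd : 3 ≤ d) {a : Fin (n + 1) → ℂ} (ha : ∀ j, a j ^ (d - 1) = a j)
    (h0 : a ≠ 0) : ∃ r ∈ Rset n d, ∃ c : ℂ, a = c • r := by
  classical
  obtain ⟨j0, hj0⟩ := Function.ne_iff.1 h0
  have hne : (univ.filter (fun j => a j ≠ 0)).Nonempty := ⟨j0, by simpa using hj0⟩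
  set i := (univ.filter (fun j => a j ≠ 0)).min' hne with hi
  have hi1 : a i ≠ 0 := by
    have := Finset.min'_mem _ hne
    rw [← hi, mem_filter] at this
    exact this.2
  have hi2 : ∀ j, j < i → a j = 0 := by
    intro j hj
    by_contra hcon
    have := Finset.min'_le (univ.filter (fun j => a j ≠ 0)) j (by simpa using hcon)
    rw [← hi] at this
    exact absurd hj (not_lt.2 this)
  have hpow : a i ^ (d - 2) = 1 := by
    have : a i ^ (d - 2) * a i = 1 * a i := by
      rw [← pow_succ, show d - 2 + 1 = d - 1 by omega, ha i, one_mul]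
    exact mul_right_cancel₀ hi1 this
  refine ⟨(a i)⁻¹ • a, ?_, a i, ?_⟩
  · rw [mem_Rset]
    refine ⟨i, mem_piece.2 ⟨fun j hj => ?_, ?_, fun j _ => ?_⟩⟩
    · rw [Pi.smul_apply, hi2 j hj, smul_zero]
    · rw [Pi.smul_apply, smul_eq_mul, inv_mul_cancel₀ hi1]
    · rw [mem_grid hd, Pi.smul_apply, smul_eq_mul, mul_pow, ha j]
      congr 1
      rw [show d - 1 = d - 2 + 1 by omega, pow_succ, inv_pow, hpow, inv_one, one_mul]
  · rw [smul_smul, mul_inv_cancel₀ hi1, one_smul]

/-- enumeration of the representatives -/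
noncomputable def rep (hd : 3 ≤ d) (i : Fin (numEig n d)) : Fin (n + 1) → ℂ :=
  ((Rset n d).equivFinOfCardEq (card_Rset hd)).symm i

theorem rep_mem (hd : 3 ≤ d) (i : Fin (numEig n d)) : rep hd i ∈ Rset n d :=
  (((Rset n d).equivFinOfCardEq (card_Rset hd)).symm i).2

theorem rep_injective (hd : 3 ≤ d) : Function.Injective (rep (n := n) hd) := by
  intro i j h
  exact ((Rset n d).equivFinOfCardEq (card_Rset hd)).symm.injective (Subtype.ext h)

theorem rep_surj (hd : 3 ≤ d) {a : Fin (n + 1) → ℂ} (ha : a ∈ Rset n d) :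
    ∃ i, rep hd i = a := by
  refine ⟨(Rset n d).equivFinOfCardEq (card_Rset hd) ⟨a, ha⟩, ?_⟩
  unfold rep
  rw [Equiv.symm_apply_apply]

/-- the weights -/
noncomputable def bet (n : ℕ) : Fin (n + 1) → ℂ := fun j => if j = 0 then 2 else 1

theorem bet_ne_zero (j : Fin (n + 1)) : bet n j ≠ 0 := by
  unfold bet
  split_ifs
  · exact two_ne_zero
  · exact one_ne_zero

/-- the coefficients of the base tensor -/
noncomputable def alp (n d : ℕ) : Fin (n + 1) → ℂ := fun j => (bet n j ^ (d - 2))⁻¹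

/-- the scaled representatives -/
noncomputable def pt (hd : 3 ≤ d) (i : Fin (numEig n d)) : Fin (n + 1) → ℂ :=
  fun j => bet n j * rep hd i j

theorem pt_eq (hd : 3 ≤ d) (i : Fin (numEig n d)) (j : Fin (n + 1)) :
    alp n d j * pt hd i j ^ (d - 1) = pt hd i j := by
  unfold pt alp
  rw [mul_pow, Rset_grid hd (rep_mem hd i) j]
  have h := bet_ne_zero j
  have h2 : bet n j ^ (d - 1) = bet n j ^ (d - 2) * bet n j := by
    rw [← pow_succ, show d - 2 + 1 = d - 1 by omega]
  rw [h2]
  have h3 := pow_ne_zero (d - 2) h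
  field_simp

theorem pt_ne_zero (hd : 3 ≤ d) (i : Fin (numEig n d)) : pt hd i ≠ 0 := by
  intro h
  apply Rset_ne_zero (rep_mem hd i)
  funext j
  have := congrFun h j
  unfold pt at this
  exact (mul_eq_zero.1 this).resolve_left (bet_ne_zero j)

theorem pt_indep (hd : 3 ≤ d) {i i' : Fin (numEig n d)} (h : i ≠ i') :
    ∃ j j', pt hd i j * pt hd i' j' ≠ pt hd i j' * pt hd i' j := by
  by_contra hcon
  push Not at hcon
  apply h
  apply rep_injective hd
  apply Rset_inj (rep_mem hd i) (rep_mem hd i')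
  intro j j'
  have h1 := hcon j j'
  unfold pt at h1
  have h2 : bet n j * bet n j' * (rep hd i j * rep hd i' j') =
      bet n j * bet n j' * (rep hd i j' * rep hd i' j) := by linear_combination h1
  exact mul_left_cancel₀ (mul_ne_zero (bet_ne_zero j) (bet_ne_zero j')) h2

end Pool.Agent.R840.EC
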