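import Pool.Agent.R840.EC.Rank

set_option autoImplicit false

namespace Pool.Agent.R840.EC

open Finset MvPolynomial Module

variable {n d m : ℕ}

/-- `pfull` with values in forms -/
noncomputable def pfullH (T : Ten n (m + 1)) : H n (m + 1) := ⟨pfull T, pfull_homogeneous T⟩

/-- `pc` with values in forms -/
noncomputable def pcH (T : Ten n (m + 1)) (k : Fin (m + 1)) : Fin (n + 1) → H n m :=
  fun j => ⟨pc T k j, pc_homogeneous T k j⟩

theorem pfull_add {R : Type*} [CommRing R] (T T' : (Fin d → Fin (n + 1)) → R) :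
    pfull (T + T') = pfull T + pfull T' := by
  unfold pfull full
  rw [← sum_add_distrib]
  refine sum_congr rfl fun I _ => ?_
  simp only [Pi.add_apply, C_add, add_mul]

theorem pfull_smul {R : Type*} [CommRing R] (c : R) (T : (Fin d → Fin (n + 1)) → R) :
    pfull (c • T) = C c * pfull T := by
  unfold pfull full
  rw [mul_sum]
  refine sum_congr rfl fun I _ => ?_
  simp only [Pi.smul_apply, smul_eq_mul, C_mul, mul_assoc]

theorem pfullH_add (T T' : Ten n (m + 1)) : pfullH (T + T') = pfullH T + pfullH T' :=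
  Subtype.ext (pfull_add T T')

theorem pfullH_smul (c : ℂ) (T : Ten n (m + 1)) : pfullH (c • T) = c • pfullH T :=
  Subtype.ext (by
    show pfull (c • T) = c • pfull T
    rw [pfull_smul, smul_eq_C_mul])

theorem pcH_add (T T' : Ten n (m + 1)) (k : Fin (m + 1)) : pcH (T + T') k = pcH T k + pcH T' k :=
  funext fun j => Subtype.ext (pc_add T T' k j)

theorem pcH_smul (c : ℂ) (T : Ten n (m + 1)) (k : Fin (m + 1)) : pcH (c • T) k = c • pcH T k :=
  funext fun j => Subtype.ext (by
    show pc (c • T) k j = c • pc T k j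
    rw [pc_smul, smul_eq_C_mul])

theorem mu_pcH (T : Ten n (m + 1)) (k : Fin (m + 1)) : mu n m (pcH T k) = pfullH T := by
  ext1
  rw [mu_coe]
  exact sum_X_mul_pc T k

theorem sum_pcH (T : Ten n (m + 1)) : ∑ k, (pcH T k - grd n m (pfullH T)) = 0 := by
  rw [sum_sub_distrib, sum_const, card_univ, Fintype.card_fin, sub_eq_zero]
  funext j
  ext1
  rw [Finset.sum_apply, Submodule.coe_sum, Pi.smul_apply, ← Nat.cast_smul_eq_nsmul ℂ,
    Submodule.coe_smul, grd_coe]
  have h0 : ((m + 1 : ℕ) : ℂ) ≠ 0 := by exact_mod_cast Nat.succ_ne_zero m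
  show ∑ k, pc T k j = ((m + 1 : ℕ) : ℂ) • ((m + 1 : ℕ) : ℂ)⁻¹ • pderiv j (pfull T)
  rw [pderiv_pfull, smul_smul, mul_inv_cancel₀ h0, one_smul]

theorem mu_sub (T : Ten n (m + 1)) (k : Fin (m + 1)) :
    mu n m (pcH T k - grd n m (pfullH T)) = 0 := by
  rw [map_sub, mu_pcH, mu_grd, sub_self]

/-- the contraction map into the model space -/
noncomputable def theta (n m : ℕ) : Ten n (m + 1) →ₗ[ℂ] Y n m where
  toFun T := (pfullH T, ⟨fun k => ⟨pcH T k - grd n m (pfullH T), mu_sub T k⟩, by
    rw [LinearMap.mem_ker, sz_apply]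
    refine Subtype.ext ?_
    rw [Submodule.coe_sum]
    exact sum_pcH T⟩)
  map_add' T T' := by
    refine Prod.ext (pfullH_add T T') (Subtype.ext (funext fun k => Subtype.ext ?_))
    show pcH (T + T') k - grd n m (pfullH (T + T')) =
      (pcH T k - grd n m (pfullH T)) + (pcH T' k - grd n m (pfullH T'))
    rw [pcH_add, pfullH_add, map_add]
    abel
  map_smul' c T := by
    refine Prod.ext (pfullH_smul c T) (Subtype.ext (funext fun k => Subtype.ext ?_))
    show pcH (c • T) k - grd n m (pfullH (c • T)) = c • (pcH T k - grd n m (pfullH T))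
    rw [pcH_smul, pfullH_smul, map_smul, smul_sub]

theorem theta_fst (T : Ten n (m + 1)) : (theta n m T).1 = pfullH T := rfl

theorem theta_snd (T : Ten n (m + 1)) (k : Fin (m + 1)) :
    ((theta n m T).2.1 k).1 = pcH T k - grd n m (pfullH T) := rfl

theorem ker_theta (n m : ℕ) : LinearMap.ker (theta n m) = kerG n (m + 1) := by
  ext T
  rw [LinearMap.mem_ker, mem_kerG]
  constructor
  · intro h k j
    have h1 : pfullH T = 0 := by
      rw [← theta_fst, h]
      rfl
    have h2 : pcH T k - grd n m (pfullH T) = 0 := by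
      rw [← theta_snd, h]
      rfl
    rw [h1, map_zero, sub_zero] at h2
    have h3 := congrFun h2 j
    exact congrArg Subtype.val h3
  · intro h
    have h1 : pfullH T = 0 := by
      refine Subtype.ext ?_
      show pfull T = 0
      rw [← sum_X_mul_pc T 0]
      refine sum_eq_zero fun j _ => ?_
      rw [h 0 j, mul_zero]
    refine Prod.ext h1 (Subtype.ext (funext fun k => Subtype.ext ?_))
    show pcH T k - grd n m (pfullH T) = 0
    rw [h1, map_zero, sub_zero]
    funext j
    exact Subtype.ext (h k j)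

theorem theta_finrank (n m : ℕ) :
    finrank ℂ (LinearMap.range (theta n m)) = finrank ℂ (Y n m) := by
  have h1 := LinearMap.finrank_range_add_finrank_ker (theta n m)
  rw [ker_theta] at h1
  have h2 := finrank_Y_le n m
  have h3 := Submodule.finrank_le (LinearMap.range (theta n m))
  omega

theorem theta_surjective (n m : ℕ) : Function.Surjective (theta n m) := by
  rw [← LinearMap.range_eq_top]
  exact Submodule.eq_top_of_finrank_eq (theta_finrank n m)

theorem finrank_kerG (n m : ℕ) :
    finrank ℂ (Y n m) + finrank ℂ (kerG n (m + 1)) = finrank ℂ (Ten n (m + 1)) := by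
  have h1 := LinearMap.finrank_range_add_finrank_ker (theta n m)
  rw [ker_theta, theta_finrank] at h1
  exact h1

end Pool.Agent.R840.EC
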