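import Pool.Agent.R840.EC.Generic

set_option autoImplicit false

namespace Pool.Agent.R840.EC

open Finset MvPolynomial Module

variable {n d r : ℕ}

/-- The field of a generic point. -/
theorem generic_point {R' : ℕ}
    (f : Fin R' → MvPolynomial (Idx n d) ℂ)
    (e : Fin (r + 1) → Ten n d) (b : Fin (r + 1)) (g : MvPolynomial (Fin d → Fin (n + 1)) ℂ)
    (l : Fin d → Fin (n + 1) → ℂ)
    (hQ : ∀ Q : MvPolynomial (Fin R') ℂ, Q ≠ 0 → ∃ z : Var n d r → ℂ,
        (∀ k i j j', mnP e b k i j j' z = 0) ∧ dlP e b g l z = 0 ∧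
        eval (fun l => eval (chP z) (f l)) Q ≠ 0) :
    ∃ (K : Type) (_ : Field K) (_ : Algebra ℂ K) (z : Var n d r → K),
      (∀ k i j j', mnP e b k i j j' z = 0) ∧ dlP e b g l z = 0 ∧
      AlgebraicIndependent ℂ (fun l => aeval (chP z) (f l)) := by
  set E : Set (Var n d r → ℂ) := {z | (∀ k i j j', mnP e b k i j j' z = 0) ∧ dlP e b g l z = 0}
    with hE
  set J := vanishingIdeal ℂ E with hJ
  set XX : Var n d r → MvPolynomial (Var n d r) ℂ := X with hXX
  set F : Fin R' → MvPolynomial (Var n d r) ℂ := fun l => aeval (chP XX) (f l) with hF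
  have haX : ∀ z : Var n d r → ℂ, (fun v => aeval z (XX v)) = z := by
    intro z
    funext v
    rw [hXX, aeval_X]
  have hm : ∀ k i j j', mnP e b k i j j' XX ∈ J := by
    intro k i j j' z hz
    rw [nat_mnP, haX]
    exact hz.1 k i j j'
  have hdl : dlP e b g l XX ∈ J := by
    intro z hz
    rw [nat_dlP, haX]
    exact hz.2
  have hQJ : ∀ Q : MvPolynomial (Fin R') ℂ, Q ≠ 0 → aeval F Q ∉ J := by
    intro Q hQ0 hmem
    obtain ⟨z, hz1, hz2, hz3⟩ := hQ Q hQ0
    apply hz3
    have h1 := hmem z ⟨hz1, hz2⟩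
    rw [comp_aeval_apply] at h1
    rw [← h1]
    have h2 : ∀ l, aeval z (F l) = eval (chP z) (f l) := by
      intro l
      rw [hF]
      simp only
      rw [comp_aeval_apply]
      have h3 : (fun i => aeval z (chP XX i)) = chP z := by
        funext x
        rw [nat_chP, haX]
      rw [h3]
      rfl
    simp_rw [h2]
    rfl
  set M : Submonoid (MvPolynomial (Var n d r) ℂ) :=
    Submonoid.map (aeval F : MvPolynomial (Fin R') ℂ →ₐ[ℂ] MvPolynomial (Var n d r) ℂ)
      (nonZeroDivisors (MvPolynomial (Fin R') ℂ)) with hM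
  have hdisj : Disjoint (J : Set (MvPolynomial (Var n d r) ℂ)) M := by
    rw [Set.disjoint_left]
    rintro _ hJmem ⟨Q, hQ1, rfl⟩
    exact hQJ Q (nonZeroDivisors.ne_zero hQ1) hJmem
  obtain ⟨Pr, hprime, hJp, hpd⟩ := Ideal.exists_le_prime_disjoint J M hdisj
  set π : MvPolynomial (Var n d r) ℂ →ₐ[ℂ] FractionRing (MvPolynomial (Var n d r) ℂ ⧸ Pr) :=
    (IsScalarTower.toAlgHom ℂ (MvPolynomial (Var n d r) ℂ ⧸ Pr)
      (FractionRing (MvPolynomial (Var n d r) ℂ ⧸ Pr))).comp (Ideal.Quotient.mkₐ ℂ Pr) with hπ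
  have hπ0 : ∀ q, π q = 0 ↔ q ∈ Pr := by
    intro q
    rw [← Ideal.Quotient.eq_zero_iff_mem]
    show algebraMap (MvPolynomial (Var n d r) ℂ ⧸ Pr)
      (FractionRing (MvPolynomial (Var n d r) ℂ ⧸ Pr)) (Ideal.Quotient.mk Pr q) = 0 ↔ _
    rw [FaithfulSMul.algebraMap_eq_zero_iff]
  refine ⟨FractionRing (MvPolynomial (Var n d r) ℂ ⧸ Pr), inferInstance, inferInstance,
    fun v => π (XX v), ?_, ?_, ?_⟩
  · intro k i j j'
    rw [← nat_mnP, hπ0]
    exact hJp (hm k i j j')
  · rw [← nat_dlP, hπ0]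
    exact hJp hdl
  · rw [algebraicIndependent_iff]
    intro Q hQ1
    by_contra hQ0
    have h1 : (fun l => aeval (chP fun v => π (XX v)) (f l)) = fun l => π (F l) := by
      funext l
      rw [hF]
      simp only
      rw [comp_aeval_apply]
      congr 2
      funext x
      rw [nat_chP]
    rw [h1, ← comp_aeval_apply, hπ0] at hQ1
    exact Set.disjoint_left.1 hpd hQ1 ⟨Q, mem_nonZeroDivisors_of_ne_zero hQ0, rfl⟩

theorem field_bound {R' : ℕ} (f : Fin R' → MvPolynomial (Idx n d) ℂ)
    (e : Fin (r + 1) → Ten n d) (b : Fin (r + 1)) (g : MvPolynomial (Fin d → Fin (n + 1)) ℂ)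
    (l : Fin d → Fin (n + 1) → ℂ) (hl : ∀ k, Cert k (l k) g)
    (K : Type) [Field K] [Algebra ℂ K] (z : Var n d r → K)
    (hz1 : ∀ k i j j', mnP e b k i j j' z = 0) (hz2 : dlP e b g l z = 0)
    (hz3 : AlgebraicIndependent ℂ (fun l => aeval (chP z) (f l))) : R' ≤ r + d := by
  set w : Fin d → Fin (numEig n d) → K := fun k i => ∑ j, algebraMap ℂ K (l k j) * vp z k i j
    with hw
  set s : Fin d → K := fun k => ∏ i, w k i with hs
  set Y : Set K := Set.range (vth z) ∪ Set.range s with hY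
  have hYc : Y.encard ≤ ((r + d : ℕ) : ℕ∞) := by
    refine (Set.encard_union_le _ _).trans ?_
    have h1 : (Set.range (vth z)).encard ≤ (r : ℕ∞) := by
      rw [← Set.image_univ]
      refine (Set.encard_image_le _ _).trans ?_
      simp
    have h2 : (Set.range s).encard ≤ (d : ℕ∞) := by
      rw [← Set.image_univ]
      refine (Set.encard_image_le _ _).trans ?_
      simp
    push_cast
    exact add_le_add h1 h2
  apply count_indep Y hYc _ hz3
  set Fl := IntermediateField.adjoin ℂ Y with hFl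
  have hth : ∀ i, vth z i ∈ Fl := fun i =>
    IntermediateField.subset_adjoin ℂ Y (Or.inl ⟨i, rfl⟩)
  have hsm : ∀ k, s k ∈ Fl := fun k =>
    IntermediateField.subset_adjoin ℂ Y (Or.inr ⟨k, rfl⟩)
  set TF : (Fin d → Fin (n + 1)) → Fl := slice e b (fun i => (⟨vth z i, hth i⟩ : Fl)) with hTF
  have hTFmap : ∀ I, algebraMap Fl K (TF I) = slice e b (vth z) I := by
    intro I
    have := map_slice Fl.val e b (fun i => (⟨vth z i, hth i⟩ : Fl)) I
    exact this
  have hdl : z none * (aeval (slice e b (vth z)) g * ∏ k, s k) = 1 := by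
    have h1 := hz2
    unfold dlP at h1
    exact sub_eq_zero.1 h1
  have hgs : aeval (slice e b (vth z)) g * ∏ k, s k ≠ 0 := by
    intro h0
    rw [h0, mul_zero] at hdl
    exact zero_ne_one hdl
  have hg : aeval TF g ≠ 0 := by
    intro h0
    apply left_ne_zero_of_mul hgs
    have h1 : (Fl.val) (aeval TF g) = aeval (fun I => Fl.val (TF I)) g := comp_aeval_apply _ _ _
    rw [h0, map_zero] at h1
    have h2 : (fun I => Fl.val (TF I)) = slice e b (vth z) := by
      funext I
      exact hTFmap I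
    rw [h2] at h1
    exact h1.symm
  have hwne : ∀ k i, w k i ≠ 0 := by
    intro k i h0
    apply right_ne_zero_of_mul hgs
    refine prod_eq_zero (mem_univ k) ?_
    exact prod_eq_zero (mem_univ i) h0
  have hpne : ∀ k i, vp z k i ≠ 0 := by
    intro k i h0
    apply hwne k i
    rw [hw]
    simp only [h0, Pi.zero_apply, mul_zero, sum_const_zero]
  have hint : ∀ k i j, IsIntegral Fl (vp z k i j / w k i) := by
    intro k i
    refine (hl k Fl K TF (vp z k i) hg (hpne k i) ?_).2
    intro j j'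
    have h1 := hz1 k i j j'
    unfold mnP at h1
    have h2 : (fun I => algebraMap Fl K (TF I)) = slice e b (vth z) := by
      funext I
      exact hTFmap I
    rw [h2]
    exact sub_eq_zero.1 h1
  set A := Subalgebra.algebraicClosure Fl K with hA
  have hcA : ∀ x, chP z x ∈ A := by
    intro x
    unfold chP
    have h1 : vp z x.1 = fun i j => w x.1 i * (vp z x.1 i j / w x.1 i) := by
      funext i j
      rw [mul_div_cancel₀]
      exact hwne x.1 i
    rw [h1, chowR_smul, coeff_C_mul]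
    apply A.mul_mem
    · exact A.algebraMap_mem ⟨s x.1, hsm x.1⟩
    · apply coeff_chowR_mem
      intro i j
      exact (hint x.1 i j).isAlgebraic
  intro l'
  exact aeval_mem A (chP z) hcA (f l')

theorem upper_bound (hn : 1 ≤ n) (hd : 3 ≤ d) {S : Set (Config n d)}
    (hS : S ⊆ finiteConfigs n d) (r : ℕ)
    (hr : (r + 1) + finrank ℂ (kerL n d) = finrank ℂ (Ten n d)) {R' : ℕ}
    (x : Fin R' → MvPolynomial (Idx n d) ℂ ⧸ vanishingIdeal ℂ (cone S))
    (hx : AlgebraicIndependent ℂ x) : R' ≤ r + d := by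
  have hlift : ∀ l, ∃ f, Ideal.Quotient.mk (vanishingIdeal ℂ (cone S)) f = x l := fun l =>
    Ideal.Quotient.mk_surjective (x l)
  choose f hf using hlift
  have hind : ∀ Q : MvPolynomial (Fin R') ℂ, Q ≠ 0 →
      ∃ c ∈ cone S, eval (fun l => eval c (f l)) Q ≠ 0 := by
    intro Q hQ0
    by_contra hcon
    push Not at hcon
    apply hQ0
    rw [algebraicIndependent_iff] at hx
    apply hx Q
    have h1 : aeval f Q ∈ vanishingIdeal ℂ (cone S) := by
      intro c hc
      rw [eval_aeval]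
      exact hcon c hc
    have h2 : aeval x Q = (Ideal.Quotient.mkₐ ℂ (vanishingIdeal ℂ (cone S))) (aeval f Q) := by
      rw [comp_aeval_apply]
      congr 2
      funext l
      rw [← hf l]
      rfl
    rw [h2]
    exact Ideal.Quotient.eq_zero_iff_mem.2 h1
  obtain ⟨e, b, g, l, hl, hQ⟩ := exists_good hn hd hS r hr f hind
  obtain ⟨K, hK1, hK2, z, hz1, hz2, hz3⟩ := generic_point f e b g l hQ
  exact field_bound f e b g l hl K z hz1 hz2 hz3

end Pool.Agent.R840.EC
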